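import Mathlib

set_option autoImplicit false
set_option linter.unusedSectionVars false
set_option linter.style.haveILetI false

/-!
`l_1^n` is not uniformly complemented in `C(K)`; the isomorphism class of `C(K)` has infinite
diameter.
-/

namespace Pool.Agent.H826R3.CKDiam

open Filter Topology Set

/-- the sign of a unit of the integers in a ring -/
def sg {R : Type*} [Ring R] (u : ℤˣ) : R := ((u : ℤ) : R)

lemma sg_one {R : Type*} [Ring R] : (sg (1 : ℤˣ) : R) = 1 := by simp [sg]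
lemma sg_neg_one {R : Type*} [Ring R] : (sg (-1 : ℤˣ) : R) = -1 := by simp [sg]
lemma sg_mul {R : Type*} [Ring R] (u v : ℤˣ) : (sg (u * v) : R) = sg u * sg v := by simp [sg]
lemma sg_sq {R : Type*} [Ring R] (u : ℤˣ) : (sg u * sg u : R) = 1 := by
  rw [← sg_mul]
  have : u * u = 1 := Int.units_mul_self u
  rw [this, sg_one]

lemma sum_units {R : Type*} [AddCommMonoid R] (g : ℤˣ → R) : ∑ u : ℤˣ, g u = g 1 + g (-1) := by
  rw [UnitsInt.univ]
  rw [Finset.sum_insert (by decide), Finset.sum_singleton]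

/-- the sum over all sign vectors of a product -/
lemma sum_prod {R : Type*} [CommRing R] {n : ℕ} (g : Fin n → ℤˣ → R) :
    ∑ ω : Fin n → ℤˣ, ∏ i, g i (ω i) = ∏ i, (g i 1 + g i (-1)) := by
  rw [← Fintype.piFinset_univ, ← Finset.prod_univ_sum]
  exact Finset.prod_congr rfl fun i _ => sum_units _

lemma sum_sg_prod {R : Type*} [CommRing R] {n : ℕ} (g : Fin n → ℤˣ → R) (j : Fin n) :
    ∑ ω : Fin n → ℤˣ, sg (ω j) * ∏ i, g i (ω i) =
      (g j 1 - g j (-1)) * ∏ i ∈ Finset.univ.erase j, (g i 1 + g i (-1)) := by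
  have h1 : ∀ ω : Fin n → ℤˣ, (sg (ω j) : R) * ∏ i, g i (ω i) =
      ∏ i, (if i = j then sg (ω i) * g i (ω i) else g i (ω i)) := by
    intro ω
    rw [← Finset.mul_prod_erase Finset.univ (fun i => g i (ω i)) (Finset.mem_univ j),
      ← Finset.mul_prod_erase Finset.univ (fun i => if i = j then sg (ω i) * g i (ω i) else
        g i (ω i)) (Finset.mem_univ j), if_pos rfl, mul_assoc]
    congr 2
    refine Finset.prod_congr rfl fun i hi => ?_
    rw [if_neg (Finset.ne_of_mem_erase hi)]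
  rw [Finset.sum_congr rfl fun ω _ => h1 ω,
    sum_prod (fun i u => if i = j then sg u * g i u else g i u),
    ← Finset.mul_prod_erase Finset.univ _ (Finset.mem_univ j)]
  congr 1
  · simp only [if_true, sg_one, sg_neg_one]
    ring
  · refine Finset.prod_congr rfl fun i hi => ?_
    rw [if_neg (Finset.ne_of_mem_erase hi), if_neg (Finset.ne_of_mem_erase hi)]

/-- the test function on sign vectors -/
noncomputable def hh (n : ℕ) (δ : Fin n → ℤˣ) : ℝ :=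
  (∏ j, (1 + ((sg (δ j) * (Real.sqrt n)⁻¹ : ℝ) : ℂ) * Complex.I)).im / Real.sqrt 3

lemma hh_le {n : ℕ} (hn : 0 < n) (δ : Fin n → ℤˣ) : |hh n δ| ≤ 1 := by
  have hn' : (0 : ℝ) < n := by exact_mod_cast hn
  have h3 : (0 : ℝ) < Real.sqrt 3 := Real.sqrt_pos.2 (by norm_num)
  rw [hh, abs_div, abs_of_pos h3, div_le_one h3]
  refine (Complex.abs_im_le_norm _).trans ?_
  apply Real.le_sqrt_of_sq_le
  rw [Complex.sq_norm, map_prod]
  have h1 : ∀ j : Fin n, Complex.normSq (1 + ((sg (δ j) * (Real.sqrt n)⁻¹ : ℝ) : ℂ) * Complex.I)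
      = 1 + (n : ℝ)⁻¹ := by
    intro j
    rw [Complex.normSq_apply]
    simp only [Complex.add_re, Complex.one_re, Complex.mul_re, Complex.ofReal_re, Complex.I_re,
      mul_zero, Complex.ofReal_im, Complex.I_im, mul_one, sub_self, add_zero, Complex.add_im,
      Complex.one_im, Complex.mul_im, zero_add]
    have h2 : (sg (δ j) * (Real.sqrt n)⁻¹ : ℝ) * (sg (δ j) * (Real.sqrt n)⁻¹) =
        (sg (δ j) * sg (δ j)) * ((Real.sqrt n) * (Real.sqrt n))⁻¹ := by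
      rw [mul_inv]; ring
    rw [h2, sg_sq, Real.mul_self_sqrt hn'.le, one_mul]
  rw [Finset.prod_congr rfl fun j _ => h1 j, Finset.prod_const, Finset.card_univ,
    Fintype.card_fin]
  have h2 : (1 + (n : ℝ)⁻¹) ^ n ≤ Real.exp 1 := by
    have h4 : 1 + (n : ℝ)⁻¹ ≤ Real.exp ((n : ℝ)⁻¹) := by
      have := Real.add_one_le_exp ((n : ℝ)⁻¹)
      linarith
    calc (1 + (n : ℝ)⁻¹) ^ n ≤ (Real.exp ((n : ℝ)⁻¹)) ^ n :=
          pow_le_pow_left₀ (by positivity) h4 n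
      _ = Real.exp 1 := by
        rw [← Real.exp_nat_mul, mul_inv_cancel₀ hn'.ne']
  have := Real.exp_one_lt_d9
  linarith

lemma hh_coeff {n : ℕ} (i : Fin n) :
    ∑ δ : Fin n → ℤˣ, sg (δ i) * hh n δ = 2 ^ n * ((Real.sqrt n)⁻¹ / Real.sqrt 3) := by
  have h1 : ∀ δ : Fin n → ℤˣ, sg (δ i) * hh n δ =
      ((sg (δ i) : ℂ) * ∏ j, (1 + ((sg (δ j) * (Real.sqrt n)⁻¹ : ℝ) : ℂ) * Complex.I)).im /
        Real.sqrt 3 := by
    intro δ
    have h2 : (sg (δ i) : ℂ) = ((sg (δ i) : ℝ) : ℂ) := by simp [sg]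
    rw [h2, Complex.im_ofReal_mul, hh]
    ring
  rw [Finset.sum_congr rfl fun δ _ => h1 δ, ← Finset.sum_div, ← Complex.im_sum,
    sum_sg_prod (fun (_ : Fin n) (u : ℤˣ) => 1 + ((sg u * (Real.sqrt n)⁻¹ : ℝ) : ℂ) * Complex.I) i]
  have h2 : ((1 : ℂ) + ((sg (1 : ℤˣ) * (Real.sqrt n)⁻¹ : ℝ) : ℂ) * Complex.I -
      (1 + ((sg (-1 : ℤˣ) * (Real.sqrt n)⁻¹ : ℝ) : ℂ) * Complex.I)) =
      ((2 * (Real.sqrt n)⁻¹ : ℝ) : ℂ) * Complex.I := by
    rw [sg_one, sg_neg_one]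
    push_cast
    ring
  have h3 : ((1 : ℂ) + ((sg (1 : ℤˣ) * (Real.sqrt n)⁻¹ : ℝ) : ℂ) * Complex.I +
      (1 + ((sg (-1 : ℤˣ) * (Real.sqrt n)⁻¹ : ℝ) : ℂ) * Complex.I)) = ((2 : ℝ) : ℂ) := by
    rw [sg_one, sg_neg_one]
    push_cast
    ring
  rw [h2, h3, Finset.prod_const, Finset.card_erase_of_mem (Finset.mem_univ i), Finset.card_univ,
    Fintype.card_fin, ← Complex.ofReal_pow, mul_assoc, mul_comm Complex.I, ← mul_assoc,
    ← Complex.ofReal_mul, Complex.im_ofReal_mul, Complex.I_im, mul_one]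
  obtain ⟨m, rfl⟩ : ∃ m, n = m + 1 := ⟨n - 1, by have := i.2; omega⟩
  rw [Nat.add_sub_cancel, pow_succ]
  ring

variable {K : Type*} [TopologicalSpace K] [CompactSpace K]

/-- the Riesz product -/
noncomputable def rz {n : ℕ} (f : Fin n → C(K, ℝ)) (ω : Fin n → ℤˣ) : C(K, ℝ) :=
  ∏ i, ((1 / 2 : ℝ) • (1 + sg (ω i) * f i))

lemma rz_sum {n : ℕ} (f : Fin n → C(K, ℝ)) : ∑ ω, rz f ω = 1 := by
  unfold rz
  rw [sum_prod (fun (i : Fin n) (u : ℤˣ) => ((1 / 2 : ℝ) • (1 + sg u * f i) : C(K, ℝ)))]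
  apply Finset.prod_eq_one
  intro i _
  rw [sg_one, sg_neg_one, ← smul_add]
  have : ((1 : C(K, ℝ)) + 1 * f i + (1 + -1 * f i)) = (2 : ℝ) • 1 := by
    rw [two_smul]; ring
  rw [this, smul_smul]
  norm_num

lemma rz_coeff {n : ℕ} (f : Fin n → C(K, ℝ)) (j : Fin n) : ∑ ω, sg (ω j) * rz f ω = f j := by
  unfold rz
  rw [sum_sg_prod (fun (i : Fin n) (u : ℤˣ) => ((1 / 2 : ℝ) • (1 + sg u * f i) : C(K, ℝ)))]
  have h1 : ∀ i, ((1 / 2 : ℝ) • (1 + sg (1 : ℤˣ) * f i) + (1 / 2 : ℝ) • (1 + sg (-1 : ℤˣ) * f i) :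
      C(K, ℝ)) = 1 := by
    intro i
    rw [sg_one, sg_neg_one, ← smul_add]
    have : ((1 : C(K, ℝ)) + 1 * f i + (1 + -1 * f i)) = (2 : ℝ) • 1 := by
      rw [two_smul]; ring
    rw [this, smul_smul]
    norm_num
  rw [Finset.prod_congr rfl fun i _ => h1 i, Finset.prod_const_one, mul_one, sg_one, sg_neg_one,
    ← smul_sub]
  have : ((1 : C(K, ℝ)) + 1 * f j - (1 + -1 * f j)) = (2 : ℝ) • f j := by
    rw [two_smul]; ring
  rw [this, smul_smul]
  norm_num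

lemma rz_nonneg {n : ℕ} {f : Fin n → C(K, ℝ)} (hf : ∀ i t, |f i t| ≤ 1) (ω : Fin n → ℤˣ) (t : K) :
    0 ≤ rz f ω t := by
  unfold rz
  rw [ContinuousMap.coe_prod, Finset.prod_apply]
  apply Finset.prod_nonneg
  intro i _
  have h1 := abs_le.1 (hf i t)
  rcases Int.units_eq_one_or (ω i) with h | h
  · rw [h, sg_one]
    simp only [ContinuousMap.coe_smul, ContinuousMap.coe_add, ContinuousMap.coe_one, one_mul,
      Pi.smul_apply, Pi.add_apply, Pi.one_apply, smul_eq_mul]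
    linarith
  · rw [h, sg_neg_one]
    simp only [ContinuousMap.coe_smul, ContinuousMap.coe_add, ContinuousMap.coe_one, neg_mul,
      one_mul, ContinuousMap.coe_neg, Pi.smul_apply, Pi.add_apply, Pi.one_apply, Pi.neg_apply,
      smul_eq_mul]
    linarith

/-- the main inequality -/
theorem key {n : ℕ} (hn : 0 < n) (f : Fin n → C(K, ℝ)) (μ : Fin n → (C(K, ℝ) →ₗ[ℝ] ℝ))
    {a b : ℝ} (ha : 0 < a) (hf : ∀ i t, |f i t| ≤ a) (hb : ∀ g : C(K, ℝ), (∀ t, |g t| ≤ 1) →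
      ∑ i, |μ i g| ≤ b) (hμ : ∀ i, μ i (f i) = 1) :
    Real.sqrt n / Real.sqrt 3 ≤ a * b := by
  have hn' : (0 : ℝ) < n := by exact_mod_cast hn
  -- normalise
  let f' : Fin n → C(K, ℝ) := fun i => a⁻¹ • f i
  have hf' : ∀ i t, |f' i t| ≤ 1 := by
    intro i t
    simp only [f', ContinuousMap.coe_smul, Pi.smul_apply, smul_eq_mul]
    rw [abs_mul, abs_of_pos (inv_pos.2 ha), inv_mul_le_iff₀ ha, mul_one]
    exact hf i t
  let G : (Fin n → ℤˣ) → C(K, ℝ) := fun δ => ∑ ω, hh n (δ * ω) • rz f' ω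
  have hG : ∀ δ t, |G δ t| ≤ 1 := by
    intro δ t
    simp only [G, ContinuousMap.coe_sum, Finset.sum_apply, ContinuousMap.coe_smul, Pi.smul_apply,
      smul_eq_mul]
    refine (Finset.abs_sum_le_sum_abs _ _).trans ?_
    have h1 : ∑ ω, rz f' ω t = 1 := by
      have := congrArg (fun g : C(K, ℝ) => g t) (rz_sum f')
      simpa using this
    rw [← h1]
    refine Finset.sum_le_sum fun ω _ => ?_
    rw [abs_mul, abs_of_nonneg (rz_nonneg hf' ω t)]
    exact mul_le_of_le_one_left (rz_nonneg hf' ω t) (hh_le hn _)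
  have h1 : ∀ δ, ∑ i, sg (δ i) * μ i (G δ) ≤ b := by
    intro δ
    refine le_trans (Finset.sum_le_sum fun i _ => ?_) (hb (G δ) (hG δ))
    refine (le_abs_self _).trans ?_
    rw [abs_mul]
    have : |(sg (δ i) : ℝ)| = 1 := by
      rcases Int.units_eq_one_or (δ i) with h | h
      · rw [h, sg_one, abs_one]
      · rw [h, sg_neg_one, abs_neg, abs_one]
    rw [this, one_mul]
  have h2 : ∑ δ : Fin n → ℤˣ, ∑ i, sg (δ i) * μ i (G δ) ≤ 2 ^ n * b := by
    refine (Finset.sum_le_sum fun δ _ => h1 δ).trans_eq ?_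
    rw [Finset.sum_const, Finset.card_univ, Fintype.card_fun, Fintype.card_units_int,
      Fintype.card_fin, nsmul_eq_mul]
    push_cast
    ring
  have h3 : ∀ i : Fin n, ∑ δ : Fin n → ℤˣ, sg (δ i) * μ i (G δ) =
      2 ^ n * ((Real.sqrt n)⁻¹ / Real.sqrt 3) * a⁻¹ := by
    intro i
    have h4 : ∀ δ : Fin n → ℤˣ, sg (δ i) * μ i (G δ) =
        ∑ ω, (sg (δ i) * hh n (δ * ω)) * μ i (rz f' ω) := by
      intro δ
      simp only [G, map_sum, map_smul, smul_eq_mul]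
      rw [Finset.mul_sum]
      exact Finset.sum_congr rfl fun ω _ => by ring
    rw [Finset.sum_congr rfl fun δ _ => h4 δ, Finset.sum_comm]
    have h5 : ∀ ω : Fin n → ℤˣ, ∑ δ : Fin n → ℤˣ, (sg (δ i) * hh n (δ * ω)) * μ i (rz f' ω) =
        (2 ^ n * ((Real.sqrt n)⁻¹ / Real.sqrt 3)) * μ i ((sg (ω i) : ℝ) • rz f' ω) := by
      intro ω
      rw [← Finset.sum_mul, map_smul, smul_eq_mul, ← hh_coeff i, ← mul_assoc]
      congr 1
      rw [Finset.sum_mul]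
      refine Fintype.sum_equiv (Equiv.mulRight ω) _ _ fun δ => ?_
      change (sg (δ i) * hh n (δ * ω) : ℝ) = sg (δ i * ω i) * hh n (δ * ω) * sg (ω i)
      rw [sg_mul]
      have := sg_sq (R := ℝ) (ω i)
      linear_combination (-(sg (δ i) : ℝ) * hh n (δ * ω)) * this
    rw [Finset.sum_congr rfl fun ω _ => h5 ω, ← Finset.mul_sum, ← map_sum]
    have h6 : ∑ ω, (sg (ω i) : ℝ) • rz f' ω = f' i := by
      rw [← rz_coeff f' i]
      refine Finset.sum_congr rfl fun ω _ => ?_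
      rcases Int.units_eq_one_or (ω i) with h | h
      · rw [h, sg_one, sg_one, one_smul, one_mul]
      · rw [h, sg_neg_one, sg_neg_one, neg_one_smul, neg_one_mul]
    rw [h6]
    simp only [f', map_smul, hμ, smul_eq_mul, mul_one]
  rw [Finset.sum_comm, Finset.sum_congr rfl fun i _ => h3 i, Finset.sum_const, Finset.card_univ,
    Fintype.card_fin, nsmul_eq_mul] at h2
  have h4 : (n : ℝ) * (2 ^ n * ((Real.sqrt n)⁻¹ / Real.sqrt 3) * a⁻¹) =
      2 ^ n * ((Real.sqrt n / Real.sqrt 3) * a⁻¹) := by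
    have h5 : (n : ℝ) * (Real.sqrt n)⁻¹ = Real.sqrt n := by
      rw [← div_eq_mul_inv, Real.div_sqrt]
    calc (n : ℝ) * (2 ^ n * ((Real.sqrt n)⁻¹ / Real.sqrt 3) * a⁻¹)
        = 2 ^ n * ((((n : ℝ) * (Real.sqrt n)⁻¹) / Real.sqrt 3) * a⁻¹) := by ring
      _ = _ := by rw [h5]
  rw [h4] at h2
  have h5 : Real.sqrt n / Real.sqrt 3 * a⁻¹ ≤ b := le_of_mul_le_mul_left h2 (by positivity)
  rw [← div_eq_mul_inv, div_le_iff₀ ha] at h5
  linarith

/-- the distance from `C(K)` to `l_1^n ⊕ F` -/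
theorem lower {F : Type*} [NormedAddCommGroup F] [NormedSpace ℝ F] {n : ℕ} (hn0 : 0 < n)
    (T : C(K, ℝ) ≃L[ℝ] (PiLp 1 (fun _ : Fin n => ℝ)) × F) :
    Real.sqrt n / Real.sqrt 3 ≤
      ‖(T : C(K, ℝ) →L[ℝ] (PiLp 1 (fun _ : Fin n => ℝ)) × F)‖ *
      ‖(T.symm : (PiLp 1 (fun _ : Fin n => ℝ)) × F →L[ℝ] C(K, ℝ))‖ := by
  set b := ‖(T : C(K, ℝ) →L[ℝ] (PiLp 1 (fun _ : Fin n => ℝ)) × F)‖ with hb
  set a := ‖(T.symm : (PiLp 1 (fun _ : Fin n => ℝ)) × F →L[ℝ] C(K, ℝ))‖ with ha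
  let w : Fin n → (PiLp 1 (fun _ : Fin n => ℝ)) × F := fun i => (PiLp.single 1 i (1 : ℝ), 0)
  have hw : ∀ i, ‖w i‖ ≤ 1 := by
    intro i
    simp only [w, Prod.norm_mk, norm_zero]
    rw [PiLp.norm_single]
    simp
  let f : Fin n → C(K, ℝ) := fun i => T.symm (w i)
  have hf : ∀ i x, |f i x| ≤ a := by
    intro i x
    refine (ContinuousMap.norm_coe_le_norm (f i) x).trans ?_
    refine ((T.symm : (PiLp 1 (fun _ : Fin n => ℝ)) × F →L[ℝ] C(K, ℝ)).le_opNorm (w i)).trans ?_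
    exact mul_le_of_le_one_right (norm_nonneg _) (hw i)
  let μ : Fin n → (C(K, ℝ) →ₗ[ℝ] ℝ) := fun i =>
    { toFun := fun g => (T g).1 i
      map_add' := fun g g' => by rw [map_add]; rfl
      map_smul' := fun c g => by rw [map_smul]; rfl }
  have hμ : ∀ i, μ i (f i) = 1 := by
    intro i
    change (T (T.symm (w i))).1 i = 1
    rw [ContinuousLinearEquiv.apply_symm_apply]
    simp [w]
  have hμb : ∀ g : C(K, ℝ), (∀ x, |g x| ≤ 1) → ∑ i, |μ i g| ≤ b := by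
    intro g hg
    have h1 : ‖g‖ ≤ 1 := (ContinuousMap.norm_le _ zero_le_one).2 hg
    have h2 : ∑ i, |μ i g| = ‖(T g).1‖ := by
      rw [PiLp.norm_eq_of_L1]
      rfl
    rw [h2]
    refine (norm_fst_le (T g)).trans ?_
    refine ((T : C(K, ℝ) →L[ℝ] (PiLp 1 (fun _ : Fin n => ℝ)) × F).le_opNorm g).trans ?_
    exact mul_le_of_le_one_right (norm_nonneg _) h1
  have ha0 : 0 < a := by
    rcases (norm_nonneg
      (T.symm : (PiLp 1 (fun _ : Fin n => ℝ)) × F →L[ℝ] C(K, ℝ))).eq_or_lt with h | h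
    · exfalso
      have h1 : f ⟨0, hn0⟩ = 0 := by
        ext x
        have h2 := hf ⟨0, hn0⟩ x
        rw [ha, ← h] at h2
        exact abs_nonpos_iff.1 h2
      have h3 := hμ ⟨0, hn0⟩
      rw [h1, map_zero] at h3
      exact zero_ne_one h3
    · exact h
  have h1 := key hn0 f μ ha0 hf hμb hμ
  exact h1.trans_eq (mul_comm _ _)

end Pool.Agent.H826R3.CKDiam
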