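import Mathlib

set_option autoImplicit false
set_option linter.unusedSectionVars false

/-!
No infinite-dimensional real Hilbert space has a point-finite covering by closed balls of positive
radius.
-/

namespace Pool.Agent.H826R3.HilbertCover

open Filter Topology Set
open scoped RealInnerProductSpace

variable {H : Type*} [NormedAddCommGroup H] [InnerProductSpace ℝ H]

/-- The power of the point `x` with respect to the ball with centre `p.1` and radius `p.2`. -/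
noncomputable def pw (p : H × ℝ) (x : H) : ℝ := p.2 ^ 2 - ‖x - p.1‖ ^ 2

lemma pw_add (p : H × ℝ) (x w : H) :
    pw p (x + w) = pw p x - 2 * ⟪x - p.1, w⟫ - ‖w‖ ^ 2 := by
  unfold pw
  have h : x + w - p.1 = (x - p.1) + w := by abel
  rw [h, norm_add_sq_real]
  ring

lemma pw_sub_pw (p : H × ℝ) (x z : H) :
    pw p x - pw p z = ‖z‖ ^ 2 - ‖x‖ ^ 2 + 2 * ⟪p.1, x - z⟫ := by
  unfold pw
  rw [norm_sub_sq_real, norm_sub_sq_real, inner_sub_right, real_inner_comm p.1 x,
    real_inner_comm p.1 z]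
  ring

lemma continuous_pw (p : H × ℝ) : Continuous (pw p) := by
  unfold pw
  fun_prop

lemma mem_ball_iff {p : H × ℝ} (hp : 0 < p.2) (x : H) :
    x ∈ Metric.closedBall p.1 p.2 ↔ 0 ≤ pw p x := by
  rw [Metric.mem_closedBall, dist_eq_norm, pw, sub_nonneg, sq_le_sq₀ (norm_nonneg _) hp.le]

/-- The data of a point-finite covering by balls. -/
structure Cov (S : Set (H × ℝ)) : Prop where
  pos : ∀ p ∈ S, 0 < p.2
  cov : ∀ x : H, ∃ p ∈ S, x ∈ Metric.closedBall p.1 p.2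
  fin : ∀ x : H, {p ∈ S | x ∈ Metric.closedBall p.1 p.2}.Finite

variable {S : Set (H × ℝ)}

lemma Cov.exists_max (hS : Cov S) (x : H) :
    ∃ p ∈ S, 0 ≤ pw p x ∧ ∀ q ∈ S, pw q x ≤ pw p x := by
  obtain ⟨p0, hp0, hx0⟩ := hS.cov x
  obtain ⟨p, hp, hmax⟩ := (hS.fin x).exists_maximalFor (fun q => pw q x) _ ⟨p0, hp0, hx0⟩
  have hpos : 0 ≤ pw p x := (mem_ball_iff (hS.pos p hp.1) x).1 hp.2
  refine ⟨p, hp.1, hpos, fun q hq => ?_⟩
  by_cases hqx : x ∈ Metric.closedBall q.1 q.2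
  · rcases le_total (pw q x) (pw p x) with h | h
    · exact h
    · exact hmax ⟨hq, hqx⟩ h
  · have := (mem_ball_iff (hS.pos q hq) x).not.1 hqx
    linarith

/-- a ball with maximal power at `x`. -/
noncomputable def Cov.m (hS : Cov S) (x : H) : H × ℝ := (hS.exists_max x).choose

/-- the maximal power at `x`. -/
noncomputable def Cov.g (hS : Cov S) (x : H) : ℝ := pw (hS.m x) x

lemma Cov.m_mem (hS : Cov S) (x : H) : hS.m x ∈ S := (hS.exists_max x).choose_spec.1

lemma Cov.pw_m (hS : Cov S) (x : H) : pw (hS.m x) x = hS.g x := rfl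

lemma Cov.g_nonneg (hS : Cov S) (x : H) : 0 ≤ hS.g x := (hS.exists_max x).choose_spec.2.1

lemma Cov.pw_le_g (hS : Cov S) (x : H) {q : H × ℝ} (hq : q ∈ S) : pw q x ≤ hS.g x :=
  (hS.exists_max x).choose_spec.2.2 q hq

/-- the affine function of a ball. -/
noncomputable def aff (p : H × ℝ) (x : H) : ℝ := p.2 ^ 2 - ‖p.1‖ ^ 2 + 2 * ⟪p.1, x⟫

lemma aff_eq (p : H × ℝ) (x : H) : aff p x = pw p x + ‖x‖ ^ 2 := by
  unfold aff pw
  rw [norm_sub_sq_real, real_inner_comm]
  ring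

lemma aff_comb (p : H × ℝ) (x y : H) {a b : ℝ} (hab : a + b = 1) :
    aff p (a • x + b • y) = a * aff p x + b * aff p y := by
  unfold aff
  rw [inner_add_right, real_inner_smul_right, real_inner_smul_right]
  have : b = 1 - a := by linarith
  subst this
  ring

/-- the convex function `g + |.|^2`. -/
noncomputable def Cov.h (hS : Cov S) (x : H) : ℝ := hS.g x + ‖x‖ ^ 2

lemma Cov.aff_le_h (hS : Cov S) (x : H) {q : H × ℝ} (hq : q ∈ S) : aff q x ≤ hS.h x := by
  rw [aff_eq, Cov.h]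
  have := hS.pw_le_g x hq
  linarith

lemma Cov.h_eq (hS : Cov S) (x : H) : hS.h x = aff (hS.m x) x := by
  rw [aff_eq, Cov.h, Cov.g]

lemma Cov.h_nonneg (hS : Cov S) (x : H) : 0 ≤ hS.h x := by
  have := hS.g_nonneg x
  unfold Cov.h
  positivity

lemma Cov.convexOn_h (hS : Cov S) : ConvexOn ℝ univ hS.h := by
  refine ⟨convex_univ, fun x _ y _ a b ha hb hab => ?_⟩
  rw [hS.h_eq (a • x + b • y), aff_comb _ _ _ hab]
  have h1 := hS.aff_le_h x (hS.m_mem (a • x + b • y))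
  have h2 := hS.aff_le_h y (hS.m_mem (a • x + b • y))
  simp only [smul_eq_mul]
  gcongr

lemma continuous_aff (p : H × ℝ) : Continuous (aff p) := by
  unfold aff
  fun_prop

variable [CompleteSpace H]

lemma Cov.bdd_h (hS : Cov S) (x : H) :
    ∃ δ > 0, ∃ M : ℝ, ∀ z, dist z x < δ → hS.h z ≤ M := by
  have hcl : ∀ n : ℕ, IsClosed {z : H | hS.h z ≤ n} := by
    intro n
    have : {z : H | hS.h z ≤ n} = ⋂ q ∈ S, {z : H | aff q z ≤ n} := by
      ext z
      simp only [mem_ofPred_eq, mem_iInter]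
      constructor
      · intro hz q hq
        exact (hS.aff_le_h z hq).trans hz
      · intro hz
        rw [hS.h_eq]
        exact hz _ (hS.m_mem z)
    rw [this]
    exact isClosed_biInter fun q _ => isClosed_le (continuous_aff q) continuous_const
  have hU : (⋃ n : ℕ, {z : H | hS.h z ≤ n}) = univ := by
    refine eq_univ_of_forall fun z => ?_
    obtain ⟨n, hn⟩ := exists_nat_ge (hS.h z)
    exact mem_iUnion.2 ⟨n, hn⟩
  obtain ⟨n, x0, hx0⟩ := nonempty_interior_of_iUnion_of_closed hcl hU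
  have hb : (𝓝 x0).IsBoundedUnder (· ≤ ·) hS.h := by
    refine ⟨n, ?_⟩
    simp only [eventually_map]
    exact (isOpen_interior.mem_nhds hx0 |> fun h => Filter.mem_of_superset h (fun z hz => interior_subset hz))
  have ht := (hS.convexOn_h.continuousOn_tfae isOpen_univ univ_nonempty).out 3 4
  have h5 := ht.1 ⟨x0, mem_univ _, hb⟩ (mem_univ x)
  obtain ⟨M, hM⟩ := h5
  simp only [eventually_map] at hM
  obtain ⟨δ, hδ, hball⟩ := Metric.eventually_nhds_iff.1 hM
  exact ⟨δ, hδ, M, fun z hz => hball hz⟩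

lemma Cov.continuous_h (hS : Cov S) : Continuous hS.h := by
  have ht := (hS.convexOn_h.continuousOn_tfae isOpen_univ univ_nonempty).out 1 3
  rw [← continuousOn_univ]
  refine ht.2 ?_
  obtain ⟨δ, hδ, M, hM⟩ := hS.bdd_h 0
  refine ⟨0, mem_univ _, M, ?_⟩
  simp only [eventually_map]
  exact Metric.eventually_nhds_iff.2 ⟨δ, hδ, fun z hz => hM z hz⟩

lemma Cov.continuous_g (hS : Cov S) : Continuous hS.g := by
  have : hS.g = fun x => hS.h x - ‖x‖ ^ 2 := by
    funext x; simp [Cov.h]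
  rw [this]
  have := hS.continuous_h
  fun_prop

/-- centres of active balls are locally bounded. -/
lemma Cov.center_bdd (hS : Cov S) (x : H) :
    ∃ δ > 0, ∃ M : ℝ, ∀ z, dist z x < δ → ∀ p ∈ S, pw p z = hS.g z → ‖p.1‖ ≤ M := by
  obtain ⟨δ, hδ, M, hM⟩ := hS.bdd_h x
  refine ⟨δ / 2, by positivity, M / δ, fun z hz p hp hpz => ?_⟩
  by_cases h0 : p.1 = 0
  · rw [h0, norm_zero]
    have : 0 ≤ M := (hS.h_nonneg x).trans (hM x (by simpa using hδ))
    positivity
  have hn : 0 < ‖p.1‖ := norm_pos_iff.2 h0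
  set v : H := (δ / 2 * ‖p.1‖⁻¹) • p.1 with hv
  have hvn : ‖v‖ = δ / 2 := by
    rw [hv, norm_smul, Real.norm_eq_abs, abs_of_pos (by positivity)]
    field_simp
  have h1 : hS.h (z + v) ≤ M := by
    apply hM
    calc dist (z + v) x ≤ dist (z + v) z + dist z x := dist_triangle _ _ _
      _ < δ / 2 + δ / 2 := by
          have : dist (z + v) z = δ / 2 := by rw [dist_eq_norm, add_sub_cancel_left, hvn]
          rw [this]
          linarith
      _ = δ := by ring
  have h2 := hS.aff_le_h (z + v) hp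
  have h3 : aff p (z + v) = aff p z + 2 * ⟪p.1, v⟫ := by
    unfold aff
    rw [inner_add_right]; ring
  have h4 : aff p z = hS.h z := by rw [aff_eq, hpz, Cov.h]
  have h5 : ⟪p.1, v⟫ = δ / 2 * ‖p.1‖ := by
    rw [hv, real_inner_smul_right, real_inner_self_eq_norm_sq]
    field_simp
  have h6 := hS.h_nonneg z
  rw [le_div_iff₀ hδ]
  nlinarith

/-- weak limits along ultrafilters. -/
lemma exists_weak_limit {ι : Type*} (U : Ultrafilter ι) (c : ι → H) (M : ℝ)
    (hc : ∀ᶠ i in (U : Filter ι), ‖c i‖ ≤ M) :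
    ∃ c0 : H, ∀ v : H, Tendsto (fun i => ⟪c i, v⟫) U (𝓝 ⟪c0, v⟫) := by
  have hcomp := WeakDual.isCompact_closedBall (𝕜 := ℝ) (E := H) 0 M
  let φ : ι → WeakDual ℝ H := fun i => StrongDual.toWeakDual (InnerProductSpace.toDual ℝ H (c i))
  have hmem : ∀ᶠ i in (U : Filter ι),
      φ i ∈ (WeakDual.toStrongDual ⁻¹' Metric.closedBall (0 : StrongDual ℝ H) M) := by
    filter_upwards [hc] with i hi
    simp only [mem_preimage, Metric.mem_closedBall, dist_zero_right, φ]
    have : ‖(InnerProductSpace.toDual ℝ H) (c i)‖ = ‖c i‖ := LinearIsometryEquiv.norm_map _ _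
    simpa [this] using hi
  obtain ⟨ψ, _, hψ⟩ := hcomp.ultrafilter_le_nhds (U.map φ) (by
    rw [le_principal_iff]
    exact hmem)
  refine ⟨(InnerProductSpace.toDual ℝ H).symm (WeakDual.toStrongDual ψ), fun v => ?_⟩
  rw [InnerProductSpace.toDual_symm_apply]
  have hT : Tendsto φ U (𝓝 ψ) := hψ
  have := ((WeakDual.eval_continuous v).tendsto ψ).comp hT
  refine this.congr fun i => ?_
  simp [φ]

/-- The key compactness lemma. -/
lemma Cov.weak_lemma (hS : Cov S) {ι : Type*} (U : Ultrafilter ι) (p : ι → H × ℝ) (z : ι → H)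
    (x : H) (M γ : ℝ) (hp : ∀ᶠ i in (U : Filter ι), p i ∈ S)
    (hne : ∀ q, ∀ᶠ i in (U : Filter ι), p i ≠ q)
    (hz : Tendsto z U (𝓝 x)) (hM : ∀ᶠ i in (U : Filter ι), ‖(p i).1‖ ≤ M)
    (hγ : Tendsto (fun i => pw (p i) (z i)) U (𝓝 γ)) (hγ0 : 0 ≤ γ) :
    γ = 0 ∧ (∀ v : H, Tendsto (fun i => ⟪(p i).1, v⟫) U (𝓝 ⟪x, v⟫)) ∧
      Tendsto (fun i => pw (p i) x) U (𝓝 0) := by
  obtain ⟨c, hc⟩ := exists_weak_limit U (fun i => (p i).1) M hM
  -- the power of `c`
  have hzero : Tendsto (fun i => ⟪(p i).1, z i - x⟫) U (𝓝 0) := by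
    have h1 : Tendsto (fun i => M * ‖z i - x‖) U (𝓝 (M * 0)) := by
      have : Tendsto (fun i => ‖z i - x‖) U (𝓝 0) := by
        have := tendsto_iff_norm_sub_tendsto_zero.1 hz
        exact this
      exact this.const_mul M
    rw [mul_zero] at h1
    refine squeeze_zero_norm' ?_ h1
    filter_upwards [hM] with i hi
    calc ‖⟪(p i).1, z i - x⟫‖ ≤ ‖(p i).1‖ * ‖z i - x‖ := norm_inner_le_norm _ _
      _ ≤ M * ‖z i - x‖ := by gcongr
  have hlim : Tendsto (fun i => pw (p i) c) U (𝓝 (γ + ‖x - c‖ ^ 2)) := by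
    have heq : ∀ i, pw (p i) c = pw (p i) (z i) + (‖z i‖ ^ 2 - ‖c‖ ^ 2 +
        2 * (⟪(p i).1, c - x⟫ - ⟪(p i).1, z i - x⟫)) := by
      intro i
      have h1 := pw_sub_pw (p i) c (z i)
      have h2 : c - z i = (c - x) - (z i - x) := by abel
      rw [h2, inner_sub_right] at h1
      linarith
    have h3 : Tendsto (fun i => pw (p i) (z i) + (‖z i‖ ^ 2 - ‖c‖ ^ 2 +
        2 * (⟪(p i).1, c - x⟫ - ⟪(p i).1, z i - x⟫))) U
        (𝓝 (γ + (‖x‖ ^ 2 - ‖c‖ ^ 2 + 2 * (⟪c, c - x⟫ - 0)))) := by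
      refine hγ.add ?_
      refine Tendsto.add ?_ ?_
      · exact ((hz.norm).pow 2).sub_const _
      · exact ((hc (c - x)).sub hzero).const_mul 2
    have h4 : γ + ‖x - c‖ ^ 2 = γ + (‖x‖ ^ 2 - ‖c‖ ^ 2 + 2 * (⟪c, c - x⟫ - 0)) := by
      rw [norm_sub_sq_real, inner_sub_right, real_inner_self_eq_norm_sq, real_inner_comm]
      ring
    rw [h4]
    exact h3.congr fun i => (heq i).symm
  have hle : γ + ‖x - c‖ ^ 2 ≤ 0 := by
    by_contra hcon
    push Not at hcon
    have hev : ∀ᶠ i in (U : Filter ι), 0 < pw (p i) c := hlim.eventually (lt_mem_nhds hcon)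
    have hfin := hS.fin c
    have hall : ∀ᶠ i in (U : Filter ι), ∀ q ∈ {q ∈ S | c ∈ Metric.closedBall q.1 q.2}, p i ≠ q :=
      (Filter.eventually_all_finite hfin).2 fun q _ => hne q
    obtain ⟨i, ⟨h1, h2⟩, h3⟩ := ((hev.and hp).and hall).exists
    exact h3 (p i) ⟨h2, (mem_ball_iff (hS.pos _ h2) c).2 h1.le⟩ rfl
  have hsq : 0 ≤ ‖x - c‖ ^ 2 := by positivity
  have hγz : γ = 0 := by linarith
  have hxc : x = c := by
    have : ‖x - c‖ ^ 2 = 0 := by linarith
    have : ‖x - c‖ = 0 := by simpa using this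
    exact sub_eq_zero.1 (norm_eq_zero.1 this)
  refine ⟨hγz, ?_, ?_⟩
  · rw [hxc]
    exact hc
  · rw [hxc, sub_self, norm_zero, hγz] at hlim
    rw [hxc]
    simpa using hlim

/-- Balls active near a point of positive power are active at that point. -/
lemma Cov.local_active (hS : Cov S) (x : H) (hx : 0 < hS.g x) :
    ∃ δ > 0, ∀ z, dist z x < δ → ∀ p ∈ S, pw p z = hS.g z → pw p x = hS.g x := by
  by_contra hcon
  push Not at hcon
  let T : Set ((H × ℝ) × H) := {t | t.1 ∈ S ∧ pw t.1 t.2 = hS.g t.2 ∧ pw t.1 x ≠ hS.g x}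
  let F : Filter ((H × ℝ) × H) := comap Prod.snd (𝓝 x) ⊓ 𝓟 T
  have hF : F.NeBot := by
    rw [Filter.inf_principal_neBot_iff]
    intro A hA
    obtain ⟨B, hB, hBA⟩ := hA
    obtain ⟨δ, hδ, hball⟩ := Metric.mem_nhds_iff.1 hB
    obtain ⟨z, hz, p, hp, h1, h2⟩ := hcon δ hδ
    exact ⟨(p, z), hBA (hball hz), hp, h1, h2⟩
  let U : Ultrafilter ((H × ℝ) × H) := Ultrafilter.of F
  have hUF : (U : Filter _) ≤ F := Ultrafilter.of_le F
  have hz : Tendsto (fun t : (H × ℝ) × H => t.2) U (𝓝 x) :=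
    tendsto_iff_comap.2 (hUF.trans inf_le_left)
  have hT : ∀ᶠ t in (U : Filter _), t ∈ T := (hUF.trans inf_le_right) (mem_principal_self T)
  obtain ⟨δ, hδ, M, hM⟩ := hS.center_bdd x
  have hg : Tendsto (fun t : (H × ℝ) × H => hS.g t.2) U (𝓝 (hS.g x)) :=
    (hS.continuous_g.tendsto x).comp hz
  have hne : ∀ q, ∀ᶠ t in (U : Filter ((H × ℝ) × H)), t.1 ≠ q := by
    intro q
    by_contra hq
    rw [← Ultrafilter.eventually_not] at hq
    simp only [ne_eq, not_not] at hq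
    have h1 : Tendsto (fun t : (H × ℝ) × H => pw q t.2) U (𝓝 (pw q x)) :=
      ((continuous_pw q).tendsto x).comp hz
    have h2 : Tendsto (fun t : (H × ℝ) × H => pw q t.2) U (𝓝 (hS.g x)) := by
      refine hg.congr' ?_
      filter_upwards [hq, hT] with t h3 h4
      rw [← h3]
      exact h4.2.1.symm
    have h3 := tendsto_nhds_unique h1 h2
    obtain ⟨t, h4, h5⟩ := (hq.and hT).exists
    apply h5.2.2
    rw [h4]
    exact h3
  have := (hS.weak_lemma U (fun t => t.1) (fun t => t.2) x M (hS.g x)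
    (hT.mono fun t ht => ht.1) hne hz
    (by
      have : ∀ᶠ t in (U : Filter ((H × ℝ) × H)), dist t.2 x < δ :=
        hz.eventually (Metric.ball_mem_nhds x hδ)
      filter_upwards [this, hT] with t h1 h2
      exact hM t.2 h1 t.1 h2.1 h2.2.1)
    (by
      refine hg.congr' ?_
      filter_upwards [hT] with t ht
      exact ht.2.1.symm) hx.le).1
  exact hx.ne' this

lemma exists_unit_orth (hinf : ¬ FiniteDimensional ℝ H) (Z : Submodule ℝ H)
    [FiniteDimensional ℝ Z] : ∃ e : H, ‖e‖ = 1 ∧ ∀ z ∈ Z, ⟪z, e⟫ = 0 := by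
  have hne : Zᗮ ≠ ⊥ := by
    intro h
    rw [Submodule.orthogonal_eq_bot_iff] at h
    apply hinf
    subst h
    exact (Submodule.topEquiv (R := ℝ) (M := H)).finiteDimensional
  obtain ⟨v, hv, hv0⟩ := Submodule.exists_mem_ne_zero_of_ne_bot hne
  refine ⟨‖v‖⁻¹ • v, ?_, fun z hz => ?_⟩
  · rw [norm_smul, norm_inv, norm_norm]
    exact inv_mul_cancel₀ (norm_ne_zero_iff.2 hv0)
  · rw [real_inner_smul_right, (Submodule.mem_orthogonal Z v).1 hv z hz, mul_zero]

/-- active set -/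
def Cov.Act (hS : Cov S) (x : H) : Set (H × ℝ) := {p ∈ S | pw p x = hS.g x}

lemma Cov.Act_finite (hS : Cov S) (x : H) : (hS.Act x).Finite := by
  refine (hS.fin x).subset fun p hp => ⟨hp.1, ?_⟩
  rw [mem_ball_iff (hS.pos p hp.1), hp.2]
  exact hS.g_nonneg x

lemma Cov.m_mem_Act (hS : Cov S) (x : H) : hS.m x ∈ hS.Act x := ⟨hS.m_mem x, rfl⟩

lemma Cov.extend (hS : Cov S) (hinf : ¬ FiniteDimensional ℝ H) (x : H) (hx : 0 < hS.g x) :
    ∃ δ > 0, ∀ (Z : Submodule ℝ H) [FiniteDimensional ℝ Z],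
      ∃ w : H, (∀ z ∈ Z, ⟪z, w⟫ = 0) ∧ ‖w‖ = δ ∧ hS.g (x + w) = hS.g x - ‖w‖ ^ 2 := by
  obtain ⟨δ, hδ, hloc⟩ := hS.local_active x hx
  refine ⟨δ / 2, by positivity, fun Z _ => ?_⟩
  have hfin := (hS.Act_finite x).image (fun p : H × ℝ => x - p.1)
  haveI : FiniteDimensional ℝ (Submodule.span ℝ ((fun p : H × ℝ => x - p.1) '' hS.Act x)) :=
    FiniteDimensional.span_of_finite ℝ hfin
  obtain ⟨e, he, horth⟩ := exists_unit_orth hinf
    (Z ⊔ Submodule.span ℝ ((fun p : H × ℝ => x - p.1) '' hS.Act x))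
  refine ⟨(δ / 2) • e, fun z hz => ?_, ?_, ?_⟩
  · rw [real_inner_smul_right, horth z (Submodule.mem_sup_left hz), mul_zero]
  · rw [norm_smul, he, mul_one, Real.norm_eq_abs, abs_of_pos (by positivity)]
  · have hnorm : ‖(δ / 2) • e‖ = δ / 2 := by
      rw [norm_smul, he, mul_one, Real.norm_eq_abs, abs_of_pos (by positivity)]
    have hd : dist (x + (δ / 2) • e) x < δ := by
      rw [dist_eq_norm, add_sub_cancel_left, hnorm]; linarith
    have h1 := hloc _ hd _ (hS.m_mem (x + (δ / 2) • e)) (hS.pw_m _)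
    rw [← hS.pw_m (x + (δ / 2) • e), pw_add, h1, real_inner_smul_right,
      horth _ (Submodule.mem_sup_right (Submodule.subset_span
        ⟨_, ⟨hS.m_mem (x + (δ / 2) • e), h1⟩, rfl⟩))]
    ring

end Pool.Agent.H826R3.HilbertCover
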