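import Pool.Agent.H826R3.HilbertCover

set_option autoImplicit false
set_option linter.unusedSectionVars false

namespace Pool.Agent.H826R3.HilbertCover

open Filter Topology Set
open scoped RealInnerProductSpace

variable {H : Type*} [NormedAddCommGroup H] [InnerProductSpace ℝ H] [CompleteSpace H]
variable {S : Set (H × ℝ)}

/-- state of the descent -/
structure Cov.St (hS : Cov S) (x : H) (Z : Submodule ℝ H) where
  u : H
  E : Submodule ℝ H
  fd : FiniteDimensional ℝ E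
  hu : u ∈ E
  huZ : ∀ z ∈ Z, ⟪z, u⟫ = 0
  hZ : Z ≤ E
  hT : hS.g (x + u) = hS.g x - ‖u‖ ^ 2

lemma Cov.St.norm_sq_le {hS : Cov S} {x : H} {Z : Submodule ℝ H} (s : hS.St x Z) :
    ‖s.u‖ ^ 2 ≤ hS.g x := by
  have := hS.g_nonneg (x + s.u)
  have h := s.hT
  linarith

lemma Cov.St.step {hS : Cov S} {x : H} {Z : Submodule ℝ H} (s : hS.St x Z) :
    ∃ w : H, (∀ z ∈ s.E, ⟪z, w⟫ = 0) ∧ hS.g (x + (s.u + w)) = hS.g x - ‖s.u + w‖ ^ 2 ∧
      ∀ w' : H, (∀ z ∈ s.E, ⟪z, w'⟫ = 0) →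
        hS.g (x + (s.u + w')) = hS.g x - ‖s.u + w'‖ ^ 2 → ‖w'‖ ≤ 2 * ‖w‖ := by
  let A : Set ℝ := {r | ∃ w : H, (∀ z ∈ s.E, ⟪z, w⟫ = 0) ∧
    hS.g (x + (s.u + w)) = hS.g x - ‖s.u + w‖ ^ 2 ∧ ‖w‖ = r}
  have h0 : (0 : ℝ) ∈ A := ⟨0, by simp, by simpa using s.hT, by simp⟩
  have hbdd : BddAbove A := by
    refine ⟨Real.sqrt (hS.g x), ?_⟩
    rintro r ⟨w, hw, hT, rfl⟩
    apply Real.le_sqrt_of_sq_le
    have h1 := hS.g_nonneg (x + (s.u + w))
    have h2 : ‖s.u + w‖ ^ 2 = ‖s.u‖ ^ 2 + ‖w‖ ^ 2 := by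
      rw [norm_add_sq_real, hw _ s.hu]; ring
    have h3 : 0 ≤ ‖s.u‖ ^ 2 := by positivity
    linarith
  have hsup : 0 ≤ sSup A := le_csSup hbdd h0
  rcases hsup.eq_or_lt with h | h
  · refine ⟨0, by simp, by simpa using s.hT, fun w' h1 h2 => ?_⟩
    have : ‖w'‖ ≤ sSup A := le_csSup hbdd ⟨w', h1, h2, rfl⟩
    simp only [norm_zero, mul_zero]
    rw [← h] at this
    exact this
  · obtain ⟨r, ⟨w, h1, h2, h3⟩, hr⟩ := exists_lt_of_lt_csSup ⟨0, h0⟩ (half_lt_self h)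
    refine ⟨w, h1, h2, fun w' h4 h5 => ?_⟩
    have : ‖w'‖ ≤ sSup A := le_csSup hbdd ⟨w', h4, h5, rfl⟩
    rw [h3]
    linarith

/-- next state -/
noncomputable def Cov.St.next {hS : Cov S} {x : H} {Z : Submodule ℝ H} (s : hS.St x Z) :
    hS.St x Z where
  u := s.u + s.step.choose
  E := s.E ⊔ Submodule.span ℝ {s.step.choose}
  fd := by
    have := s.fd
    infer_instance
  hu := Submodule.add_mem _ (Submodule.mem_sup_left s.hu)
    (Submodule.mem_sup_right (Submodule.mem_span_singleton_self _))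
  huZ := fun z hz => by
    rw [inner_add_right, s.huZ z hz, s.step.choose_spec.1 z (s.hZ hz), add_zero]
  hZ := s.hZ.trans le_sup_left
  hT := s.step.choose_spec.2.1

/-- iterated states -/
noncomputable def Cov.St.seq {hS : Cov S} {x : H} {Z : Submodule ℝ H} (s : hS.St x Z) :
    ℕ → hS.St x Z
  | 0 => s
  | n + 1 => (Cov.St.seq s n).next

lemma Cov.reach (hS : Cov S) (hinf : ¬ FiniteDimensional ℝ H) (x : H) (Z : Submodule ℝ H)
    [hfd : FiniteDimensional ℝ Z] :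
    ∃ u : H, (∀ z ∈ Z, ⟪z, u⟫ = 0) ∧ ‖u‖ ^ 2 = hS.g x ∧ hS.g (x + u) = 0 := by
  let s0 : hS.St x Z := ⟨0, Z, hfd, Z.zero_mem, by simp, le_rfl, by simp⟩
  let s : ℕ → hS.St x Z := Cov.St.seq s0
  let u : ℕ → H := fun n => (s n).u
  let w : ℕ → H := fun n => (s n).step.choose
  have hu1 : ∀ n, u (n + 1) = u n + w n := fun n => rfl
  have hE1 : ∀ n, (s (n + 1)).E = (s n).E ⊔ Submodule.span ℝ {w n} := fun n => rfl
  have hEmono : Monotone fun n => (s n).E := by
    refine monotone_nat_of_le_succ fun n => ?_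
    rw [hE1]
    exact le_sup_left
  have hworth : ∀ n, ∀ z ∈ (s n).E, ⟪z, w n⟫ = 0 := fun n => (s n).step.choose_spec.1
  have hwmax : ∀ n, ∀ w' : H, (∀ z ∈ (s n).E, ⟪z, w'⟫ = 0) →
      hS.g (x + (u n + w')) = hS.g x - ‖u n + w'‖ ^ 2 → ‖w'‖ ≤ 2 * ‖w n‖ :=
    fun n => (s n).step.choose_spec.2.2
  -- orthogonality of later increments
  have hdiff : ∀ n m, n ≤ m → ∀ z ∈ (s n).E, ⟪z, u m - u n⟫ = 0 := by
    intro n m hnm
    induction m, hnm using Nat.le_induction with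
    | base => intro z _; simp
    | succ m hm ih =>
      intro z hz
      have : u (m + 1) - u n = (u m - u n) + w m := by rw [hu1]; abel
      rw [this, inner_add_right, ih z hz, hworth m z (hEmono hm hz), add_zero]
  have hsq : ∀ n m, n ≤ m → ‖u m‖ ^ 2 = ‖u n‖ ^ 2 + ‖u m - u n‖ ^ 2 := by
    intro n m hnm
    have h1 : u m = u n + (u m - u n) := by abel
    conv_lhs => rw [h1]
    rw [norm_add_sq_real, hdiff n m hnm _ (s n).hu]
    ring
  have hmono : Monotone fun n => ‖u n‖ ^ 2 := by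
    intro n m hnm
    have := hsq n m hnm
    have h2 : 0 ≤ ‖u m - u n‖ ^ 2 := by positivity
    show ‖u n‖ ^ 2 ≤ ‖u m‖ ^ 2
    linarith
  have hbdd : BddAbove (range fun n => ‖u n‖ ^ 2) := by
    refine ⟨hS.g x, ?_⟩
    rintro _ ⟨n, rfl⟩
    exact (s n).norm_sq_le
  have hconv := tendsto_atTop_ciSup hmono hbdd
  have hcauchy : CauchySeq u := by
    rw [Metric.cauchySeq_iff']
    intro ε hε
    have hc2 := hconv.cauchySeq
    rw [Metric.cauchySeq_iff'] at hc2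
    obtain ⟨N, hN⟩ := hc2 (ε ^ 2) (by positivity)
    refine ⟨N, fun n hn => ?_⟩
    have h1 := hN n hn
    rw [Real.dist_eq, hsq N n hn, add_sub_cancel_left, abs_of_nonneg (by positivity)] at h1
    rw [dist_eq_norm]
    exact lt_of_pow_lt_pow_left₀ 2 hε.le h1
  obtain ⟨v, hv⟩ := cauchySeq_tendsto_of_complete hcauchy
  have hw0 : Tendsto (fun n => ‖w n‖) atTop (𝓝 0) := by
    have h1 : Tendsto (fun n => u (n + 1) - u n) atTop (𝓝 (v - v)) :=
      (hv.comp (tendsto_add_atTop_nat 1)).sub hv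
    rw [sub_self] at h1
    have h2 := h1.norm
    rw [norm_zero] at h2
    refine h2.congr fun n => ?_
    rw [hu1, add_sub_cancel_left]
  have hTv : hS.g (x + v) = hS.g x - ‖v‖ ^ 2 := by
    have h1 : Tendsto (fun n => hS.g (x + u n)) atTop (𝓝 (hS.g (x + v))) :=
      (hS.continuous_g.tendsto _).comp (hv.const_add x)
    have h2 : Tendsto (fun n => hS.g (x + u n)) atTop (𝓝 (hS.g x - ‖v‖ ^ 2)) := by
      have h3 : Tendsto (fun n => hS.g x - ‖u n‖ ^ 2) atTop (𝓝 (hS.g x - ‖v‖ ^ 2)) :=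
        ((hv.norm).pow 2).const_sub _
      exact h3.congr fun n => ((s n).hT).symm
    exact tendsto_nhds_unique h1 h2
  have hvdiff : ∀ n, ∀ z ∈ (s n).E, ⟪z, v - u n⟫ = 0 := by
    intro n z hz
    have h1 : Tendsto (fun m => ⟪z, u m - u n⟫) atTop (𝓝 ⟪z, v - u n⟫) :=
      Tendsto.inner tendsto_const_nhds (hv.sub_const _)
    have h2 : Tendsto (fun m => ⟪z, u m - u n⟫) atTop (𝓝 0) := by
      refine tendsto_const_nhds.congr' ?_
      filter_upwards [eventually_ge_atTop n] with m hm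
      exact (hdiff n m hm z hz).symm
    exact tendsto_nhds_unique h1 h2
  have hg0 : hS.g (x + v) = 0 := by
    by_contra hne
    have hpos : 0 < hS.g (x + v) := lt_of_le_of_ne (hS.g_nonneg _) (Ne.symm hne)
    obtain ⟨δ, hδ, hext⟩ := hS.extend hinf (x + v) hpos
    have hge : ∀ n, δ ≤ 2 * ‖w n‖ := by
      intro n
      have := (s n).fd
      obtain ⟨w1, h1, h2, h3⟩ := hext ((s n).E ⊔ Submodule.span ℝ {v})
      have hv1 : ⟪v, w1⟫ = 0 :=
        h1 v (Submodule.mem_sup_right (Submodule.mem_span_singleton_self _))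
      have hu2 : ⟪u n, w1⟫ = 0 := h1 (u n) (Submodule.mem_sup_left (s n).hu)
      have h4 : ‖(v - u n) + w1‖ ≤ 2 * ‖w n‖ := by
        apply hwmax n
        · intro z hz
          rw [inner_add_right, hvdiff n z hz, h1 z (Submodule.mem_sup_left hz), add_zero]
        · have h5 : u n + ((v - u n) + w1) = v + w1 := by abel
          rw [h5, ← add_assoc, h3, hTv, norm_add_sq_real, hv1]
          ring
      have h6 : ‖w1‖ ^ 2 ≤ ‖(v - u n) + w1‖ ^ 2 := by
        rw [norm_add_sq_real, inner_sub_left, hv1, hu2]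
        have : 0 ≤ ‖v - u n‖ ^ 2 := by positivity
        linarith
      have h7 : ‖w1‖ ≤ ‖(v - u n) + w1‖ := le_of_sq_le_sq h6 (norm_nonneg _)
      rw [← h2]
      exact h7.trans h4
    have h8 : Tendsto (fun n => 2 * ‖w n‖) atTop (𝓝 (2 * 0)) := hw0.const_mul 2
    rw [mul_zero] at h8
    have h9 := ge_of_tendsto h8 (Eventually.of_forall hge)
    linarith
  refine ⟨v, fun z hz => ?_, ?_, hg0⟩
  · have := hvdiff 0 z ((s 0).hZ hz)
    have h0 : u 0 = 0 := rfl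
    rwa [h0, sub_zero] at this
  · rw [hg0] at hTv
    linarith

end Pool.Agent.H826R3.HilbertCover
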