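import Pool.Agent.H826R3.HilbertCover2

set_option autoImplicit false
set_option linter.unusedSectionVars false

namespace Pool.Agent.H826R3.HilbertCover

open Filter Topology Set
open scoped RealInnerProductSpace

variable {H : Type*} [NormedAddCommGroup H] [InnerProductSpace ℝ H] [CompleteSpace H]
variable {S : Set (H × ℝ)}

/-- Baire: near some contact point, contact points lying on balls of radius `≥ η` are dense. -/
lemma Cov.baire (hS : Cov S) (hinf : ¬ FiniteDimensional ℝ H) :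
    ∃ η > 0, ∃ p0 : H, hS.g p0 = 0 ∧ ∃ ρ > 0, ∀ y, hS.g y = 0 → dist y p0 < ρ →
      ∀ ε > 0, ∃ y', hS.g y' = 0 ∧ dist y' y < ε ∧
        ∃ q ∈ S, η ≤ q.2 ∧ y' ∈ Metric.closedBall q.1 q.2 := by
  let K : Set H := {y | hS.g y = 0}
  have hKc : IsClosed K := isClosed_eq hS.continuous_g continuous_const
  haveI : CompleteSpace K := hKc.completeSpace_coe
  obtain ⟨u, -, -, hu⟩ := hS.reach hinf (0 : H) ⊥
  haveI : Nonempty K := ⟨⟨0 + u, hu⟩⟩
  let f : ℕ → Set K := fun n => closure {y : K | ∃ q ∈ S, 1 / ((n : ℝ) + 1) ≤ q.2 ∧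
    (y : H) ∈ Metric.closedBall q.1 q.2}
  have hU : (⋃ n, f n) = univ := by
    refine eq_univ_of_forall fun y => ?_
    obtain ⟨q, hq, hy⟩ := hS.cov (y : H)
    obtain ⟨n, hn⟩ := exists_nat_one_div_lt (hS.pos q hq)
    exact mem_iUnion.2 ⟨n, subset_closure ⟨q, hq, hn.le, hy⟩⟩
  obtain ⟨n, p0, hp0⟩ := nonempty_interior_of_iUnion_of_closed (fun n => isClosed_closure) hU
  obtain ⟨ρ, hρ, hball⟩ := Metric.mem_nhds_iff.1 (isOpen_interior.mem_nhds hp0)
  refine ⟨1 / ((n : ℝ) + 1), by positivity, p0, p0.2, ρ, hρ, fun y hy hyp ε hε => ?_⟩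
  have hmem : (⟨y, hy⟩ : K) ∈ f n := interior_subset (hball (by
    rw [Metric.mem_ball, Subtype.dist_eq]
    exact hyp))
  obtain ⟨y', ⟨q, hq, h1, h2⟩, h3⟩ := Metric.mem_closure_iff.1 hmem ε hε
  refine ⟨y', y'.2, ?_, q, hq, h1, h2⟩
  rw [dist_comm]
  exact h3

/-- Richness: infinitely many balls of radius `≥ η` approach each contact point near `p0`. -/
lemma Cov.rich (hS : Cov S) (hinf : ¬ FiniteDimensional ℝ H) {η ρ : ℝ} {p0 : H}
    (hd : ∀ y, hS.g y = 0 → dist y p0 < ρ →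
      ∀ ε > 0, ∃ y', hS.g y' = 0 ∧ dist y' y < ε ∧
        ∃ q ∈ S, η ≤ q.2 ∧ y' ∈ Metric.closedBall q.1 q.2)
    (p : H) (hp : hS.g p = 0) (hpρ : dist p p0 < ρ) (ε : ℝ) (hε : 0 < ε)
    (I : Set (H × ℝ)) (hI : I.Finite) :
    ∃ q ∈ S, q ∉ I ∧ η ≤ q.2 ∧ ∃ y, hS.g y = 0 ∧ dist y p < ε ∧
      y ∈ Metric.closedBall q.1 q.2 := by
  by_contra hcon
  push Not at hcon
  -- a small radius
  have hev : ∀ᶠ z in 𝓝 p, ∀ q ∈ I, p ∉ Metric.closedBall q.1 q.2 →
      z ∉ Metric.closedBall q.1 q.2 := by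
    rw [Filter.eventually_all_finite hI]
    intro q _
    by_cases h : p ∈ Metric.closedBall q.1 q.2
    · exact Eventually.of_forall fun z h' => absurd h h'
    · filter_upwards [Metric.isClosed_closedBall.isOpen_compl.mem_nhds h] with z hz _
      exact hz
  obtain ⟨ε1, hε1, hball⟩ := Metric.eventually_nhds_iff.1 hev
  obtain ⟨ε2, hε2, hle1, hle2, hle3⟩ : ∃ ε2 > 0, ε2 ≤ ε ∧ ε2 ≤ ε1 ∧ ε2 ≤ ρ - dist p p0 :=
    ⟨min ε (min ε1 (ρ - dist p p0)), by
      have : 0 < ρ - dist p p0 := by linarith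
      positivity, min_le_left _ _, (min_le_right _ _).trans (min_le_left _ _),
      (min_le_right _ _).trans (min_le_right _ _)⟩
  have hfin := (hS.fin p).image (fun q : H × ℝ => p - q.1)
  haveI : FiniteDimensional ℝ (Submodule.span ℝ
    ((fun q : H × ℝ => p - q.1) '' {q ∈ S | p ∈ Metric.closedBall q.1 q.2})) :=
    FiniteDimensional.span_of_finite ℝ hfin
  set Z := Submodule.span ℝ
    ((fun q : H × ℝ => p - q.1) '' {q ∈ S | p ∈ Metric.closedBall q.1 q.2}) with hZ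
  obtain ⟨e, he, horth⟩ := exists_unit_orth hinf Z
  have hgt : ∀ᶠ t : ℝ in 𝓝 0, hS.g (p + t • e) < (ε2 / 2) ^ 2 := by
    have hc : Continuous fun t : ℝ => hS.g (p + t • e) := by
      have := hS.continuous_g
      fun_prop
    have := hc.tendsto 0
    simp only [zero_smul, add_zero, hp] at this
    exact this.eventually (gt_mem_nhds (by positivity))
  obtain ⟨ε3, hε3, hball3⟩ := Metric.eventually_nhds_iff.1 hgt
  obtain ⟨t, ht0, ht1, ht2⟩ : ∃ t : ℝ, 0 < t ∧ t < ε3 ∧ t < ε2 / 2 :=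
    ⟨min (ε3 / 2) (ε2 / 4), by positivity,
      (min_le_left _ _).trans_lt (by linarith), (min_le_right _ _).trans_lt (by linarith)⟩
  have hgx : hS.g (p + t • e) < (ε2 / 2) ^ 2 := hball3 (by
    rw [Real.dist_eq, sub_zero, abs_of_pos ht0]; exact ht1)
  obtain ⟨u, hu1, hu2, hu3⟩ := hS.reach hinf (p + t • e) (Z ⊔ Submodule.span ℝ {e})
  have hun : ‖u‖ < ε2 / 2 := by
    rw [← hu2] at hgx
    exact lt_of_pow_lt_pow_left₀ 2 (by positivity) hgx
  set y := p + t • e + u with hy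
  have hyp : dist y p < ε2 := by
    rw [dist_eq_norm]
    have : y - p = t • e + u := by rw [hy]; abel
    rw [this]
    calc ‖t • e + u‖ ≤ ‖t • e‖ + ‖u‖ := norm_add_le _ _
      _ < ε2 / 2 + ε2 / 2 := by
          have : ‖t • e‖ = t := by rw [norm_smul, he, mul_one, Real.norm_eq_abs, abs_of_pos ht0]
          rw [this]; linarith
      _ = ε2 := by ring
  have hynot : ∀ q ∈ S, p ∈ Metric.closedBall q.1 q.2 → y ∉ Metric.closedBall q.1 q.2 := by
    intro q hq hpq
    rw [mem_ball_iff (hS.pos q hq), not_le]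
    have h1 : pw q p = 0 := by
      apply le_antisymm
      · rw [← hp]; exact hS.pw_le_g p hq
      · exact (mem_ball_iff (hS.pos q hq) p).1 hpq
    have h2 : y = p + (t • e + u) := by rw [hy]; abel
    have hmem : p - q.1 ∈ Z := Submodule.subset_span ⟨q, ⟨hq, hpq⟩, rfl⟩
    have h3 : ⟪p - q.1, t • e + u⟫ = 0 := by
      rw [inner_add_right, real_inner_smul_right, horth _ hmem,
        hu1 _ (Submodule.mem_sup_left hmem)]
      ring
    have h4 : ‖t • e + u‖ ^ 2 = t ^ 2 + ‖u‖ ^ 2 := by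
      rw [norm_add_sq_real, real_inner_smul_left,
        hu1 e (Submodule.mem_sup_right (Submodule.mem_span_singleton_self _)), norm_smul, he,
        Real.norm_eq_abs, mul_one, sq_abs]
      ring
    rw [h2, pw_add, h1, h3, h4]
    have : 0 < t ^ 2 := by positivity
    have : 0 ≤ ‖u‖ ^ 2 := by positivity
    linarith
  -- open neighbourhood of `y`
  have hopen : ∀ᶠ z in 𝓝 y, dist z p < ε2 ∧
      ∀ q ∈ {q ∈ S | p ∈ Metric.closedBall q.1 q.2}, z ∉ Metric.closedBall q.1 q.2 := by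
    refine Filter.Eventually.and ?_ ?_
    · exact Metric.isOpen_ball.mem_nhds hyp
    · rw [Filter.eventually_all_finite (hS.fin p)]
      intro q hq
      exact Metric.isClosed_closedBall.isOpen_compl.mem_nhds (hynot q hq.1 hq.2)
  obtain ⟨ε4, hε4, hball4⟩ := Metric.eventually_nhds_iff.1 hopen
  have hyρ : dist y p0 < ρ := by
    have := dist_triangle y p p0
    linarith
  obtain ⟨y', hy'K, hy'y, q, hq, hηq, hy'q⟩ := hd y hu3 hyρ ε4 hε4
  obtain ⟨h5, h6⟩ := hball4 hy'y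
  by_cases hqI : q ∈ I
  · by_cases hpq : p ∈ Metric.closedBall q.1 q.2
    · exact h6 q ⟨hq, hpq⟩ hy'q
    · exact hball (h5.trans_le hle2) q hqI hpq hy'q
  · exact hcon q hq hqI hηq y' hy'K (h5.trans_le hle1) hy'q

end Pool.Agent.H826R3.HilbertCover
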