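import Pool.Agent.H826R3.HilbertCover3

set_option autoImplicit false
set_option linter.unusedSectionVars false
set_option linter.style.haveILetI false

namespace Pool.Agent.H826R3.HilbertCover

open Filter Topology Set
open scoped RealInnerProductSpace

variable {H : Type*} [NormedAddCommGroup H] [InnerProductSpace ℝ H] [CompleteSpace H]
variable {S : Set (H × ℝ)}

lemma proj_tendsto_zero {ι : Type*} {l : Filter ι} (w : ι → H) (N : Submodule ℝ H)
    [FiniteDimensional ℝ N] (hw : ∀ v ∈ N, Tendsto (fun i => ⟪v, w i⟫) l (𝓝 0)) :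
    Tendsto (fun i => ‖N.starProjection (w i)‖ ^ 2) l (𝓝 0) := by
  let b := stdOrthonormalBasis ℝ N
  have h : ∀ i, ‖N.starProjection (w i)‖ ^ 2 = ∑ j, ⟪(b j : H), w i⟫ ^ 2 := by
    intro i
    rw [Submodule.starProjection_apply, Submodule.norm_coe, ← b.sum_sq_inner_right]
    refine Finset.sum_congr rfl fun j _ => ?_
    rw [Submodule.inner_orthogonalProjectionOnto_eq_of_mem_left]
  simp_rw [h]
  have h0 : (0 : ℝ) = ∑ j : Fin (Module.finrank ℝ N), (0 : ℝ) ^ 2 := by simp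
  rw [h0]
  exact tendsto_finsetSum _ fun j _ => (hw _ (b j).2).pow 2

lemma Cov.rich_point (hS : Cov S) {η : ℝ} (hη : 0 < η) (P : H)
    (hrich : ∀ ε > 0, ∀ I : Set (H × ℝ), I.Finite → ∃ q ∈ S, q ∉ I ∧ η ≤ q.2 ∧
      ∃ y, hS.g y = 0 ∧ dist y P < ε ∧ y ∈ Metric.closedBall q.1 q.2)
    (N : Submodule ℝ H) [FiniteDimensional ℝ N] (u : H) (hu : u ∈ N) (α β : ℝ) (hα : 0 < α)
    (hlt : α ^ 2 + β ^ 2 * ‖u‖ ^ 2 < α * η) :
    ∃ e : H, ‖e‖ = 1 ∧ (∀ z ∈ N, ⟪z, e⟫ = 0) ∧ ∃ q ∈ S, 0 < pw q (P + (α • e - β • u)) := by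
  let T : Set ((H × ℝ) × H) := {t | t.1 ∈ S ∧ η ≤ t.1.2 ∧ hS.g t.2 = 0 ∧
    t.2 ∈ Metric.closedBall t.1.1 t.1.2}
  let F : Filter ((H × ℝ) × H) := (cofinite ×ˢ 𝓝 P) ⊓ 𝓟 T
  have hF : F.NeBot := by
    rw [Filter.inf_principal_neBot_iff]
    intro A hA
    obtain ⟨I, hI, B, hB, hBA⟩ := Filter.mem_prod_iff.1 hA
    obtain ⟨ε, hε, hball⟩ := Metric.mem_nhds_iff.1 hB
    obtain ⟨q, hq, hqI, hηq, y, hy, hyd, hyq⟩ := hrich ε hε Iᶜ hI
    exact ⟨(q, y), hBA ⟨by simpa using hqI, hball hyd⟩, hq, hηq, hy, hyq⟩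
  let U : Ultrafilter ((H × ℝ) × H) := Ultrafilter.of F
  have hUF : (U : Filter _) ≤ F := Ultrafilter.of_le F
  have hz : Tendsto (fun t : (H × ℝ) × H => t.2) U (𝓝 P) :=
    tendsto_snd.mono_left (hUF.trans inf_le_left)
  have hcof : Tendsto (fun t : (H × ℝ) × H => t.1) U cofinite :=
    tendsto_fst.mono_left (hUF.trans inf_le_left)
  have hT : ∀ᶠ t in (U : Filter ((H × ℝ) × H)), t ∈ T :=
    (hUF.trans inf_le_right) (mem_principal_self T)
  have hne : ∀ q, ∀ᶠ t in (U : Filter ((H × ℝ) × H)), t.1 ≠ q := fun q =>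
    hcof.eventually ((Set.finite_singleton q).compl_mem_cofinite)
  have hzero : ∀ t ∈ T, pw t.1 t.2 = 0 := by
    intro t ht
    apply le_antisymm
    · rw [← ht.2.2.1]; exact hS.pw_le_g t.2 ht.1
    · exact (mem_ball_iff (hS.pos _ ht.1) _).1 ht.2.2.2
  obtain ⟨δ, hδ, M, hM⟩ := hS.center_bdd P
  have hMev : ∀ᶠ t in (U : Filter ((H × ℝ) × H)), ‖t.1.1‖ ≤ M := by
    have : ∀ᶠ t in (U : Filter ((H × ℝ) × H)), dist t.2 P < δ :=
      hz.eventually (Metric.ball_mem_nhds P hδ)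
    filter_upwards [this, hT] with t h1 h2
    exact hM t.2 h1 t.1 h2.1 (by rw [hzero t h2, h2.2.2.1])
  obtain ⟨-, hweak, hpwP⟩ := hS.weak_lemma U (fun t => t.1) (fun t => t.2) P M 0
    (hT.mono fun t ht => ht.1) hne hz hMev
    (by
      refine tendsto_const_nhds.congr' ?_
      filter_upwards [hT] with t ht
      exact (hzero t ht).symm) le_rfl
  -- weak nullity of `q.1 - P`
  have hnull : ∀ v : H, Tendsto (fun t : (H × ℝ) × H => ⟪v, t.1.1 - P⟫) U (𝓝 0) := by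
    intro v
    have h1 := (hweak v).sub_const ⟪P, v⟫
    rw [sub_self] at h1
    refine h1.congr fun t => ?_
    rw [inner_sub_right, real_inner_comm, real_inner_comm P v]
  have hproj := proj_tendsto_zero (fun t : (H × ℝ) × H => t.1.1 - P) N (fun v _ => hnull v)
  -- the quantities
  have hev1 : ∀ᶠ t in (U : Filter ((H × ℝ) × H)),
      pw t.1 P + ‖N.starProjection (t.1.1 - P)‖ ^ 2 < η ^ 2 - (η / 2) ^ 2 := by
    have := hpwP.add hproj
    rw [add_zero] at this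
    refine this.eventually (gt_mem_nhds ?_)
    nlinarith [sq_pos_of_pos hη]
  have hev2 : ∀ᶠ t in (U : Filter ((H × ℝ) × H)),
      α ^ 2 + β ^ 2 * ‖u‖ ^ 2 - α * η < pw t.1 P - 2 * β * ⟪u, t.1.1 - P⟫ := by
    have h1 := hpwP.sub ((hnull u).const_mul (2 * β))
    rw [mul_zero, sub_zero] at h1
    exact h1.eventually (lt_mem_nhds (by linarith))
  obtain ⟨t, ⟨h1, h2⟩, h3⟩ := ((hev1.and hev2).and hT).exists
  set q := t.1 with hq
  set a := q.1 - P with ha
  set v := a - N.starProjection a with hv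
  have hvN : ∀ z ∈ N, ⟪z, v⟫ = 0 := by
    intro z hz
    rw [real_inner_comm]
    exact Submodule.starProjection_inner_eq_zero a z hz
  have hav : ⟪a, v⟫ = ‖v‖ ^ 2 := by
    have : a = v + N.starProjection a := by rw [hv]; abel
    nth_rewrite 1 [this]
    rw [inner_add_left, real_inner_self_eq_norm_sq,
      hvN _ (Submodule.starProjection_apply_mem N a), add_zero]
  have hnorm : ‖a‖ ^ 2 = ‖v‖ ^ 2 + ‖N.starProjection a‖ ^ 2 := by
    have : a = v + N.starProjection a := by rw [hv]; abel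
    conv_lhs => rw [this]
    rw [norm_add_sq_real, real_inner_comm, hvN _ (Submodule.starProjection_apply_mem N a)]
    ring
  have hpa : pw q P = q.2 ^ 2 - ‖a‖ ^ 2 := by
    rw [pw, ha, norm_sub_rev]
  have hq2 : η ^ 2 ≤ q.2 ^ 2 := by
    have := h3.2.1
    gcongr
  have hvbig : η / 2 < ‖v‖ := by
    apply lt_of_pow_lt_pow_left₀ 2 (norm_nonneg _)
    linarith
  have hvpos : 0 < ‖v‖ := lt_trans (by positivity) hvbig
  refine ⟨‖v‖⁻¹ • v, ?_, fun z hz => ?_, q, h3.1, ?_⟩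
  · rw [norm_smul, norm_inv, norm_norm]
    exact inv_mul_cancel₀ hvpos.ne'
  · rw [real_inner_smul_right, hvN z hz, mul_zero]
  · have hPq : P - q.1 = -a := by rw [ha]; abel
    have he1 : ⟪P - q.1, α • (‖v‖⁻¹ • v) - β • u⟫ = -(α * ‖v‖) + β * ⟪u, a⟫ := by
      rw [hPq, inner_neg_left, inner_sub_right, real_inner_smul_right, real_inner_smul_right,
        real_inner_smul_right, hav, real_inner_comm a u]
      field_simp
      ring
    have he2 : ‖α • (‖v‖⁻¹ • v) - β • u‖ ^ 2 = α ^ 2 + β ^ 2 * ‖u‖ ^ 2 := by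
      rw [norm_sub_sq_real, real_inner_smul_left, real_inner_smul_left, real_inner_smul_right,
        real_inner_comm, hvN u hu, norm_smul, norm_smul, norm_smul, norm_inv, norm_norm,
        inv_mul_cancel₀ hvpos.ne', Real.norm_eq_abs, Real.norm_eq_abs, mul_pow, mul_pow, sq_abs,
        sq_abs]
      ring
    rw [pw_add, he1, he2]
    have h4 : α * η ≤ 2 * α * ‖v‖ := by nlinarith
    linarith

lemma Cov.step_main (hS : Cov S) (hinf : ¬ FiniteDimensional ℝ H) {η ρ : ℝ} (hη : 0 < η) {p0 : H}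
    (hd : ∀ y, hS.g y = 0 → dist y p0 < ρ →
      ∀ ε > 0, ∃ y', hS.g y' = 0 ∧ dist y' y < ε ∧
        ∃ q ∈ S, η ≤ q.2 ∧ y' ∈ Metric.closedBall q.1 q.2)
    (x : H) (hx : 0 < hS.g x) (hxρ : dist x p0 + Real.sqrt (hS.g x) < ρ) (ε : ℝ) (hε : 0 < ε) :
    ∃ x', 0 < hS.g x' ∧ dist x' x < Real.sqrt (hS.g x) + ε ∧ hS.g x' < ε ∧
      hS.Act x ⊆ hS.Act x' ∧ ∃ q ∈ hS.Act x', q ∉ hS.Act x := by
  by_contra hcon
  push Not at hcon
  set G := hS.g x with hG
  let c := hS.m x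
  have hc : c ∈ hS.Act x := hS.m_mem_Act x
  have hfin := (hS.Act_finite x).image (fun q : H × ℝ => x - q.1)
  haveI : FiniteDimensional ℝ (Submodule.span ℝ ((fun q : H × ℝ => x - q.1) '' hS.Act x)) :=
    FiniteDimensional.span_of_finite ℝ hfin
  obtain ⟨u, hu1, hu2, hu3⟩ := hS.reach hinf x
    (Submodule.span ℝ ((fun q : H × ℝ => x - q.1) '' hS.Act x))
  have hxq : ∀ q ∈ hS.Act x, ⟪x - q.1, u⟫ = 0 := fun q hq =>
    hu1 _ (Submodule.subset_span ⟨q, hq, rfl⟩)
  have hun : ‖u‖ = Real.sqrt G := by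
    rw [hG, ← hu2, Real.sqrt_sq (norm_nonneg _)]
  set P := x + u with hP
  have hline : ∀ q ∈ hS.Act x, ∀ s : ℝ, pw q (x + s • u) = (1 - s ^ 2) * G := by
    intro q hq s
    rw [pw_add, real_inner_smul_right, hxq q hq, hq.2, norm_smul, mul_pow, Real.norm_eq_abs,
      sq_abs, hu2, hG]
    ring
  have hPq : ∀ q ∈ hS.Act x, pw q P = 0 := by
    intro q hq
    have := hline q hq 1
    rw [one_smul] at this
    rw [hP, this]; ring
  have hPρ : dist P p0 < ρ := by
    have h1 : dist P x = Real.sqrt G := by rw [dist_eq_norm, hP, add_sub_cancel_left, hun]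
    have := dist_triangle P x p0
    linarith
  -- choose the radius
  have hgt : ∀ᶠ z in 𝓝 P, hS.g z < ε := by
    have := hS.continuous_g.tendsto P
    rw [hu3] at this
    exact this.eventually (gt_mem_nhds hε)
  obtain ⟨ε0, hε0, hball0⟩ := Metric.eventually_nhds_iff.1 hgt
  obtain ⟨ε1, hε1, hle0, hle⟩ : ∃ ε1 > 0, ε1 ≤ ε0 ∧ ε1 ≤ ε :=
    ⟨min ε0 ε, by positivity, min_le_left _ _, min_le_right _ _⟩
  have hH : ∀ x', dist x' P < ε1 → 0 < hS.g x' → (∀ q ∈ hS.Act x, pw q x' = hS.g x') →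
      hS.Act x' ⊆ hS.Act x := by
    intro x' h1 h2 h3
    have h4 : dist x' x < Real.sqrt G + ε := by
      have h5 := dist_triangle x' P x
      have h6 : dist P x = Real.sqrt G := by rw [dist_eq_norm, hP, add_sub_cancel_left, hun]
      linarith
    intro q hq
    exact hcon x' h2 h4 (hball0 (h1.trans_le hle0)) (fun p hp => ⟨hp.1, h3 p hp⟩) q hq
  -- the point x''
  obtain ⟨τ, hτ0, hτ1, hτ2⟩ : ∃ τ : ℝ, 0 < τ ∧ τ ≤ 1 ∧ τ * Real.sqrt G < ε1 := by
    have hs : 0 < Real.sqrt G := Real.sqrt_pos.2 hx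
    refine ⟨min 1 (ε1 / (2 * Real.sqrt G)), by positivity, min_le_left _ _, ?_⟩
    calc min 1 (ε1 / (2 * Real.sqrt G)) * Real.sqrt G ≤ (ε1 / (2 * Real.sqrt G)) * Real.sqrt G := by
          gcongr; exact min_le_right _ _
      _ = ε1 / 2 := by field_simp
      _ < ε1 := by linarith
  set x2 := x + (1 - τ) • u with hx2
  have hx2P : dist x2 P < ε1 := by
    rw [dist_eq_norm]
    have : x2 - P = (-τ) • u := by rw [hx2, hP]; module
    rw [this, norm_smul, norm_neg, Real.norm_eq_abs, abs_of_pos hτ0, hun]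
    exact hτ2
  have hx2q : ∀ q ∈ hS.Act x, pw q x2 = (1 - (1 - τ) ^ 2) * G := fun q hq => hline q hq _
  have hx2pos : 0 < pw c x2 := by
    rw [hx2q c hc]
    have : 0 < 1 - (1 - τ) ^ 2 := by nlinarith
    positivity
  have hx2g : hS.g x2 = pw c x2 := by
    apply le_antisymm
    · have h1 := hS.convexOn_h.2 (mem_univ x) (mem_univ P) hτ0.le (by linarith : 0 ≤ 1 - τ)
        (by ring)
      have h2 : τ • x + (1 - τ) • P = x2 := by rw [hx2, hP]; module
      rw [h2] at h1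
      have h3 : hS.h x = aff c x := hS.h_eq x
      have h4 : hS.h P = aff c P := by rw [aff_eq, hPq c hc, Cov.h, hu3]
      rw [h3, h4] at h1
      simp only [smul_eq_mul] at h1
      rw [← aff_comb c x P (by ring : τ + (1 - τ) = 1), h2, aff_eq, Cov.h] at h1
      linarith
    · exact hS.pw_le_g _ hc.1
  -- Claim 1
  have claim1 : ∀ z, (∀ q ∈ hS.Act x, pw q z = pw c z) → dist z P < ε1 → 0 < pw c z →
      hS.g z = pw c z := by
    intro z hzL hzP hzc
    let σ : ℝ → H := fun s => (1 - s) • x2 + s • z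
    have hσc : Continuous σ := by fun_prop
    let A : Set ℝ := {s | hS.g (σ s) = pw c (σ s)}
    have hAc : IsClosed A := isClosed_eq (hS.continuous_g.comp hσc) ((continuous_pw c).comp hσc)
    have hσL : ∀ s, ∀ q ∈ hS.Act x, pw q (σ s) = pw c (σ s) := by
      intro s q hq
      have h1 : aff q (σ s) = aff c (σ s) := by
        rw [aff_comb q x2 z (by ring), aff_comb c x2 z (by ring), aff_eq, aff_eq, aff_eq, aff_eq,
          hzL q hq, hx2q q hq, hx2q c hc]
      rw [aff_eq, aff_eq] at h1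
      linarith
    have hσP : ∀ s ∈ Icc (0 : ℝ) 1, dist (σ s) P < ε1 := by
      intro s hs
      have := (convex_ball P ε1) (Metric.mem_ball.2 hx2P) (Metric.mem_ball.2 hzP)
        (by linarith [hs.2] : (0:ℝ) ≤ 1 - s) hs.1 (by ring)
      exact this
    have hσpos : ∀ s ∈ Icc (0 : ℝ) 1, 0 < pw c (σ s) := by
      intro s hs
      have h1 : aff c (σ s) = (1 - s) * aff c x2 + s * aff c z := aff_comb c x2 z (by ring)
      rw [aff_eq, aff_eq, aff_eq] at h1
      have h2 : ‖σ s‖ ^ 2 ≤ (1 - s) * ‖x2‖ ^ 2 + s * ‖z‖ ^ 2 := by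
        have h3 : ‖σ s‖ ≤ (1 - s) * ‖x2‖ + s * ‖z‖ := by
          calc ‖σ s‖ ≤ ‖(1 - s) • x2‖ + ‖s • z‖ := norm_add_le _ _
            _ = (1 - s) * ‖x2‖ + s * ‖z‖ := by
              rw [norm_smul, norm_smul, Real.norm_eq_abs, Real.norm_eq_abs,
                abs_of_nonneg hs.1, abs_of_nonneg (by linarith [hs.2])]
        have h4 : 0 ≤ ‖σ s‖ := norm_nonneg _
        have h5 : ‖σ s‖ ^ 2 ≤ ((1 - s) * ‖x2‖ + s * ‖z‖) ^ 2 := by gcongr
        have h6 : (1 - s) * ‖x2‖ ^ 2 + s * ‖z‖ ^ 2 - ((1 - s) * ‖x2‖ + s * ‖z‖) ^ 2 =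
          s * (1 - s) * (‖x2‖ - ‖z‖) ^ 2 := by ring
        have h7 : 0 ≤ s * (1 - s) * (‖x2‖ - ‖z‖) ^ 2 := by
          have := hs.1
          have : 0 ≤ 1 - s := by linarith [hs.2]
          positivity
        linarith
      have h8 : 0 < (1 - s) * pw c x2 + s * pw c z := by
        rcases hs.1.eq_or_lt with h | h
        · rw [← h]; simpa using hx2pos
        · have : 0 ≤ (1 - s) * pw c x2 := mul_nonneg (by linarith [hs.2]) hx2pos.le
          have : 0 < s * pw c z := mul_pos h hzc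
          linarith
      nlinarith
    have hsub : Icc (0 : ℝ) 1 ⊆ A := by
      refine IsClosed.Icc_subset_of_forall_exists_gt (hAc.inter isClosed_Icc) ?_ ?_
      · show hS.g (σ 0) = pw c (σ 0)
        have : σ 0 = x2 := by simp [σ]
        rw [this]; exact hx2g
      · intro s ⟨hsA, hs⟩ r hr
        have hsI : s ∈ Icc (0 : ℝ) 1 := ⟨hs.1, hs.2.le⟩
        have hgs : 0 < hS.g (σ s) := by
          have : hS.g (σ s) = pw c (σ s) := hsA
          rw [this]; exact hσpos s hsI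
        obtain ⟨δ, hδ, hloc⟩ := hS.local_active (σ s) hgs
        have hsubA := hH (σ s) (hσP s hsI) hgs (fun q hq => by
          rw [hσL s q hq]; exact (show hS.g (σ s) = pw c (σ s) from hsA).symm)
        have hev : ∀ᶠ s' in 𝓝[>] s, dist (σ s') (σ s) < δ :=
          (hσc.tendsto s).mono_left nhdsWithin_le_nhds |>.eventually (Metric.ball_mem_nhds _ hδ)
        have hev2 : ∀ᶠ s' in 𝓝[>] s, s' ∈ Ioc s r := Ioc_mem_nhdsGT hr
        obtain ⟨s', h1, h2⟩ := (hev.and hev2).exists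
        refine ⟨s', ?_, h2⟩
        have h3 := hloc (σ s') h1 (hS.m (σ s')) (hS.m_mem _) rfl
        have h4 : hS.m (σ s') ∈ hS.Act x := hsubA ⟨hS.m_mem _, h3⟩
        show hS.g (σ s') = pw c (σ s')
        rw [← hσL s' _ h4]
        rfl
    have h1 := hsub (right_mem_Icc.2 zero_le_one)
    have h2 : σ 1 = z := by simp [σ]
    have h3 : hS.g (σ 1) = pw c (σ 1) := h1
    rwa [h2] at h3
  -- Claim 2
  have claim2 : ∀ y, (∀ q ∈ hS.Act x, pw q y = 0) → dist y P < ε1 → hS.g y = 0 := by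
    intro y hy hyP
    let σ : ℝ → H := fun s => (1 - s) • y + s • x2
    have hσc : Continuous σ := by fun_prop
    have hσ0 : σ 0 = y := by simp [σ]
    have haffσ : ∀ s, ∀ q ∈ hS.Act x, aff q (σ s) = (1 - s) * ‖y‖ ^ 2 + s * (pw c x2 + ‖x2‖ ^ 2) := by
      intro s q hq
      rw [aff_comb q y x2 (by ring), aff_eq, aff_eq, hy q hq, hx2q q hq, hx2q c hc]
      ring
    have hev : ∀ᶠ s in 𝓝[>] (0 : ℝ), hS.g (σ s) = pw c (σ s) := by
      have h1 : ∀ᶠ s in 𝓝[>] (0 : ℝ), s ∈ Ioc (0 : ℝ) 1 := Ioc_mem_nhdsGT zero_lt_one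
      filter_upwards [h1] with s hs
      apply claim1
      · intro q hq
        have h2 := haffσ s q hq
        have h3 := haffσ s c hc
        rw [aff_eq] at h2 h3
        linarith
      · have := (convex_ball P ε1) (Metric.mem_ball.2 hyP) (Metric.mem_ball.2 hx2P)
          (by linarith [hs.2] : (0:ℝ) ≤ 1 - s) hs.1.le (by ring)
        exact this
      · have h3 := haffσ s c hc
        rw [aff_eq] at h3
        have h2 : ‖σ s‖ ^ 2 ≤ (1 - s) * ‖y‖ ^ 2 + s * ‖x2‖ ^ 2 := by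
          have h3 : ‖σ s‖ ≤ (1 - s) * ‖y‖ + s * ‖x2‖ := by
            calc ‖σ s‖ ≤ ‖(1 - s) • y‖ + ‖s • x2‖ := norm_add_le _ _
              _ = (1 - s) * ‖y‖ + s * ‖x2‖ := by
                rw [norm_smul, norm_smul, Real.norm_eq_abs, Real.norm_eq_abs,
                  abs_of_nonneg hs.1.le, abs_of_nonneg (by linarith [hs.2])]
          have h4 : 0 ≤ ‖σ s‖ := norm_nonneg _
          have h5 : ‖σ s‖ ^ 2 ≤ ((1 - s) * ‖y‖ + s * ‖x2‖) ^ 2 := by gcongr
          have h6 : (1 - s) * ‖y‖ ^ 2 + s * ‖x2‖ ^ 2 - ((1 - s) * ‖y‖ + s * ‖x2‖) ^ 2 =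
            s * (1 - s) * (‖y‖ - ‖x2‖) ^ 2 := by ring
          have h7 : 0 ≤ s * (1 - s) * (‖y‖ - ‖x2‖) ^ 2 := by
            have := hs.1.le
            have : 0 ≤ 1 - s := by linarith [hs.2]
            positivity
          linarith
        have h9 : 0 < s * pw c x2 := mul_pos hs.1 hx2pos
        nlinarith
    have ht1 : Tendsto (fun s => hS.g (σ s)) (𝓝[>] (0 : ℝ)) (𝓝 (hS.g (σ 0))) :=
      ((hS.continuous_g.comp hσc).tendsto 0).mono_left nhdsWithin_le_nhds
    have ht2 : Tendsto (fun s => pw c (σ s)) (𝓝[>] (0 : ℝ)) (𝓝 (pw c (σ 0))) :=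
      (((continuous_pw c).comp hσc).tendsto 0).mono_left nhdsWithin_le_nhds
    have h3 := tendsto_nhds_unique (ht1.congr' hev) ht2
    rw [hσ0, hy c hc] at h3
    exact h3
  -- the contradiction
  have hfin2 := (hS.Act_finite x).image (fun q : H × ℝ => P - q.1)
  haveI : FiniteDimensional ℝ (Submodule.span ℝ ((fun q : H × ℝ => P - q.1) '' hS.Act x)) :=
    FiniteDimensional.span_of_finite ℝ hfin2
  set N := Submodule.span ℝ ((fun q : H × ℝ => P - q.1) '' hS.Act x) ⊔ Submodule.span ℝ {u}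
    with hN
  have huN : u ∈ N := Submodule.mem_sup_right (Submodule.mem_span_singleton_self _)
  obtain ⟨β, hβ0, hβ1, hβ2, hβ3⟩ : ∃ β : ℝ, 0 < β ∧ β ≤ 1 ∧ 4 * β * G < η ^ 2 ∧
      2 * β * G < ε1 ^ 2 := by
    refine ⟨min 1 (min (η ^ 2 / (8 * G)) (ε1 ^ 2 / (4 * G))), by positivity, min_le_left _ _,
      ?_, ?_⟩
    · have : min 1 (min (η ^ 2 / (8 * G)) (ε1 ^ 2 / (4 * G))) ≤ η ^ 2 / (8 * G) :=
        (min_le_right _ _).trans (min_le_left _ _)
      calc 4 * min 1 (min (η ^ 2 / (8 * G)) (ε1 ^ 2 / (4 * G))) * G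
          ≤ 4 * (η ^ 2 / (8 * G)) * G := by gcongr
        _ = η ^ 2 / 2 := by field_simp; ring
        _ < η ^ 2 := by have : 0 < η ^ 2 := by positivity
                        linarith
    · have : min 1 (min (η ^ 2 / (8 * G)) (ε1 ^ 2 / (4 * G))) ≤ ε1 ^ 2 / (4 * G) :=
        (min_le_right _ _).trans (min_le_right _ _)
      calc 2 * min 1 (min (η ^ 2 / (8 * G)) (ε1 ^ 2 / (4 * G))) * G
          ≤ 2 * (ε1 ^ 2 / (4 * G)) * G := by gcongr
        _ = ε1 ^ 2 / 2 := by field_simp; ring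
        _ < ε1 ^ 2 := by have : 0 < ε1 ^ 2 := by positivity
                         linarith
  have hpos : 0 < G * (2 * β - β ^ 2) := by
    have : 0 < 2 * β - β ^ 2 := by nlinarith
    positivity
  set α := Real.sqrt (G * (2 * β - β ^ 2)) with hα
  have hα0 : 0 < α := Real.sqrt_pos.2 hpos
  have hα2 : α ^ 2 = G * (2 * β - β ^ 2) := Real.sq_sqrt hpos.le
  have hsum : α ^ 2 + β ^ 2 * ‖u‖ ^ 2 = 2 * β * G := by rw [hα2, hu2]; ring
  have hlt : α ^ 2 + β ^ 2 * ‖u‖ ^ 2 < α * η := by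
    rw [hsum]
    apply lt_of_pow_lt_pow_left₀ 2 (by positivity)
    rw [mul_pow α η, hα2]
    have h1 : (2 * β * G) ^ 2 = (4 * β * G) * (β * G) := by ring
    have h2 : G * (2 * β - β ^ 2) * η ^ 2 = (2 - β) * η ^ 2 * (β * G) := by ring
    rw [h1, h2]
    have h3 : 0 < β * G := by positivity
    have h4 : η ^ 2 ≤ (2 - β) * η ^ 2 := by nlinarith [sq_nonneg η]
    exact mul_lt_mul_of_pos_right (lt_of_lt_of_le hβ2 h4) h3
  obtain ⟨e, he1, he2, q, hq, hqpos⟩ := hS.rich_point hη P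
    (fun ε' hε' I hI => hS.rich hinf hd P hu3 hPρ ε' hε' I hI) N u huN α β hα0 hlt
  have hnorm : ‖α • e - β • u‖ ^ 2 = 2 * β * G := by
    rw [← hsum, norm_sub_sq_real, real_inner_smul_left, real_inner_smul_right, real_inner_comm,
      he2 u huN, norm_smul, norm_smul, he1, Real.norm_eq_abs, Real.norm_eq_abs, mul_pow, mul_pow,
      sq_abs, sq_abs]
    ring
  have hy0 : hS.g (P + (α • e - β • u)) = 0 := by
    apply claim2
    · intro q' hq'
      rw [pw_add, hPq q' hq', hnorm, inner_sub_right, real_inner_smul_right,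
        real_inner_smul_right, he2 _ (Submodule.mem_sup_left (Submodule.subset_span ⟨q', hq', rfl⟩))]
      have h1 : P - q'.1 = (x - q'.1) + u := by rw [hP]; abel
      rw [h1, inner_add_left, hxq q' hq', real_inner_self_eq_norm_sq, hu2]
      ring
    · rw [dist_eq_norm, add_sub_cancel_left]
      apply lt_of_pow_lt_pow_left₀ 2 hε1.le
      rw [hnorm]
      exact hβ3
  have := hS.pw_le_g (P + (α • e - β • u)) hq
  linarith

end Pool.Agent.H826R3.HilbertCover
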