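import Pool.Agent.H826R3.HilbertCover4

set_option autoImplicit false
set_option linter.unusedSectionVars false
set_option linter.style.haveILetI false

namespace Pool.Agent.H826R3.HilbertCover

open Filter Topology Set
open scoped RealInnerProductSpace

variable {H : Type*} [NormedAddCommGroup H] [InnerProductSpace ℝ H] [CompleteSpace H]
variable {S : Set (H × ℝ)}

/-- invariant of the construction -/
def Cov.Inv (hS : Cov S) (p0 : H) (ρ : ℝ) (s : H × ℝ) : Prop :=
  0 < hS.g s.1 ∧ 0 < s.2 ∧ hS.g s.1 < s.2 ^ 2 ∧ dist s.1 p0 + 4 * s.2 < ρ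

theorem Cov.false (hS : Cov S) (hinf : ¬ FiniteDimensional ℝ H) : False := by
  obtain ⟨η, hη, p0, hp0, ρ, hρ, hd⟩ := hS.baire hinf
  have hstep : ∀ s : {s : H × ℝ // hS.Inv p0 ρ s}, ∃ s' : {s : H × ℝ // hS.Inv p0 ρ s},
      s'.1.2 = s.1.2 / 2 ∧ dist s'.1.1 s.1.1 < 2 * s.1.2 ∧ hS.Act s.1.1 ⊆ hS.Act s'.1.1 ∧
        ∃ q ∈ hS.Act s'.1.1, q ∉ hS.Act s.1.1 := by
    rintro ⟨⟨x, r⟩, h1, h2, h3, h4⟩
    simp only at h1 h2 h3 h4
    have hsq : Real.sqrt (hS.g x) < r := by
      rw [Real.sqrt_lt' h2]; exact h3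
    obtain ⟨ε, hε, hε1, hε2⟩ : ∃ ε > 0, ε ≤ r ∧ ε ≤ (r / 2) ^ 2 :=
      ⟨min r ((r / 2) ^ 2), by positivity, min_le_left _ _, min_le_right _ _⟩
    obtain ⟨x', h5, h6, h7, h8, h9⟩ := hS.step_main hinf hη hd x h1 (by linarith) ε hε
    have h10 : dist x' x < 2 * r := by linarith
    refine ⟨⟨(x', r / 2), h5, by simp only; positivity, lt_of_lt_of_le h7 hε2, ?_⟩, rfl, h10, h8, h9⟩
    simp only
    have := dist_triangle x' x p0
    linarith
  -- the initial point
  have hinit : ∃ s, hS.Inv p0 ρ s := by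
    obtain ⟨q, hq, hpq⟩ := hS.cov p0
    have hpw : pw q p0 = 0 := by
      apply le_antisymm
      · rw [← hp0]; exact hS.pw_le_g p0 hq
      · exact (mem_ball_iff (hS.pos q hq) p0).1 hpq
    have hc : Continuous fun t : ℝ => p0 + t • (q.1 - p0) := by fun_prop
    have hev1 : ∀ᶠ t in 𝓝[>] (0 : ℝ), hS.g (p0 + t • (q.1 - p0)) < (ρ / 8) ^ 2 := by
      have := (hS.continuous_g.comp hc).tendsto 0
      simp only [Function.comp_apply, zero_smul, add_zero, hp0] at this
      exact (this.mono_left nhdsWithin_le_nhds).eventually (gt_mem_nhds (by positivity))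
    have hev2 : ∀ᶠ t in 𝓝[>] (0 : ℝ), dist (p0 + t • (q.1 - p0)) p0 < ρ / 8 := by
      have := hc.tendsto 0
      simp only [zero_smul, add_zero] at this
      exact (this.mono_left nhdsWithin_le_nhds).eventually
        (Metric.ball_mem_nhds p0 (by positivity))
    have hev3 : ∀ᶠ t in 𝓝[>] (0 : ℝ), t ∈ Ioc (0 : ℝ) 1 := Ioc_mem_nhdsGT zero_lt_one
    obtain ⟨t, ⟨h1, h2⟩, h3⟩ := ((hev1.and hev2).and hev3).exists
    refine ⟨(p0 + t • (q.1 - p0), ρ / 8), ?_, by simp only; positivity, h1, ?_⟩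
    · refine lt_of_lt_of_le ?_ (hS.pw_le_g _ hq)
      rw [pw_add, hpw, real_inner_smul_right]
      have h4 : ⟪p0 - q.1, q.1 - p0⟫ = - ‖q.1 - p0‖ ^ 2 := by
        have : p0 - q.1 = -(q.1 - p0) := by abel
        rw [this, inner_neg_left, real_inner_self_eq_norm_sq]
      have h5 : ‖q.1 - p0‖ = q.2 := by
        have h6 : ‖q.1 - p0‖ ^ 2 = q.2 ^ 2 := by
          rw [pw, norm_sub_rev] at hpw
          linarith
        exact (pow_left_inj₀ (norm_nonneg _) (hS.pos q hq).le two_ne_zero).1 h6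
      rw [h4, norm_smul, h5, Real.norm_eq_abs, abs_of_pos h3.1]
      have h7 := hS.pos q hq
      have h8 : 0 < t * (2 - t) * q.2 ^ 2 := by
        have : 0 < 2 - t := by linarith [h3.2]
        have := h3.1
        positivity
      nlinarith
    · simp only
      linarith
  obtain ⟨s0, hs0⟩ := hinit
  choose nxt hnxt using hstep
  let s : ℕ → {s : H × ℝ // hS.Inv p0 ρ s} := fun n => nxt^[n] ⟨s0, hs0⟩
  have hs1 : ∀ n, s (n + 1) = nxt (s n) := fun n => Function.iterate_succ_apply' _ _ _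
  let x : ℕ → H := fun n => (s n).1.1
  have hr : ∀ n, (s n).1.2 = s0.2 / 2 ^ n := by
    intro n
    induction n with
    | zero => simp [s]
    | succ n ih => rw [hs1, (hnxt (s n)).1, ih, pow_succ]; field_simp
  have hdist : ∀ n, dist (x n) (x (n + 1)) ≤ (4 * s0.2) / 2 / 2 ^ n := by
    intro n
    have h1 := (hnxt (s n)).2.1
    rw [hr n, ← hs1] at h1
    rw [dist_comm]
    have h2 : (4 * s0.2) / 2 / 2 ^ n = 2 * (s0.2 / 2 ^ n) := by ring
    rw [h2]
    exact h1.le
  have hcauchy : CauchySeq x := cauchySeq_of_le_geometric_two hdist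
  obtain ⟨y, hy⟩ := cauchySeq_tendsto_of_complete hcauchy
  have hmono : Monotone fun n => hS.Act (x n) := by
    refine monotone_nat_of_le_succ fun n => ?_
    show hS.Act (s n).1.1 ⊆ hS.Act (s (n + 1)).1.1
    rw [hs1]
    exact (hnxt (s n)).2.2.1
  have hstrict : ∀ n, hS.Act (x n) ⊂ hS.Act (x (n + 1)) := by
    intro n
    refine ⟨hmono (Nat.le_succ n), fun hcon => ?_⟩
    obtain ⟨q, hq1, hq2⟩ := (hnxt (s n)).2.2.2
    rw [← hs1] at hq1
    exact hq2 (hcon hq1)
  have hcard : ∀ n, n ≤ (hS.Act (x n)).ncard := by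
    intro n
    induction n with
    | zero => exact Nat.zero_le _
    | succ n ih =>
      have := Set.ncard_lt_ncard (hstrict n) (hS.Act_finite _)
      omega
  have hsub : ∀ n, hS.Act (x n) ⊆ {p ∈ S | y ∈ Metric.closedBall p.1 p.2} := by
    intro n p hp
    refine ⟨hp.1, ?_⟩
    refine Metric.isClosed_closedBall.mem_of_tendsto hy ?_
    filter_upwards [eventually_ge_atTop n] with m hm
    have h1 := hmono hm hp
    rw [mem_ball_iff (hS.pos p hp.1), h1.2]
    exact hS.g_nonneg _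
  have h1 := Set.ncard_le_ncard (hsub ({p ∈ S | y ∈ Metric.closedBall p.1 p.2}.ncard + 1))
    (hS.fin y)
  have h2 := hcard ({p ∈ S | y ∈ Metric.closedBall p.1 p.2}.ncard + 1)
  omega

/-- **No infinite-dimensional real Hilbert space has a point-finite covering by closed balls of
positive radius.** -/
theorem no_point_finite_cover (hinf : ¬ FiniteDimensional ℝ H) (S : Set (H × ℝ))
    (hpos : ∀ p ∈ S, 0 < p.2) (hcov : ∀ x : H, ∃ p ∈ S, x ∈ Metric.closedBall p.1 p.2)
    (hfin : ∀ x : H, {p ∈ S | x ∈ Metric.closedBall p.1 p.2}.Finite) : False :=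
  Cov.false ⟨hpos, hcov, hfin⟩ hinf

end Pool.Agent.H826R3.HilbertCover
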