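import Mathlib

set_option autoImplicit false

namespace Pool.Agent.H826R3.HNT

open Metric Set

variable {H : Type*} [NormedAddCommGroup H] [InnerProductSpace ℝ H]

/-- On a segment from a point of the closed set `T` to a point outside there is a boundary
point of `T`. -/
theorem exists_boundary (T : Set H) (hT : IsClosed T) (z w : H) (hz : z ∈ T) (hw : w ∉ T) :
    ∃ t : ℝ, 0 ≤ t ∧ t ≤ 1 ∧ z + t • (w - z) ∈ T ∧ z + t • (w - z) ∉ interior T := by
  by_contra hcon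
  push Not at hcon
  have hcont : Continuous (fun t : ℝ => z + t • (w - z)) := by fun_prop
  have hpre : IsPreconnected ((fun t : ℝ => z + t • (w - z)) '' Icc (0 : ℝ) 1) :=
    isPreconnected_Icc.image _ hcont.continuousOn
  have hsub : ((fun t : ℝ => z + t • (w - z)) '' Icc (0 : ℝ) 1) ⊆ interior T ∪ Tᶜ := by
    rintro _ ⟨t, ht, rfl⟩
    by_cases h : z + t • (w - z) ∈ T
    · exact Or.inl (hcon t ht.1 ht.2 h)
    · exact Or.inr h
  have hdis : Disjoint (interior T) Tᶜ := by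
    rw [Set.disjoint_left]
    intro a ha hb
    exact hb (interior_subset ha)
  have hz' : z ∈ interior T := by
    have := hcon 0 le_rfl zero_le_one (by simpa using hz)
    simpa using this
  have hne : (((fun t : ℝ => z + t • (w - z)) '' Icc (0 : ℝ) 1) ∩ interior T).Nonempty :=
    ⟨z, ⟨0, ⟨le_rfl, zero_le_one⟩, by simp⟩, hz'⟩
  have := hpre.subset_left_of_subset_union isOpen_interior hT.isOpen_compl hdis hsub hne
  have hw' : w ∈ ((fun t : ℝ => z + t • (w - z)) '' Icc (0 : ℝ) 1) :=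
    ⟨1, ⟨zero_le_one, le_rfl⟩, by simp⟩
  exact hw (interior_subset (this hw'))

/-- Sliding a ball inside `T` in the direction `q` until it leaves `T`. -/
theorem sliding (T : Set H) (hT : IsClosed T) (z0 q : H) (ρ κ : ℝ) (hρ : 0 < ρ) (hκ : 0 < κ)
    (h0 : closedBall z0 ρ ⊆ T) (h1 : ¬ closedBall (z0 + q) ρ ⊆ T) :
    ∃ s : ℝ, 0 ≤ s ∧ s ≤ 1 ∧ closedBall (z0 + s • q) ρ ⊆ T ∧
      ∃ x ∈ T, x ∉ interior T ∧ ρ ≤ ‖x - (z0 + s • q)‖ ∧
        ‖x - (z0 + s • q)‖ ≤ (1 + κ) * ρ ∧ 0 < inner ℝ (x - (z0 + s • q)) q := by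
  classical
  obtain ⟨N, hN⟩ := exists_nat_gt (‖q‖ / (κ * ρ))
  have hκρ : 0 < κ * ρ := mul_pos hκ hρ
  have hN1 : (0 : ℝ) < (N : ℝ) + 1 := by positivity
  have hqN : ‖q‖ / ((N : ℝ) + 1) ≤ κ * ρ := by
    rw [div_le_iff₀ hN1]
    rw [div_lt_iff₀ hκρ] at hN
    nlinarith
  have hP : ∃ k : ℕ, ¬ closedBall (z0 + ((k : ℝ) / ((N : ℝ) + 1)) • q) ρ ⊆ T := by
    refine ⟨N + 1, ?_⟩
    have : (((N + 1 : ℕ) : ℝ) / ((N : ℝ) + 1)) = 1 := by
      push_cast
      exact div_self hN1.ne'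
    rw [this, one_smul]
    exact h1
  obtain ⟨k, hk, hkmin⟩ : ∃ k : ℕ, (¬ closedBall (z0 + ((k : ℝ) / ((N : ℝ) + 1)) • q) ρ ⊆ T) ∧
      ∀ j < k, closedBall (z0 + ((j : ℝ) / ((N : ℝ) + 1)) • q) ρ ⊆ T :=
    ⟨Nat.find hP, Nat.find_spec hP, fun j hj => not_not.1 (Nat.find_min hP hj)⟩
  have hkle : k ≤ N + 1 := by
    by_contra hlt
    push Not at hlt
    have h2 := hkmin (N + 1) hlt
    have : (((N + 1 : ℕ) : ℝ) / ((N : ℝ) + 1)) = 1 := by
      push_cast
      exact div_self hN1.ne'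
    rw [this, one_smul] at h2
    exact h1 h2
  have hk0 : k ≠ 0 := by
    rintro rfl
    apply hk
    simpa using h0
  obtain ⟨j, rfl⟩ := Nat.exists_eq_succ_of_ne_zero hk0
  have hj := hkmin j (Nat.lt_succ_self j)
  set s : ℝ := (j : ℝ) / ((N : ℝ) + 1) with hs
  set h : ℝ := 1 / ((N : ℝ) + 1) with hh
  have hhpos : 0 < h := by positivity
  set z : H := z0 + s • q with hz
  have hzk : z0 + (((j.succ : ℕ) : ℝ) / ((N : ℝ) + 1)) • q = z + h • q := by
    rw [hz, hs, hh, add_assoc, ← add_smul]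
    congr 2
    push_cast
    ring
  rw [hzk] at hk
  rw [Set.not_subset] at hk
  obtain ⟨w, hwb, hwT⟩ := hk
  rw [mem_closedBall, dist_eq_norm] at hwb
  have hwz : ρ < ‖w - z‖ := by
    by_contra hle
    push Not at hle
    apply hwT
    apply hj
    rw [mem_closedBall, dist_eq_norm]
    exact hle
  have hwk : w - (z + h • q) = (w - z) - h • q := by abel
  rw [hwk] at hwb
  have hhq : ‖h • q‖ ≤ κ * ρ := by
    rw [norm_smul, Real.norm_of_nonneg hhpos.le]
    calc h * ‖q‖ = ‖q‖ / ((N : ℝ) + 1) := by rw [hh]; ring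
      _ ≤ κ * ρ := hqN
  have hwz2 : ‖w - z‖ ≤ (1 + κ) * ρ := by
    have : w - z = ((w - z) - h • q) + h • q := by abel
    calc ‖w - z‖ = ‖((w - z) - h • q) + h • q‖ := by rw [← this]
      _ ≤ ‖(w - z) - h • q‖ + ‖h • q‖ := norm_add_le _ _
      _ ≤ ρ + κ * ρ := add_le_add hwb hhq
      _ = (1 + κ) * ρ := by ring
  have hinner : 0 < inner ℝ (w - z) q := by
    have h3 : ‖(w - z) - h • q‖ ^ 2 = ‖w - z‖ ^ 2 - 2 * (h * inner ℝ (w - z) q) + ‖h • q‖ ^ 2 := by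
      rw [norm_sub_sq_real, inner_smul_right]
    have h4 : ‖(w - z) - h • q‖ ^ 2 ≤ ρ ^ 2 := by
      apply pow_le_pow_left₀ (norm_nonneg _) hwb
    have h5 : ρ ^ 2 < ‖w - z‖ ^ 2 := by
      apply pow_lt_pow_left₀ hwz hρ.le (by norm_num)
    have h6 : 0 < h * inner ℝ (w - z) q := by
      have := sq_nonneg ‖h • q‖
      nlinarith
    exact (mul_pos_iff_of_pos_left hhpos).1 h6
  have hzT : z ∈ T := hj (mem_closedBall_self hρ.le)
  obtain ⟨t, ht0, ht1, htT, htI⟩ := exists_boundary T hT z w hzT hwT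
  have hxz : (z + t • (w - z)) - z = t • (w - z) := by abel
  have htpos : 0 < t := by
    rcases ht0.lt_or_eq with h | h
    · exact h
    · exfalso
      apply htI
      rw [← h]
      rw [zero_smul, add_zero]
      exact mem_interior.2 ⟨ball z ρ, ball_subset_closedBall.trans hj, isOpen_ball,
        mem_ball_self hρ⟩
  refine ⟨s, by positivity, ?_, hj, z + t • (w - z), htT, htI, ?_, ?_, ?_⟩
  · rw [hs, div_le_one hN1]
    have : ((j.succ : ℕ) : ℝ) ≤ ((N + 1 : ℕ) : ℝ) := by exact_mod_cast hkle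
    push_cast at this
    linarith
  · by_contra hlt
    push Not at hlt
    apply htI
    refine mem_interior.2 ⟨ball z ρ, ball_subset_closedBall.trans hj, isOpen_ball, ?_⟩
    rw [mem_ball, dist_eq_norm]
    exact hlt
  · rw [hxz, norm_smul, Real.norm_of_nonneg ht0]
    calc t * ‖w - z‖ ≤ 1 * ‖w - z‖ := by gcongr
      _ ≤ (1 + κ) * ρ := by rw [one_mul]; exact hwz2
  · rw [hxz, inner_smul_left]
    exact mul_pos htpos hinner

/-- Unit separating vector between two disjoint convex sets. -/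
theorem sep [CompleteSpace H] (T T' : Set H) (hT : Convex ℝ T)
    (hTi : (interior T).Nonempty) (hT' : Convex ℝ T') (hne' : T'.Nonempty)
    (hd : Disjoint T T') :
    ∃ g : H, ‖g‖ = 1 ∧ ∀ t ∈ T, ∀ t' ∈ T', inner ℝ g t ≤ inner ℝ g t' := by
  obtain ⟨f, u, hf0, hfT, hfT'⟩ := geometric_hahn_banach_of_nonempty_interior hT hT'
    (hd.mono_left interior_subset) hTi hne'
  set g0 : H := (InnerProductSpace.toDual ℝ H).symm f with hg0
  have hg0n : g0 ≠ 0 := by
    intro h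
    apply hf0
    have : f = InnerProductSpace.toDual ℝ H g0 := by rw [hg0]; simp
    rw [this, h]
    simp
  have hfg : ∀ v, inner ℝ g0 v = f v := by
    intro v
    rw [hg0]
    simp
  refine ⟨‖g0‖⁻¹ • g0, norm_smul_inv_norm hg0n, ?_⟩
  intro t ht t' ht'
  rw [real_inner_smul_left, real_inner_smul_left, hfg, hfg]
  exact mul_le_mul_of_nonneg_left ((hfT t ht).trans (hfT' t' ht')) (by positivity)

/-- A separating vector is close to the normal of an inner ball that nearly touches. -/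
theorem near_normal (T T' : Set H) (g z x x' : H) (r e : ℝ) (hr : 0 < r) (he : 0 < e)
    (he1 : e ≤ 1) (hg : ‖g‖ = 1) (hsep : ∀ t ∈ T, ∀ t' ∈ T', inner ℝ g t ≤ inner ℝ g t')
    (hball : closedBall z r ⊆ T) (h1 : r ≤ ‖x - z‖) (h2 : ‖x - z‖ ≤ (1 + e ^ 2) * r)
    (hx' : x' ∈ T') (hxx' : ‖x' - x‖ ≤ e ^ 2 * r) :
    ‖g - ‖x - z‖⁻¹ • (x - z)‖ ≤ 2 * e := by
  have hn : 0 < ‖x - z‖ := lt_of_lt_of_le hr h1
  have hxz : x - z ≠ 0 := norm_pos_iff.1 hn
  have hu : ‖‖x - z‖⁻¹ • (x - z)‖ = 1 := norm_smul_inv_norm hxz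
  have hin : (1 - e ^ 2) * r ≤ inner ℝ g (x - z) := by
    have h3 : inner ℝ g (z + r • g) ≤ inner ℝ g x' := by
      apply hsep _ _ _ hx'
      apply hball
      rw [mem_closedBall, dist_eq_norm, add_sub_cancel_left, norm_smul, hg,
        Real.norm_of_nonneg hr.le, mul_one]
    have h4 : inner ℝ g (z + r • g) = inner ℝ g z + r := by
      rw [inner_add_right, real_inner_smul_right, real_inner_self_eq_norm_sq, hg]
      ring
    have h5 : inner ℝ g x' = inner ℝ g x + inner ℝ g (x' - x) := by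
      rw [inner_sub_right]; ring
    have h6 : inner ℝ g (x' - x) ≤ e ^ 2 * r := by
      calc inner ℝ g (x' - x) ≤ ‖g‖ * ‖x' - x‖ := real_inner_le_norm _ _
        _ ≤ e ^ 2 * r := by rw [hg, one_mul]; exact hxx'
    rw [inner_sub_right]
    nlinarith
  have hgu : 1 - 2 * e ^ 2 ≤ inner ℝ g (‖x - z‖⁻¹ • (x - z)) := by
    rw [real_inner_smul_right, ← div_eq_inv_mul, le_div_iff₀ hn]
    have he2 : e ^ 2 ≤ 1 := by nlinarith
    by_cases hc : 0 ≤ 1 - 2 * e ^ 2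
    · calc (1 - 2 * e ^ 2) * ‖x - z‖ ≤ (1 - 2 * e ^ 2) * ((1 + e ^ 2) * r) := by gcongr
        _ ≤ (1 - e ^ 2) * r := by
            have : 0 ≤ e ^ 2 := sq_nonneg e
            nlinarith [mul_nonneg (mul_nonneg this this) hr.le]
        _ ≤ _ := hin
    · push Not at hc
      calc (1 - 2 * e ^ 2) * ‖x - z‖ ≤ 0 := by
            apply mul_nonpos_of_nonpos_of_nonneg hc.le hn.le
        _ ≤ (1 - e ^ 2) * r := by
            apply mul_nonneg _ hr.le
            linarith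
        _ ≤ _ := hin
  have hsq : ‖g - ‖x - z‖⁻¹ • (x - z)‖ ^ 2 ≤ (2 * e) ^ 2 := by
    rw [norm_sub_sq_real, hg, hu]
    nlinarith
  exact (pow_le_pow_iff_left₀ (norm_nonneg _) (by positivity) (by norm_num)).1 hsq


/-- A body on the other side of the separating hyperplane has its center on the positive side of
the inner-ball normal. -/
theorem center_bound (T T' : Set H) (g z x x' y : H) (r e r0 R0 : ℝ) (hr : 0 < r) (hr1 : r ≤ 1)
    (he : 0 < e) (he1 : e ≤ 1) (hg : ‖g‖ = 1)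
    (hsep : ∀ t ∈ T, ∀ t' ∈ T', inner ℝ g t ≤ inner ℝ g t')
    (hball : closedBall z r ⊆ T) (hx : x ∈ T) (h1 : r ≤ ‖x - z‖)
    (h2 : ‖x - z‖ ≤ (1 + e ^ 2) * r)
    (hx' : x' ∈ T') (hxx' : ‖x' - x‖ ≤ e ^ 2 * r) (hr0 : 0 < r0)
    (hy : closedBall y r0 ⊆ T') (hy' : T' ⊆ closedBall y R0) :
    r0 - 2 * e * (R0 + 1) ≤ inner ℝ (‖x - z‖⁻¹ • (x - z)) (y - x) := by
  have hnear := near_normal T T' g z x x' r e hr he he1 hg hsep hball h1 h2 hx' hxx'
  set u : H := ‖x - z‖⁻¹ • (x - z) with hu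
  have h3 : r0 ≤ inner ℝ g (y - x) := by
    have h4 : inner ℝ g x ≤ inner ℝ g (y - r0 • g) := by
      apply hsep _ hx
      apply hy
      rw [mem_closedBall, dist_eq_norm, sub_sub_cancel_left, norm_neg, norm_smul, hg,
        Real.norm_of_nonneg hr0.le, mul_one]
    rw [inner_sub_right, real_inner_smul_right, real_inner_self_eq_norm_sq, hg] at h4
    rw [inner_sub_right]
    linarith
  have hyx : ‖y - x‖ ≤ R0 + 1 := by
    have h5 : ‖x' - y‖ ≤ R0 := by
      have := hy' hx'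
      rwa [mem_closedBall, dist_eq_norm] at this
    have h6 : ‖x' - x‖ ≤ 1 := by
      refine hxx'.trans ?_
      have : e ^ 2 ≤ 1 := by nlinarith
      nlinarith
    calc ‖y - x‖ = ‖(x' - x) - (x' - y)‖ := by congr 1; abel
      _ ≤ ‖x' - x‖ + ‖x' - y‖ := norm_sub_le _ _
      _ ≤ R0 + 1 := by linarith
  have h7 : inner ℝ (g - u) (y - x) ≤ 2 * e * (R0 + 1) := by
    calc inner ℝ (g - u) (y - x) ≤ ‖g - u‖ * ‖y - x‖ := real_inner_le_norm _ _
      _ ≤ 2 * e * (R0 + 1) := by gcongr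
  rw [inner_sub_left] at h7
  linarith

/-- The data of a disjoint tiling. -/
structure Setup (TT : Set (Set H)) : Prop where
  closed : ∀ C ∈ TT, IsClosed C
  convex : ∀ C ∈ TT, Convex ℝ C
  inter : ∀ C ∈ TT, (interior C).Nonempty
  bdd : ∀ C ∈ TT, Bornology.IsBounded C
  disj : ∀ C ∈ TT, ∀ D ∈ TT, ∀ x, x ∈ C → x ∈ D → C = D
  cover : ∀ x, ∃ C ∈ TT, x ∈ C

/-- Singular points of the tiling accumulate, outside the tile, at each boundary point of a
tile. -/
theorem singular_near (TT : Set (Set H)) (hS : Setup TT) (T : Set H) (hT : T ∈ TT) (x : H)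
    (hx : x ∈ T) (hxi : x ∉ interior T) (ε : ℝ) (hε : 0 < ε) :
    ∃ x', x' ∉ T ∧ (∀ C ∈ TT, x' ∉ interior C) ∧ ‖x' - x‖ < ε := by
  obtain ⟨f, hf0, hf⟩ := geometric_hahn_banach_of_nonempty_interior_point (hS.convex T hT) hxi
    (hS.inter T hT)
  obtain ⟨v, hv⟩ : ∃ v : H, 0 < f v := by
    by_contra hcon
    push Not at hcon
    apply hf0
    ext v
    have h1 := hcon v
    have h2 := hcon (-v)
    rw [map_neg] at h2
    simp only [ContinuousLinearMap.zero_apply]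
    linarith
  have hv0 : v ≠ 0 := by
    rintro rfl
    simp at hv
  have hvn : 0 < ‖v‖ := norm_pos_iff.2 hv0
  set η : ℝ := ε / ‖v‖ with hη
  have hηpos : 0 < η := by positivity
  have hout : ∀ t : ℝ, 0 < t → x + t • v ∉ T := by
    intro t ht hmem
    have := hf _ hmem
    rw [map_add, map_smul, smul_eq_mul] at this
    have := mul_pos ht hv
    linarith
  by_contra hcon
  push Not at hcon
  have hcov : ∀ t : ℝ, t ∈ Ioo 0 η → ∃ C ∈ TT, x + t • v ∈ interior C := by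
    intro t ht
    by_contra hno
    push Not at hno
    have h1 := hcon (x + t • v) (hout t ht.1) hno
    rw [add_sub_cancel_left, norm_smul, Real.norm_of_nonneg ht.1.le] at h1
    have h2 : t * ‖v‖ < ε := by
      have := ht.2
      rw [hη, lt_div_iff₀ hvn] at this
      exact this
    linarith
  have hmid : η / 2 ∈ Ioo 0 η := ⟨by positivity, by linarith⟩
  obtain ⟨C0, hC0, hC0i⟩ := hcov (η / 2) hmid
  have hcont : Continuous (fun t : ℝ => x + t • v) := by fun_prop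
  have hpre : IsPreconnected ((fun t : ℝ => x + t • v) '' Ioo (0 : ℝ) η) :=
    isPreconnected_Ioo.image _ hcont.continuousOn
  have hopen : IsOpen (⋃ C ∈ {C | C ∈ TT ∧ C ≠ C0}, interior C) :=
    isOpen_biUnion fun C _ => isOpen_interior
  have hdis : Disjoint (interior C0) (⋃ C ∈ {C | C ∈ TT ∧ C ≠ C0}, interior C) := by
    rw [Set.disjoint_left]
    intro a ha hb
    simp only [mem_iUnion, mem_setOf_eq, exists_prop] at hb
    obtain ⟨C, ⟨hC, hne⟩, haC⟩ := hb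
    exact hne (hS.disj C hC C0 hC0 a (interior_subset haC) (interior_subset ha))
  have hsub : ((fun t : ℝ => x + t • v) '' Ioo (0 : ℝ) η) ⊆
      interior C0 ∪ (⋃ C ∈ {C | C ∈ TT ∧ C ≠ C0}, interior C) := by
    rintro _ ⟨t, ht, rfl⟩
    obtain ⟨C, hC, hCi⟩ := hcov t ht
    by_cases h : C = C0
    · left
      rw [← h]
      exact hCi
    · right
      simp only [mem_iUnion, mem_setOf_eq, exists_prop]
      exact ⟨C, ⟨hC, h⟩, hCi⟩
  have hall := hpre.subset_left_of_subset_union isOpen_interior hopen hdis hsub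
    ⟨_, ⟨η / 2, hmid, rfl⟩, hC0i⟩
  have hxC0 : x ∈ C0 := by
    have hcl := hS.closed C0 hC0
    rw [← hcl.closure_eq]
    have htend : Filter.Tendsto (fun t : ℝ => x + t • v) (nhdsWithin 0 (Ioo 0 η)) (nhds x) := by
      have : Filter.Tendsto (fun t : ℝ => x + t • v) (nhds 0) (nhds (x + (0 : ℝ) • v)) :=
        hcont.tendsto 0
      rw [zero_smul, add_zero] at this
      exact this.mono_left nhdsWithin_le_nhds
    haveI : (nhdsWithin (0 : ℝ) (Ioo 0 η)).NeBot := by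
      rw [← mem_closure_iff_nhdsWithin_neBot, closure_Ioo hηpos.ne]
      exact ⟨le_rfl, hηpos.le⟩
    refine mem_closure_of_tendsto htend ?_
    filter_upwards [self_mem_nhdsWithin] with t ht
    exact interior_subset (hall ⟨t, ht, rfl⟩)
  have hC0T : C0 = T := hS.disj C0 hC0 T hT x hxC0 hx
  apply hout (η / 2) hmid.1
  rw [← hC0T]
  exact interior_subset hC0i


/-- Bodies of controlled inner radius and diameter. -/
def Cls (r0 R0 : ℝ) (C : Set H) : Prop := ∃ y, closedBall y r0 ⊆ C ∧ C ⊆ closedBall y R0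

/-- Near every singular point of the ball `ball xs ρ` there are controlled tiles, touched at a
boundary point. -/
def Dense' (TT : Set (Set H)) (r0 R0 : ℝ) (xs : H) (ρ : ℝ) : Prop :=
  ∀ x ∈ ball xs ρ, (∀ C ∈ TT, x ∉ interior C) → ∀ ε > 0,
    ∃ C ∈ TT, Cls r0 R0 C ∧ ∃ x' ∈ C, x' ∉ interior C ∧ ‖x' - x‖ < ε

/-- `p` blocks the centres of all controlled tiles near `x`, except `T`. -/
def Blk (TT : Set (Set H)) (r0 R0 : ℝ) (x : H) (T : Set H) (p : H) : Prop :=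
  ∃ δ > 0, ∃ c > r0 / 2, ∀ T' ∈ TT, T' ≠ T → (∃ t ∈ T', ‖t - x‖ < δ) →
    ∀ y, closedBall y r0 ⊆ T' → T' ⊆ closedBall y R0 → c ≤ inner ℝ p (y - x)

theorem near_class (TT : Set (Set H)) (hS : Setup TT) (r0 R0 : ℝ) (xs : H) (ρ : ℝ)
    (hD : Dense' TT r0 R0 xs ρ) (T : Set H) (hT : T ∈ TT) (x : H)
    (hx : x ∈ T) (hxi : x ∉ interior T) (hxU : x ∈ ball xs ρ) (ε : ℝ) (hε : 0 < ε) :
    ∃ C ∈ TT, C ≠ T ∧ Cls r0 R0 C ∧ ∃ x' ∈ C, x' ∉ interior C ∧ ‖x' - x‖ < ε := by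
  obtain ⟨ρ', hρ', hsub⟩ := Metric.isOpen_ball.mem_nhds hxU |> Metric.mem_nhds_iff.1
  obtain ⟨x1, hx1T, hx1S, hx1⟩ := singular_near TT hS T hT x hx hxi (min (ε / 2) ρ')
    (lt_min (by positivity) hρ')
  have hx1U : x1 ∈ ball xs ρ := by
    apply hsub
    rw [mem_ball, dist_eq_norm]
    exact hx1.trans_le (min_le_right _ _)
  obtain ⟨ε', hε', hsub'⟩ := Metric.mem_nhds_iff.1 ((hS.closed T hT).isOpen_compl.mem_nhds hx1T)
  obtain ⟨C, hC, hCc, x', hx'C, hx'i, hx'⟩ := hD x1 hx1U hx1S (min (ε / 2) ε')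
    (lt_min (by positivity) hε')
  have hx'T : x' ∉ T := by
    have : x' ∈ Tᶜ := by
      apply hsub'
      rw [mem_ball, dist_eq_norm]
      exact hx'.trans_le (min_le_right _ _)
    exact this
  refine ⟨C, hC, ?_, hCc, x', hx'C, hx'i, ?_⟩
  · rintro rfl
    exact hx'T hx'C
  · have h1 : ‖x' - x1‖ < ε / 2 := hx'.trans_le (min_le_left _ _)
    have h2 : ‖x1 - x‖ < ε / 2 := hx1.trans_le (min_le_left _ _)
    calc ‖x' - x‖ = ‖(x' - x1) + (x1 - x)‖ := by congr 1; abel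
      _ ≤ ‖x' - x1‖ + ‖x1 - x‖ := norm_add_le _ _
      _ < ε := by linarith

/-- A blocking vector cannot be small. -/
theorem blk_lower (TT : Set (Set H)) (hS : Setup TT) (r0 R0 : ℝ) (hr0 : 0 < r0) (hR0 : 1 ≤ R0)
    (xs : H) (ρ : ℝ)
    (hD : Dense' TT r0 R0 xs ρ) (T : Set H) (hT : T ∈ TT) (x : H)
    (hx : x ∈ T) (hxi : x ∉ interior T) (hxU : x ∈ ball xs ρ) (p : H)
    (hB : Blk TT r0 R0 x T p) : r0 / (4 * R0) ≤ ‖p‖ := by
  obtain ⟨δ, hδ, c, hc, hB⟩ := hB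
  obtain ⟨C, hC, hCT, ⟨y, hy, hy'⟩, x', hx'C, hx'i, hx'⟩ :=
    near_class TT hS r0 R0 xs ρ hD T hT x hx hxi hxU (min δ R0) (lt_min hδ (by linarith))
  have h1 := hB C hC hCT ⟨x', hx'C, hx'.trans_le (min_le_left _ _)⟩ y hy hy'
  have h2 : ‖x' - y‖ ≤ R0 := by
    have := hy' hx'C
    rwa [mem_closedBall, dist_eq_norm] at this
  have h3 : ‖x' - x‖ ≤ R0 := (hx'.trans_le (min_le_right _ _)).le
  have h4 : ‖y - x‖ ≤ 2 * R0 := by
    calc ‖y - x‖ = ‖(x' - x) - (x' - y)‖ := by congr 1; abel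
      _ ≤ ‖x' - x‖ + ‖x' - y‖ := norm_sub_le _ _
      _ ≤ 2 * R0 := by linarith
  have h5 : inner ℝ p (y - x) ≤ ‖p‖ * (2 * R0) := by
    calc inner ℝ p (y - x) ≤ ‖p‖ * ‖y - x‖ := real_inner_le_norm _ _
      _ ≤ ‖p‖ * (2 * R0) := by gcongr
  rw [div_le_iff₀ (by positivity)]
  nlinarith

/-- The state of the construction. -/
def State (TT : Set (Set H)) (r0 R0 e : ℝ) (xs : H) (ρ : ℝ) (p : H) : Prop :=
  ‖p‖ ≤ 1 ∧ ∃ T ∈ TT, ∃ x ∈ T, x ∉ interior T ∧ x ∈ ball xs ρ ∧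
    (∃ z r, 0 < r ∧ r ≤ 1 ∧ closedBall z r ⊆ T ∧ r ≤ ‖x - z‖ ∧ ‖x - z‖ ≤ (1 + e ^ 2) * r ∧
      ‖p‖ ^ 2 ≤ inner ℝ (‖x - z‖⁻¹ • (x - z)) p) ∧ Blk TT r0 R0 x T p

/-- The inner-ball normal blocks. -/
theorem blk_normal [CompleteSpace H] (TT : Set (Set H)) (hS : Setup TT) (r0 R0 e : ℝ)
    (hr0 : 0 < r0) (hR0 : 1 ≤ R0)
    (he : 0 < e) (he1 : e ≤ 1) (heR : 2 * e * (R0 + 1) ≤ r0 / 8) (T : Set H) (hT : T ∈ TT)
    (x z : H) (hx : x ∈ T)
    (r : ℝ) (hr : 0 < r) (hr1 : r ≤ 1) (hball : closedBall z r ⊆ T) (h1 : r ≤ ‖x - z‖)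
    (h2 : ‖x - z‖ ≤ (1 + e ^ 2) * r) (T' : Set H) (hT' : T' ∈ TT) (hne : T' ≠ T) (t : H)
    (ht : t ∈ T') (htx : ‖t - x‖ ≤ e ^ 2 * r) (y : H) (hy : closedBall y r0 ⊆ T')
    (hy' : T' ⊆ closedBall y R0) :
    7 / 8 * r0 ≤ inner ℝ (‖x - z‖⁻¹ • (x - z)) (y - x) := by
  have hd : Disjoint T T' := by
    rw [Set.disjoint_left]
    intro a ha hb
    exact hne (hS.disj T hT T' hT' a ha hb).symm
  obtain ⟨g, hg, hsep⟩ := sep T T' (hS.convex T hT) (hS.inter T hT) (hS.convex T' hT') ⟨t, ht⟩ hd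
  have := center_bound T T' g z x t y r e r0 R0 hr hr1 he he1 hg hsep hball hx h1 h2 ht htx hr0
    hy hy'
  linarith


theorem alg1 (P a D l : ℝ) (hD : D ≠ 0) (hDe : D = P + 1 - 2 * a) (hl : l = (P - a) / D) :
    (1 - l) ^ 2 * P + 2 * (1 - l) * l * a + l ^ 2 = (P - a ^ 2) / D := by
  have h1 : 1 - l = (1 - a) / D := by
    rw [hl, eq_div_iff hD, sub_mul, div_mul_cancel₀ _ hD, hDe]
    ring
  rw [h1, hl, eq_div_iff hD]
  have : ((1 - a) / D) ^ 2 * P + 2 * ((1 - a) / D) * ((P - a) / D) * a + ((P - a) / D) ^ 2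
      = ((1 - a) ^ 2 * P + 2 * (1 - a) * (P - a) * a + (P - a) ^ 2) / D ^ 2 := by
    field_simp
  rw [this, div_mul_eq_mul_div, div_eq_iff (pow_ne_zero 2 hD), hDe]
  ring

theorem alg2 (P a D l : ℝ) (hD : D ≠ 0) (hDe : D = P + 1 - 2 * a) (hl : l = (P - a) / D) :
    (1 - l) * a + l * 1 ^ 2 = (P - a ^ 2) / D := by
  have h1 : 1 - l = (1 - a) / D := by
    rw [hl, eq_div_iff hD, sub_mul, div_mul_cancel₀ _ hD, hDe]
    ring
  rw [h1, hl, div_mul_eq_mul_div, div_mul_eq_mul_div, ← add_div]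
  congr 1
  ring

/-- The minimal norm point of a segment. -/
theorem min_point (p g : H) (hg : ‖g‖ = 1) (hp : ‖p‖ ≤ 1) (ha : inner ℝ g p < 0) :
    ∃ l : ℝ, 0 < l ∧ l < 1 ∧ ‖(1 - l) • p + l • g‖ ≤ 1 ∧
      ‖(1 - l) • p + l • g‖ ^ 2 ≤ inner ℝ g ((1 - l) • p + l • g) ∧
      ‖(1 - l) • p + l • g‖ ^ 2 ≤ ‖p‖ ^ 2 / (1 + ‖p‖ ^ 2) := by
  set P : ℝ := ‖p‖ ^ 2 with hP
  set a : ℝ := inner ℝ g p with hadef
  have hP0 : 0 ≤ P := sq_nonneg _
  have hD : 0 < P + 1 - 2 * a := by linarith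
  have hD' : P + 1 - 2 * a ≠ 0 := hD.ne'
  have hgp : inner ℝ p g = a := real_inner_comm _ _
  set l : ℝ := (P - a) / (P + 1 - 2 * a) with hl
  have hl0 : 0 < l := div_pos (by linarith) hD
  have hl1 : l < 1 := by
    rw [hl, div_lt_one hD]
    linarith
  have hnorm : ‖(1 - l) • p + l • g‖ ^ 2 = (1 - l) ^ 2 * P + 2 * (1 - l) * l * a + l ^ 2 := by
    rw [norm_add_sq_real, norm_smul, norm_smul, real_inner_smul_left, real_inner_smul_right, hgp,
      hg, Real.norm_of_nonneg (by linarith : (0 : ℝ) ≤ 1 - l), Real.norm_of_nonneg hl0.le, hP]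
    ring
  have hval : (1 - l) ^ 2 * P + 2 * (1 - l) * l * a + l ^ 2 = (P - a ^ 2) / (P + 1 - 2 * a) :=
    alg1 P a _ l hD' rfl hl
  have hin : inner ℝ g ((1 - l) • p + l • g) = (P - a ^ 2) / (P + 1 - 2 * a) := by
    rw [inner_add_right, real_inner_smul_right, real_inner_smul_right, real_inner_self_eq_norm_sq,
      hg, ← hadef]
    exact alg2 P a _ l hD' rfl hl
  refine ⟨l, hl0, hl1, ?_, ?_, ?_⟩
  · calc ‖(1 - l) • p + l • g‖ ≤ ‖(1 - l) • p‖ + ‖l • g‖ := norm_add_le _ _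
      _ = (1 - l) * ‖p‖ + l := by
          rw [norm_smul, norm_smul, hg, Real.norm_of_nonneg (by linarith : (0 : ℝ) ≤ 1 - l),
            Real.norm_of_nonneg hl0.le, mul_one]
      _ ≤ (1 - l) * 1 + l := by
          gcongr
      _ = 1 := by ring
  · rw [hnorm, hval, hin]
  · rw [hnorm, hval, div_le_div_iff₀ hD (by linarith)]
    nlinarith [sq_nonneg a, mul_nonneg hP0 (neg_nonneg.2 ha.le)]

theorem convex_le (l m A B : ℝ) (h0 : 0 ≤ l) (h1 : l ≤ 1) (hA : m ≤ A) (hB : m ≤ B) :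
    m ≤ (1 - l) * A + l * B := by
  nlinarith

/-- One step of the construction. -/
theorem step [CompleteSpace H] (TT : Set (Set H)) (hS : Setup TT) (r0 R0 e : ℝ)
    (hr0 : 0 < r0) (hr01 : r0 ≤ 1) (hR0 : 1 ≤ R0)
    (he : 0 < e) (he1 : e ≤ 1) (heR : 2 * e * (R0 + 1) ≤ r0 / 8)
    (hek : 4 * e ≤ r0 / (4 * R0)) (xs : H) (ρ : ℝ)
    (hD : Dense' TT r0 R0 xs ρ) (p : H) (hp : State TT r0 R0 e xs ρ p) :
    ∃ p', State TT r0 R0 e xs ρ p' ∧ ‖p'‖ ^ 2 ≤ ‖p‖ ^ 2 / (1 + ‖p‖ ^ 2) := by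
  obtain ⟨hp1, T, hT, x, hx, hxi, hxU, ⟨z, r, hr, hr1, hball, h1, h2, hup⟩, hB⟩ := hp
  have hlow := blk_lower TT hS r0 R0 hr0 hR0 xs ρ hD T hT x hx hxi hxU p hB
  set κ : ℝ := r0 / (4 * R0) with hκ
  have hκ0 : 0 < κ := by positivity
  have hpn : 0 < ‖p‖ := lt_of_lt_of_le hκ0 hlow
  obtain ⟨δ, hδ, c, hc, hB⟩ := hB
  set u : H := ‖x - z‖⁻¹ • (x - z) with hu
  obtain ⟨ρ', hρ', hsubU⟩ := Metric.mem_nhds_iff.1 (Metric.isOpen_ball.mem_nhds hxU)
  -- the target distance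
  set η : ℝ := min (min (δ / 2) ((c - r0 / 2) / 2)) ρ' with hη
  have hη0 : 0 < η := lt_min (lt_min (by positivity) (by linarith)) hρ'
  have hη1 : η ≤ δ / 2 := (min_le_left _ _).trans (min_le_left _ _)
  have hη2 : η ≤ (c - r0 / 2) / 2 := (min_le_left _ _).trans (min_le_right _ _)
  have hη3 : η ≤ ρ' := min_le_right _ _
  -- the small distance
  set d : ℝ := min (min (e ^ 2 * r) (η / (5 + 4 / κ))) 1 with hd
  have hd0 : 0 < d := lt_min (lt_min (by positivity) (by positivity)) one_pos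
  have hd1 : d ≤ e ^ 2 * r := (min_le_left _ _).trans (min_le_left _ _)
  have hd2 : d ≤ η / (5 + 4 / κ) := (min_le_left _ _).trans (min_le_right _ _)
  have hd3 : d ≤ 1 := min_le_right _ _
  obtain ⟨T', hT', hne, ⟨y, hy, hy'⟩, x', hx'T, hx'i, hx'⟩ :=
    near_class TT hS r0 R0 xs ρ hD T hT x hx hxi hxU d hd0
  have hdisj : Disjoint T T' := by
    rw [Set.disjoint_left]
    intro a ha hb
    exact hne (hS.disj T hT T' hT' a ha hb).symm
  obtain ⟨g, hg, hsep⟩ := sep T T' (hS.convex T hT) (hS.inter T hT) (hS.convex T' hT')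
    ⟨x', hx'T⟩ hdisj
  have hgu : ‖g - u‖ ≤ 2 * e :=
    near_normal T T' g z x x' r e hr he he1 hg hsep hball h1 h2 hx'T (hx'.le.trans hd1)
  have hgp : ‖p‖ ^ 2 / 2 ≤ inner ℝ g p := by
    have h3 : inner ℝ (u - g) p ≤ 2 * e * ‖p‖ := by
      calc inner ℝ (u - g) p ≤ ‖u - g‖ * ‖p‖ := real_inner_le_norm _ _
        _ ≤ 2 * e * ‖p‖ := by
            rw [norm_sub_rev]
            gcongr
    rw [inner_sub_left] at h3
    have h4 : 2 * e ≤ ‖p‖ / 2 := by linarith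
    nlinarith
  -- the first interior ball
  set τ : ℝ := d / R0 with hτ
  have hR0' : 0 < R0 := by linarith
  have hτ0 : 0 < τ := by positivity
  have hτ1 : τ ≤ 1 := by
    rw [hτ, div_le_one hR0']
    linarith
  have hτR : τ * R0 = d := by
    rw [hτ]
    field_simp
  have hyx' : ‖y - x'‖ ≤ R0 := by
    have := hy' hx'T
    rwa [mem_closedBall, dist_eq_norm, norm_sub_rev] at this
  have hr0R : r0 ≤ R0 := by linarith
  set z0 : H := x' + τ • (y - x') with hz0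
  set σ : ℝ := τ * r0 with hσ
  have hσ0 : 0 < σ := by positivity
  have hσd : σ ≤ d := by
    rw [hσ, ← hτR]
    gcongr
  have hz0ball : closedBall z0 σ ⊆ T' := by
    intro v hv
    rw [mem_closedBall, dist_eq_norm] at hv
    have hw : y + τ⁻¹ • (v - z0) ∈ T' := by
      apply hy
      rw [mem_closedBall, dist_eq_norm, add_sub_cancel_left, norm_smul, norm_inv,
        Real.norm_of_nonneg hτ0.le, inv_mul_le_iff₀ hτ0]
      exact hv
    have hconv := (hS.convex T' hT') hx'T hw (by linarith : (0 : ℝ) ≤ 1 - τ) hτ0.le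
      (by ring : (1 - τ) + τ = 1)
    have hv' : (1 - τ) • x' + τ • (y + τ⁻¹ • (v - z0)) = v := by
      rw [smul_add, smul_smul, mul_inv_cancel₀ hτ0.ne', one_smul, hz0]
      module
    rwa [hv'] at hconv
  have hz0x : ‖z0 - x‖ ≤ 2 * d := by
    have : z0 - x = (x' - x) + τ • (y - x') := by rw [hz0]; abel
    rw [this]
    calc ‖(x' - x) + τ • (y - x')‖ ≤ ‖x' - x‖ + ‖τ • (y - x')‖ := norm_add_le _ _
      _ ≤ d + τ * R0 := by
          rw [norm_smul, Real.norm_of_nonneg hτ0.le]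
          gcongr
      _ = 2 * d := by rw [hτR]; ring
  -- exit estimate
  have hexit : ∀ s : ℝ, 0 ≤ s → z0 - s • p ∈ T' → s * (‖p‖ ^ 2 / 2) ≤ 2 * d := by
    intro s hs0 hmem
    have h3 := hsep x hx _ hmem
    rw [inner_sub_right, real_inner_smul_right] at h3
    have h4 : inner ℝ g (z0 - x) ≤ 2 * d := by
      calc inner ℝ g (z0 - x) ≤ ‖g‖ * ‖z0 - x‖ := real_inner_le_norm _ _
        _ ≤ 2 * d := by rw [hg, one_mul]; exact hz0x
    rw [inner_sub_right] at h4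
    have h5 : s * (‖p‖ ^ 2 / 2) ≤ s * inner ℝ g p := by gcongr
    linarith
  set M : ℝ := 4 * d / ‖p‖ ^ 2 + 1 with hM
  have hM0 : 0 < M := by positivity
  have hMout : z0 - M • p ∉ T' := by
    intro hmem
    have h3 := hexit M hM0.le hmem
    have h4 : M * (‖p‖ ^ 2 / 2) = 2 * d + ‖p‖ ^ 2 / 2 := by
      rw [hM]
      field_simp
      ring
    have h5 : 0 < ‖p‖ ^ 2 := by positivity
    linarith
  set q : H := -(M • p) with hq
  have hqout : ¬ closedBall (z0 + q) σ ⊆ T' := by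
    intro hcon
    apply hMout
    have := hcon (mem_closedBall_self hσ0.le)
    rwa [hq, ← sub_eq_add_neg] at this
  obtain ⟨s, hs0, hs1, hz1ball, xn, hxnT, hxni, hn1, hn2, hn3⟩ :=
    sliding T' (hS.closed T' hT') z0 q σ (e ^ 2) hσ0 (by positivity) hz0ball hqout
  set z1 : H := z0 + s • q with hz1
  have hz1' : z1 = z0 - (s * M) • p := by
    rw [hz1, hq, smul_neg, smul_smul, sub_eq_add_neg]
  have hz1T : z1 ∈ T' := hz1ball (mem_closedBall_self hσ0.le)
  have hsM : s * M * ‖p‖ ≤ 4 * d / κ := by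
    have h3 := hexit (s * M) (by positivity) (by rw [← hz1']; exact hz1T)
    have h4 : s * M * ‖p‖ * κ ≤ 4 * d := by
      calc s * M * ‖p‖ * κ ≤ s * M * ‖p‖ * ‖p‖ := by gcongr
        _ = 2 * (s * M * (‖p‖ ^ 2 / 2)) := by ring
        _ ≤ 4 * d := by linarith
    rwa [le_div_iff₀ hκ0]
  have hz1x : ‖z1 - x‖ ≤ 2 * d + 4 * d / κ := by
    have : z1 - x = (z0 - x) - (s * M) • p := by rw [hz1']; abel
    rw [this]
    calc ‖(z0 - x) - (s * M) • p‖ ≤ ‖z0 - x‖ + ‖(s * M) • p‖ := norm_sub_le _ _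
      _ ≤ 2 * d + 4 * d / κ := by
          rw [norm_smul, Real.norm_of_nonneg (by positivity)]
          gcongr
  have hxnx : ‖xn - x‖ < η := by
    have h3 : ‖xn - z1‖ ≤ 2 * d := by
      have h31 : e ^ 2 ≤ 1 := by nlinarith
      calc ‖xn - z1‖ ≤ (1 + e ^ 2) * σ := hn2
        _ ≤ (1 + 1) * d := by gcongr
        _ = 2 * d := by ring
    have h4 : ‖xn - x‖ ≤ 4 * d + 4 * d / κ := by
      calc ‖xn - x‖ = ‖(xn - z1) + (z1 - x)‖ := by congr 1; abel
        _ ≤ ‖xn - z1‖ + ‖z1 - x‖ := norm_add_le _ _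
        _ ≤ 4 * d + 4 * d / κ := by linarith
    have h5 : d * (5 + 4 / κ) ≤ η := by
      rwa [le_div_iff₀ (by positivity)] at hd2
    have h6 : d * (5 + 4 / κ) = 5 * d + 4 * d / κ := by ring
    linarith
  -- the new normal
  have hn0 : 0 < ‖xn - z1‖ := lt_of_lt_of_le hσ0 hn1
  set gn : H := ‖xn - z1‖⁻¹ • (xn - z1) with hgn
  have hgn1 : ‖gn‖ = 1 := norm_smul_inv_norm (norm_pos_iff.1 hn0)
  have hgnp : inner ℝ gn p < 0 := by
    rw [hq, inner_neg_right, real_inner_smul_right] at hn3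
    have h3 : inner ℝ (xn - z1) p < 0 := by
      by_contra hcon
      push Not at hcon
      have := mul_nonneg hM0.le hcon
      linarith
    rw [hgn, real_inner_smul_left]
    exact mul_neg_of_pos_of_neg (by positivity) h3
  obtain ⟨l, hl0, hl1, hpn1, hpn2, hpn3⟩ := min_point p gn hgn1 hp1 hgnp
  refine ⟨(1 - l) • p + l • gn, ⟨hpn1, T', hT', xn, hxnT, hxni, ?_, ?_, ?_⟩, hpn3⟩
  · apply hsubU
    rw [mem_ball, dist_eq_norm]
    exact hxnx.trans_le hη3
  · exact ⟨z1, σ, hσ0, hσd.trans hd3, hz1ball, hn1, hn2, hpn2⟩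
  · -- blocking
    have hxnT0 : xn ∉ T := fun hmem => hne (hS.disj T hT T' hT' xn hmem hxnT).symm
    obtain ⟨δ1, hδ1, hsubT⟩ := Metric.mem_nhds_iff.1
      ((hS.closed T hT).isOpen_compl.mem_nhds hxnT0)
    refine ⟨min (min δ1 (δ / 2)) (e ^ 2 * σ), lt_min (lt_min hδ1 (by positivity))
      (by positivity), min ((c + r0 / 2) / 2) (7 / 8 * r0), lt_min (by linarith) (by linarith), ?_⟩
    rintro T'' hT'' hne'' ⟨t, ht, htn⟩ yy hyy hyy'
    have ht1 : ‖t - xn‖ < δ1 := htn.trans_le ((min_le_left _ _).trans (min_le_left _ _))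
    have ht2 : ‖t - xn‖ < δ / 2 := htn.trans_le ((min_le_left _ _).trans (min_le_right _ _))
    have ht3 : ‖t - xn‖ < e ^ 2 * σ := htn.trans_le (min_le_right _ _)
    have hT''T : T'' ≠ T := by
      rintro rfl
      have : t ∈ T''ᶜ := by
        apply hsubT
        rw [mem_ball, dist_eq_norm]
        exact ht1
      exact this ht
    have htx : ‖t - x‖ < δ := by
      calc ‖t - x‖ = ‖(t - xn) + (xn - x)‖ := by congr 1; abel
        _ ≤ ‖t - xn‖ + ‖xn - x‖ := norm_add_le _ _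
        _ < δ := by linarith
    have hb1 := hB T'' hT'' hT''T ⟨t, ht, htx⟩ yy hyy hyy'
    have hb2 := blk_normal TT hS r0 R0 e hr0 hR0 he he1 heR T' hT' xn z1 hxnT σ hσ0
      (hσd.trans hd3) hz1ball hn1 hn2 T'' hT'' hne'' t ht ht3.le yy hyy hyy'
    have hb3 : (c + r0 / 2) / 2 ≤ inner ℝ p (yy - xn) := by
      have h3 : inner ℝ p (xn - x) ≤ η := by
        calc inner ℝ p (xn - x) ≤ ‖p‖ * ‖xn - x‖ := real_inner_le_norm _ _
          _ ≤ 1 * η := by gcongr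
          _ = η := one_mul _
      have h4 : inner ℝ p (yy - x) = inner ℝ p (yy - xn) + inner ℝ p (xn - x) := by
        rw [← inner_add_right]
        congr 1
        abel
      linarith
    rw [inner_add_left, real_inner_smul_left, real_inner_smul_left]
    exact convex_le l _ _ _ hl0.le hl1.le ((min_le_left _ _).trans hb3)
      ((min_le_right _ _).trans hb2)


/-- The first state. -/
theorem init [CompleteSpace H] (TT : Set (Set H)) (hS : Setup TT) (r0 R0 e : ℝ)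
    (hr0 : 0 < r0) (hR0 : 1 ≤ R0)
    (he : 0 < e) (he1 : e ≤ 1) (heR : 2 * e * (R0 + 1) ≤ r0 / 8) (xs : H) (ρ : ℝ) (hρ : 0 < ρ)
    (hxs : ∀ C ∈ TT, xs ∉ interior C) : ∃ p, State TT r0 R0 e xs ρ p := by
  obtain ⟨T, hT, hxT⟩ := hS.cover xs
  obtain ⟨y, hy⟩ := hS.inter T hT
  obtain ⟨r, hr, hyr⟩ := Metric.mem_nhds_iff.1 (isOpen_interior.mem_nhds hy)
  have hyr' : closedBall y (r / 2) ⊆ T := fun v hv =>
    interior_subset (hyr (closedBall_subset_ball (by linarith) hv))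
  -- small parameter
  set A : ℝ := ‖y - xs‖ + r + 1 with hA
  have hA0 : 0 < A := by positivity
  set τ : ℝ := min (ρ / (4 * A)) (1 / A) with hτ
  have hτ0 : 0 < τ := lt_min (by positivity) (by positivity)
  have hτA : τ * A ≤ ρ / 4 := by
    calc τ * A ≤ ρ / (4 * A) * A := by
          gcongr
          exact min_le_left _ _
      _ = ρ / 4 := by field_simp
  have hτA1 : τ * A ≤ 1 := by
    calc τ * A ≤ 1 / A * A := by
          gcongr
          exact min_le_right _ _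
      _ = 1 := by field_simp
  have hτ1 : τ ≤ 1 := by
    have hA1 : 1 ≤ A := by
      have : 0 ≤ ‖y - xs‖ := norm_nonneg _
      linarith
    calc τ = τ * 1 := (mul_one _).symm
      _ ≤ τ * A := by gcongr
      _ ≤ 1 := hτA1
  set z0 : H := xs + τ • (y - xs) with hz0
  set σ : ℝ := τ * (r / 2) with hσ
  have hσ0 : 0 < σ := by positivity
  have hσA : σ ≤ τ * A := by
    rw [hσ]
    have : 0 ≤ ‖y - xs‖ := norm_nonneg _
    have : r / 2 ≤ A := by linarith
    gcongr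
  have hz0ball : closedBall z0 σ ⊆ T := by
    intro v hv
    rw [mem_closedBall, dist_eq_norm] at hv
    have hw : y + τ⁻¹ • (v - z0) ∈ T := by
      apply hyr'
      rw [mem_closedBall, dist_eq_norm, add_sub_cancel_left, norm_smul, norm_inv,
        Real.norm_of_nonneg hτ0.le, inv_mul_le_iff₀ hτ0]
      exact hv
    have hconv := (hS.convex T hT) hxT hw (by linarith : (0 : ℝ) ≤ 1 - τ) hτ0.le
      (by ring : (1 - τ) + τ = 1)
    have hv' : (1 - τ) • xs + τ • (y + τ⁻¹ • (v - z0)) = v := by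
      rw [smul_add, smul_smul, mul_inv_cancel₀ hτ0.ne', one_smul, hz0]
      module
    rwa [hv'] at hconv
  set q : H := xs - z0 with hq
  have hzq : z0 + q = xs := by rw [hq]; abel
  have hqout : ¬ closedBall (z0 + q) σ ⊆ T := by
    intro hcon
    rw [hzq] at hcon
    exact hxs T hT (mem_interior.2 ⟨ball xs σ, ball_subset_closedBall.trans hcon, isOpen_ball,
      mem_ball_self hσ0⟩)
  obtain ⟨s, hs0, hs1, hz1ball, xn, hxnT, hxni, hn1, hn2, hn3⟩ :=
    sliding T (hS.closed T hT) z0 q σ (e ^ 2) hσ0 (by positivity) hz0ball hqout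
  set z1 : H := z0 + s • q with hz1
  have he2 : e ^ 2 ≤ 1 := by nlinarith
  have hn0 : 0 < ‖xn - z1‖ := lt_of_lt_of_le hσ0 hn1
  have hgn1 : ‖‖xn - z1‖⁻¹ • (xn - z1)‖ = 1 := norm_smul_inv_norm (norm_pos_iff.1 hn0)
  have hz1xs : ‖z1 - xs‖ ≤ τ * A := by
    have h3 : z1 - xs = (1 - s) • (τ • (y - xs)) := by
      rw [hz1, hq, hz0]
      module
    have h4 : 0 ≤ 1 - s := by linarith
    rw [h3, norm_smul, norm_smul, Real.norm_of_nonneg h4, Real.norm_of_nonneg hτ0.le]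
    have h5 : ‖y - xs‖ ≤ A := by linarith
    calc (1 - s) * (τ * ‖y - xs‖) ≤ 1 * (τ * A) := by
          gcongr
          linarith
      _ = τ * A := one_mul _
  refine ⟨‖xn - z1‖⁻¹ • (xn - z1), hgn1.le, T, hT, xn, hxnT, hxni, ?_, ?_, ?_⟩
  · rw [mem_ball, dist_eq_norm]
    calc ‖xn - xs‖ = ‖(xn - z1) + (z1 - xs)‖ := by congr 1; abel
      _ ≤ ‖xn - z1‖ + ‖z1 - xs‖ := norm_add_le _ _
      _ ≤ (1 + 1) * (τ * A) + τ * A := by
          gcongr
          calc ‖xn - z1‖ ≤ (1 + e ^ 2) * σ := hn2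
            _ ≤ (1 + 1) * (τ * A) := by gcongr
      _ < ρ := by linarith
  · refine ⟨z1, σ, hσ0, hσA.trans hτA1, hz1ball, hn1, hn2, ?_⟩
    rw [real_inner_self_eq_norm_sq]
  · refine ⟨e ^ 2 * σ, by positivity, 7 / 8 * r0, by linarith, ?_⟩
    rintro T' hT' hne ⟨t, ht, htn⟩ yy hyy hyy'
    exact blk_normal TT hS r0 R0 e hr0 hR0 he he1 heR T hT xn z1 hxnT σ hσ0
      (hσA.trans hτA1) hz1ball hn1 hn2 T' hT' hne t ht htn.le yy hyy hyy'

/-- A disjoint tiling cannot have a nonempty open set of singular points in which the controlled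
tiles are dense. -/
theorem no_dense [CompleteSpace H] (TT : Set (Set H)) (hS : Setup TT) (r0 R0 : ℝ)
    (hr0 : 0 < r0) (hr01 : r0 ≤ 1) (hR0 : 1 ≤ R0) (xs : H) (ρ : ℝ) (hρ : 0 < ρ)
    (hxs : ∀ C ∈ TT, xs ∉ interior C) (hD : Dense' TT r0 R0 xs ρ) : False := by
  set e : ℝ := r0 / (16 * (R0 + 1)) with he
  have he0 : 0 < e := by positivity
  have he1 : e ≤ 1 := by
    rw [he, div_le_one (by positivity)]
    linarith
  have heR : 2 * e * (R0 + 1) ≤ r0 / 8 := by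
    rw [he]
    apply le_of_eq
    field_simp
    ring
  have hek : 4 * e ≤ r0 / (4 * R0) := by
    rw [he]
    have : 4 * (r0 / (16 * (R0 + 1))) = r0 / (4 * (R0 + 1)) := by
      field_simp
      ring
    rw [this]
    gcongr
    linarith
  have hall : ∀ m : ℕ, ∃ p, State TT r0 R0 e xs ρ p ∧ ‖p‖ ^ 2 ≤ 1 / ((m : ℝ) + 1) := by
    intro m
    induction m with
    | zero =>
      obtain ⟨p, hp⟩ := init TT hS r0 R0 e hr0 hR0 he0 he1 heR xs ρ hρ hxs
      refine ⟨p, hp, ?_⟩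
      have := hp.1
      have h0 : 0 ≤ ‖p‖ := norm_nonneg _
      norm_num
      nlinarith
    | succ m ih =>
      obtain ⟨p, hp, hpm⟩ := ih
      obtain ⟨p', hp', hpm'⟩ := step TT hS r0 R0 e hr0 hr01 hR0 he0 he1 heR hek xs ρ hD p hp
      refine ⟨p', hp', hpm'.trans ?_⟩
      have h0 : 0 ≤ ‖p‖ ^ 2 := sq_nonneg _
      have hm : (0 : ℝ) < (m : ℝ) + 1 := by positivity
      rw [le_div_iff₀ hm] at hpm
      rw [div_le_div_iff₀ (by positivity) (by positivity)]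
      push_cast
      nlinarith
  obtain ⟨m, hm⟩ := exists_nat_gt (1 / (r0 / (4 * R0)) ^ 2)
  obtain ⟨p, hp, hpm⟩ := hall m
  obtain ⟨hp1, T, hT, x, hx, hxi, hxU, -, hB⟩ := hp
  have hlow := blk_lower TT hS r0 R0 hr0 hR0 xs ρ hD T hT x hx hxi hxU p hB
  have hk : 0 < (r0 / (4 * R0)) ^ 2 := by positivity
  have h1 : (r0 / (4 * R0)) ^ 2 ≤ 1 / ((m : ℝ) + 1) :=
    (pow_le_pow_left₀ (by positivity) hlow 2).trans hpm
  rw [le_div_iff₀ (by positivity)] at h1
  rw [div_lt_iff₀ hk] at hm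
  nlinarith

/-- No nontrivial real Hilbert space is the union of a family of pairwise disjoint bounded closed
convex sets with nonempty interior. -/
theorem no_disjoint_tiling [CompleteSpace H] [Nontrivial H] (TT : Set (Set H))
    (hS : Setup TT) : False := by
  -- the set of singular points
  set S : Set H := {x | ∀ C ∈ TT, x ∉ interior C} with hSdef
  have hSc : IsClosed S := by
    have : S = ⋂ C ∈ TT, (interior C)ᶜ := by
      ext x
      simp [hSdef]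
    rw [this]
    exact isClosed_biInter fun C _ => isOpen_interior.isClosed_compl
  have hSne : S.Nonempty := by
    obtain ⟨T, hT, h0⟩ := hS.cover (0 : H)
    have hTu : T ≠ univ := by
      intro h
      have hb := hS.bdd T hT
      rw [h] at hb
      exact NormedSpace.unbounded_univ ℝ H hb
    obtain ⟨x, hx⟩ := nonempty_frontier_iff.2 ⟨⟨0, h0⟩, hTu⟩
    have hxT : x ∈ T := by
      rw [← (hS.closed T hT).closure_eq]
      exact hx.1
    refine ⟨x, fun C hC hxC => ?_⟩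
    have := hS.disj C hC T hT x (interior_subset hxC) hxT
    rw [this] at hxC
    exact hx.2 hxC
  haveI : CompleteSpace S := hSc.completeSpace_coe
  haveI : Nonempty S := hSne.to_subtype
  let A : ℕ → Set S := fun n => {x | ∃ C ∈ TT, (x : H) ∈ C ∧ Cls (1 / ((n : ℝ) + 1)) ((n : ℝ) + 1) C}
  have hcovA : ⋃ n, closure (A n) = univ := by
    rw [eq_univ_iff_forall]
    intro x
    obtain ⟨C, hC, hxC⟩ := hS.cover (x : H)
    obtain ⟨y, hy⟩ := hS.inter C hC
    obtain ⟨r, hr, hyr⟩ := Metric.mem_nhds_iff.1 (isOpen_interior.mem_nhds hy)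
    obtain ⟨R, hR⟩ := (hS.bdd C hC).subset_closedBall y
    obtain ⟨n, hn⟩ := exists_nat_gt (max (1 / r) R)
    have hn1 : 1 / r < (n : ℝ) + 1 := by
      have := (le_max_left (1 / r) R).trans_lt hn
      linarith
    have hn2 : R ≤ (n : ℝ) + 1 := by
      have := (le_max_right (1 / r) R).trans_lt hn
      linarith
    rw [mem_iUnion]
    refine ⟨n, subset_closure ⟨C, hC, hxC, y, ?_, ?_⟩⟩
    · intro v hv
      apply interior_subset
      apply hyr
      rw [mem_closedBall] at hv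
      rw [mem_ball]
      refine hv.trans_lt ?_
      rw [div_lt_iff₀ hr] at hn1
      rw [div_lt_iff₀ (by positivity)]
      linarith
    · exact hR.trans (closedBall_subset_closedBall hn2)
  obtain ⟨n, xs, hxs⟩ := nonempty_interior_of_iUnion_of_closed (fun n => isClosed_closure) hcovA
  obtain ⟨ρ, hρ, hball⟩ := Metric.mem_nhds_iff.1 (isOpen_interior.mem_nhds hxs)
  have hn0 : (0 : ℝ) < (n : ℝ) + 1 := by positivity
  have hn1 : (1 : ℝ) ≤ (n : ℝ) + 1 := by
    have : (0 : ℝ) ≤ (n : ℝ) := Nat.cast_nonneg n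
    linarith
  refine no_dense TT hS (1 / ((n : ℝ) + 1)) ((n : ℝ) + 1) (by positivity)
    ((div_le_one hn0).2 hn1) hn1 (xs : H) ρ hρ xs.2 ?_
  intro x hx hxS ε hε
  have hmem : (⟨x, hxS⟩ : S) ∈ closure (A n) := by
    apply interior_subset
    apply hball
    rw [mem_ball] at hx ⊢
    exact hx
  obtain ⟨w, ⟨C, hC, hwC, hcls⟩, hw⟩ := Metric.mem_closure_iff.1 hmem ε hε
  refine ⟨C, hC, hcls, (w : H), hwC, w.2 C hC, ?_⟩
  rw [← dist_eq_norm, dist_comm]
  exact hw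

end Pool.Agent.H826R3.HNT
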