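import Mathlib

set_option autoImplicit false
set_option linter.unusedSectionVars false
set_option linter.style.haveILetI false

/-!
A norm on finitely supported functions on the reals which is rotund and smooth, and which is
nearly `l1` on prescribed pairs of coordinates: the Hilbert ball cut by soft pair constraints.
-/

namespace Pool.Agent.H826R3.SmoothRot

open Filter Topology Set
open scoped Pointwise

/-- sum of squares -/
noncomputable def q (v : ℝ →₀ ℝ) : ℝ := v.sum fun _ a => a ^ 2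

lemma q_eq (v : ℝ →₀ ℝ) (s : Finset ℝ) (hs : v.support ⊆ s) : q v = ∑ i ∈ s, v i ^ 2 := by
  rw [q, Finsupp.sum_of_support_subset _ hs]
  intro i _; simp

lemma q_nonneg (v : ℝ →₀ ℝ) : 0 ≤ q v := Finset.sum_nonneg fun _ _ => sq_nonneg _

lemma sq_le_q (v : ℝ →₀ ℝ) (i : ℝ) : v i ^ 2 ≤ q v := by
  classical
  rw [q_eq v (insert i v.support) (Finset.subset_insert _ _)]
  exact Finset.single_le_sum (f := fun j => v j ^ 2) (fun _ _ => sq_nonneg _)
    (Finset.mem_insert_self _ _)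

lemma two_le_q (v : ℝ →₀ ℝ) {i j : ℝ} (hij : i ≠ j) : v i ^ 2 + v j ^ 2 ≤ q v := by
  classical
  rw [q_eq v (insert i (insert j v.support))
    ((Finset.subset_insert _ _).trans (Finset.subset_insert _ _)), ← Finset.sum_pair (f := fun k => v k ^ 2) hij]
  refine Finset.sum_le_sum_of_subset_of_nonneg ?_ fun _ _ _ => sq_nonneg _
  intro k hk
  simp only [Finset.mem_insert, Finset.mem_singleton] at hk ⊢
  tauto

lemma q_smul (c : ℝ) (v : ℝ →₀ ℝ) : q (c • v) = c ^ 2 * q v := by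
  rw [q_eq (c • v) v.support Finsupp.support_smul, q_eq v v.support le_rfl, Finset.mul_sum]
  refine Finset.sum_congr rfl fun i _ => ?_
  rw [Finsupp.smul_apply, smul_eq_mul, mul_pow]

lemma q_neg (v : ℝ →₀ ℝ) : q (-v) = q v := by
  have := q_smul (-1) v
  rw [neg_one_smul] at this
  rw [this]; ring

lemma q_pos {v : ℝ →₀ ℝ} (hv : v ≠ 0) : 0 < q v := by
  obtain ⟨i, hi⟩ := Finsupp.support_nonempty_iff.2 hv
  have h1 := sq_le_q v i
  have h2 : 0 < v i ^ 2 := by
    have := Finsupp.mem_support_iff.1 hi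
    positivity
  linarith

lemma q_combo (v w : ℝ →₀ ℝ) {a b : ℝ} (hab : a + b = 1) :
    q (a • v + b • w) = a * q v + b * q w - a * b * q (v - w) := by
  classical
  have h1 : v.support ⊆ v.support ∪ w.support := Finset.subset_union_left
  have h2 : w.support ⊆ v.support ∪ w.support := Finset.subset_union_right
  have h3 : (a • v + b • w).support ⊆ v.support ∪ w.support :=
    Finsupp.support_add.trans
      (Finset.union_subset_union Finsupp.support_smul Finsupp.support_smul)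
  have h4 : (v - w).support ⊆ v.support ∪ w.support := Finsupp.support_sub
  rw [q_eq _ _ h1, q_eq _ _ h2, q_eq _ _ h3, q_eq _ _ h4, Finset.mul_sum, Finset.mul_sum,
    Finset.mul_sum, ← Finset.sum_add_distrib, ← Finset.sum_sub_distrib]
  refine Finset.sum_congr rfl fun i _ => ?_
  have hb : b = 1 - a := by linarith
  simp only [Finsupp.add_apply, Finsupp.smul_apply, Finsupp.sub_apply, smul_eq_mul]
  rw [hb]
  ring

/-- the pair function -/
noncomputable def Psi (γ η : ℝ) (v : ℝ →₀ ℝ) : ℝ :=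
  |v γ| + |v η| + (q v - v γ ^ 2 - v η ^ 2) / 2

lemma Psi_le_one_right {γ η : ℝ} {v : ℝ →₀ ℝ} (hq : q v ≤ 1) (h : v η = 0) :
    Psi γ η v ≤ 1 := by
  unfold Psi
  rw [h, abs_zero]
  have := sq_nonneg (1 - |v γ|)
  have h2 := sq_abs (v γ)
  nlinarith

lemma Psi_le_one_left {γ η : ℝ} {v : ℝ →₀ ℝ} (hq : q v ≤ 1) (h : v γ = 0) :
    Psi γ η v ≤ 1 := by
  unfold Psi
  rw [h, abs_zero]
  have := sq_nonneg (1 - |v η|)
  have h2 := sq_abs (v η)
  nlinarith

lemma Psi_smul (γ η c : ℝ) (v : ℝ →₀ ℝ) :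
    Psi γ η (c • v) = |c| * (|v γ| + |v η|) + c ^ 2 * ((q v - v γ ^ 2 - v η ^ 2) / 2) := by
  unfold Psi
  rw [q_smul]
  simp only [Finsupp.smul_apply, smul_eq_mul, abs_mul]
  ring

lemma Psi_neg (γ η : ℝ) (v : ℝ →₀ ℝ) : Psi γ η (-v) = Psi γ η v := by
  unfold Psi
  rw [q_neg]
  simp

lemma Psi_combo {γ η : ℝ} (hne : γ ≠ η) (v w : ℝ →₀ ℝ) {a b : ℝ} (ha : 0 ≤ a) (hb : 0 ≤ b)
    (hab : a + b = 1) : Psi γ η (a • v + b • w) ≤ a * Psi γ η v + b * Psi γ η w := by
  unfold Psi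
  rw [q_combo v w hab]
  have h1 : |a * v γ + b * w γ| ≤ a * |v γ| + b * |w γ| := by
    refine (abs_add_le _ _).trans_eq ?_
    rw [abs_mul, abs_mul, abs_of_nonneg ha, abs_of_nonneg hb]
  have h2 : |a * v η + b * w η| ≤ a * |v η| + b * |w η| := by
    refine (abs_add_le _ _).trans_eq ?_
    rw [abs_mul, abs_mul, abs_of_nonneg ha, abs_of_nonneg hb]
  have h3 := two_le_q (v - w) hne
  have h4 : 0 ≤ a * b * (q (v - w) - (v - w) γ ^ 2 - (v - w) η ^ 2) := by
    apply mul_nonneg (mul_nonneg ha hb)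
    linarith
  simp only [Finsupp.add_apply, Finsupp.smul_apply, Finsupp.sub_apply, smul_eq_mul] at h4 ⊢
  have hb' : b = 1 - a := by linarith
  subst hb'
  nlinarith

/-- the soft constraint -/
noncomputable def th (ε r : ℝ) : ℝ := (max 0 (r - 1 - ε) / ε) ^ 2

lemma th_nonneg (ε r : ℝ) : 0 ≤ th ε r := sq_nonneg _

lemma th_zero {ε r : ℝ} (h : r ≤ 1 + ε) : th ε r = 0 := by
  unfold th
  rw [max_eq_left (by linarith), zero_div]
  norm_num

lemma th_mono {ε r r' : ℝ} (hε : 0 < ε) (h : r ≤ r') : th ε r ≤ th ε r' := by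
  unfold th
  have h1 : max 0 (r - 1 - ε) ≤ max 0 (r' - 1 - ε) := max_le_max le_rfl (by linarith)
  have h2 : 0 ≤ max 0 (r - 1 - ε) := le_max_left _ _
  gcongr

lemma th_combo {ε : ℝ} (hε : 0 < ε) (r r' : ℝ) {a b : ℝ} (ha : 0 ≤ a) (hb : 0 ≤ b)
    (hab : a + b = 1) : th ε (a * r + b * r') ≤ a * th ε r + b * th ε r' := by
  unfold th
  have h1 : max 0 (a * r + b * r' - 1 - ε) ≤ a * max 0 (r - 1 - ε) + b * max 0 (r' - 1 - ε) := by
    apply max_le
    · have := mul_nonneg ha (le_max_left 0 (r - 1 - ε))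
      have := mul_nonneg hb (le_max_left 0 (r' - 1 - ε))
      linarith
    · have h2 := mul_le_mul_of_nonneg_left (le_max_right 0 (r - 1 - ε)) ha
      have h3 := mul_le_mul_of_nonneg_left (le_max_right 0 (r' - 1 - ε)) hb
      have hb' : b = 1 - a := by linarith
      subst hb'
      linarith
  have h0 : 0 ≤ max 0 (a * r + b * r' - 1 - ε) := le_max_left _ _
  have h2 : max 0 (a * r + b * r' - 1 - ε) / ε ≤
      a * (max 0 (r - 1 - ε) / ε) + b * (max 0 (r' - 1 - ε) / ε) := by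
    rw [mul_div_assoc', mul_div_assoc', ← add_div]
    gcongr
  have h3 : 0 ≤ max 0 (a * r + b * r' - 1 - ε) / ε := by positivity
  refine (pow_le_pow_left₀ h3 h2 2).trans ?_
  set x := max 0 (r - 1 - ε) / ε
  set y := max 0 (r' - 1 - ε) / ε
  have hb' : b = 1 - a := by linarith
  subst hb'
  nlinarith [mul_nonneg (mul_nonneg ha hb) (sq_nonneg (x - y))]

lemma th_le_one {ε r : ℝ} (hε : 0 < ε) (h : th ε r ≤ 1) : r ≤ 1 + 2 * ε := by
  unfold th at h
  have h0 : 0 ≤ max 0 (r - 1 - ε) / ε := div_nonneg (le_max_left _ _) hε.le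
  have h1 : max 0 (r - 1 - ε) / ε ≤ 1 := by nlinarith
  rw [div_le_one hε] at h1
  have := (le_max_right 0 (r - 1 - ε)).trans h1
  linarith

lemma continuous_th {ε : ℝ} : Continuous (th ε) := by
  unfold th
  have : Continuous fun r : ℝ => max 0 (r - 1 - ε) := by fun_prop
  exact (this.div_const ε).pow 2

variable (ε : ℝ → ℝ → ℝ)

/-- the finite sum -/
noncomputable def Ph (S : Finset ℝ) (v : ℝ →₀ ℝ) : ℝ :=
  q v + ∑ P ∈ S.offDiag, th (ε P.1 P.2) (Psi P.1 P.2 v)

/-- the unit ball -/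
def B : Set (ℝ →₀ ℝ) := {v | Ph ε v.support v ≤ 1}

lemma Ph_eq {v : ℝ →₀ ℝ} (hε : ∀ γ η, 0 < ε γ η) {S : Finset ℝ} (hS : v.support ⊆ S)
    (hq : q v ≤ 1) : Ph ε S v = Ph ε v.support v := by
  unfold Ph
  congr 1
  symm
  apply Finset.sum_subset (Finset.offDiag_mono hS)
  rintro ⟨γ, η⟩ h1 h2
  rw [Finset.mem_offDiag] at h1 h2
  simp only at h1 h2 ⊢
  apply th_zero
  have h3 := hε γ η
  have h4 : Psi γ η v ≤ 1 := by
    by_cases h5 : v γ = 0
    · exact Psi_le_one_left hq h5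
    · by_cases h6 : v η = 0
      · exact Psi_le_one_right hq h6
      · exfalso
        exact h2 ⟨Finsupp.mem_support_iff.2 h5, Finsupp.mem_support_iff.2 h6, h1.2.2⟩
  linarith

lemma q_le_Ph (S : Finset ℝ) (v : ℝ →₀ ℝ) : q v ≤ Ph ε S v := by
  have : 0 ≤ ∑ P ∈ S.offDiag, th (ε P.1 P.2) (Psi P.1 P.2 v) :=
    Finset.sum_nonneg fun _ _ => th_nonneg _ _
  unfold Ph
  linarith

lemma mem_B_iff {v : ℝ →₀ ℝ} (hε : ∀ γ η, 0 < ε γ η) {S : Finset ℝ} (hS : v.support ⊆ S) :
    v ∈ B ε ↔ Ph ε S v ≤ 1 := by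
  constructor
  · intro h
    have h1 : q v ≤ 1 := (q_le_Ph ε _ v).trans h
    rw [Ph_eq ε hε hS h1]
    exact h
  · intro h
    have h1 : q v ≤ 1 := (q_le_Ph ε _ v).trans h
    rw [Ph_eq ε hε hS h1] at h
    exact h

lemma Ph_combo (hε : ∀ γ η, 0 < ε γ η) (S : Finset ℝ) (v w : ℝ →₀ ℝ) {a b : ℝ} (ha : 0 ≤ a)
    (hb : 0 ≤ b) (hab : a + b = 1) :
    Ph ε S (a • v + b • w) + a * b * q (v - w) ≤ a * Ph ε S v + b * Ph ε S w := by
  unfold Ph
  rw [q_combo v w hab, mul_add, mul_add, Finset.mul_sum, Finset.mul_sum]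
  have : ∑ P ∈ S.offDiag, th (ε P.1 P.2) (Psi P.1 P.2 (a • v + b • w)) ≤
      ∑ P ∈ S.offDiag, a * th (ε P.1 P.2) (Psi P.1 P.2 v) +
      ∑ P ∈ S.offDiag, b * th (ε P.1 P.2) (Psi P.1 P.2 w) := by
    rw [← Finset.sum_add_distrib]
    refine Finset.sum_le_sum fun P hP => ?_
    have hne := (Finset.mem_offDiag.1 hP).2.2
    exact (th_mono (hε _ _) (Psi_combo hne v w ha hb hab)).trans
      (th_combo (hε _ _) _ _ ha hb hab)
  linarith

lemma Ph_neg (S : Finset ℝ) (v : ℝ →₀ ℝ) : Ph ε S (-v) = Ph ε S v := by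
  unfold Ph
  rw [q_neg]
  congr 1
  exact Finset.sum_congr rfl fun P _ => by rw [Psi_neg]

lemma Ph_zero (hε : ∀ γ η, 0 < ε γ η) (S : Finset ℝ) : Ph ε S 0 = 0 := by
  unfold Ph
  have h1 : q 0 = 0 := by simp [q]
  rw [h1, zero_add]
  refine Finset.sum_eq_zero fun P _ => th_zero ?_
  have := hε P.1 P.2
  unfold Psi
  rw [h1]
  simp
  linarith

lemma continuous_Ph (S : Finset ℝ) (v : ℝ →₀ ℝ) : Continuous fun c : ℝ => Ph ε S (c • v) := by
  unfold Ph
  simp only [q_smul, Psi_smul]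
  refine Continuous.add (by fun_prop) (continuous_finsetSum _ fun P _ => ?_)
  exact continuous_th.comp (by fun_prop)

lemma B_convex (hε : ∀ γ η, 0 < ε γ η) : Convex ℝ (B ε) := by
  classical
  intro v hv w hw a b ha hb hab
  have h1 : v.support ⊆ v.support ∪ w.support := Finset.subset_union_left
  have h2 : w.support ⊆ v.support ∪ w.support := Finset.subset_union_right
  have h3 : (a • v + b • w).support ⊆ v.support ∪ w.support :=
    Finsupp.support_add.trans
      (Finset.union_subset_union Finsupp.support_smul Finsupp.support_smul)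
  rw [mem_B_iff ε hε h1] at hv
  rw [mem_B_iff ε hε h2] at hw
  rw [mem_B_iff ε hε h3]
  have h4 := Ph_combo ε hε (v.support ∪ w.support) v w ha hb hab
  have h5 := mul_nonneg (mul_nonneg ha hb) (q_nonneg (v - w))
  have h6 : a * Ph ε (v.support ∪ w.support) v ≤ a := mul_le_of_le_one_right ha hv
  have h7 : b * Ph ε (v.support ∪ w.support) w ≤ b := mul_le_of_le_one_right hb hw
  linarith

lemma B_neg {v : ℝ →₀ ℝ} (hv : v ∈ B ε) : -v ∈ B ε := by
  unfold B at hv ⊢
  rw [mem_ofPred_eq] at hv ⊢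
  rw [Finsupp.support_neg, Ph_neg]
  exact hv

lemma B_balanced (hε : ∀ γ η, 0 < ε γ η) : Balanced ℝ (B ε) := by
  intro c hc
  rintro _ ⟨v, hv, rfl⟩
  rw [Real.norm_eq_abs, abs_le] at hc
  have h1 : c • v = ((1 + c) / 2) • v + ((1 - c) / 2) • (-v) := by
    rw [smul_neg, ← sub_eq_add_neg, ← sub_smul]
    congr 1
    ring
  simp only
  rw [h1]
  exact B_convex ε hε hv (B_neg ε hv) (by linarith) (by linarith) (by ring)

lemma zero_mem_B (hε : ∀ γ η, 0 < ε γ η) : (0 : ℝ →₀ ℝ) ∈ B ε := by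
  rw [mem_B_iff ε hε (S := ∅) (by simp), Ph_zero ε hε]
  exact zero_le_one

lemma B_absorbent (hε : ∀ γ η, 0 < ε γ η) : Absorbent ℝ (B ε) := by
  intro v
  rw [absorbs_iff_eventually_nhds_zero (zero_mem_B ε hε)]
  have h1 : Tendsto (fun c : ℝ => Ph ε v.support (c • v)) (𝓝 0) (𝓝 0) := by
    have := (continuous_Ph ε v.support v).tendsto 0
    simp only [zero_smul] at this
    rwa [Ph_zero ε hε] at this
  filter_upwards [h1.eventually (gt_mem_nhds zero_lt_one)] with c hc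
  intro w hw
  rw [mem_singleton_iff.1 hw]
  exact (mem_B_iff ε hε Finsupp.support_smul).2 hc.le

/-- the norm -/
noncomputable def N (v : ℝ →₀ ℝ) : ℝ := gauge (B ε) v

lemma N_nonneg (v : ℝ →₀ ℝ) : 0 ≤ N ε v := gauge_nonneg _

lemma N_smul (hε : ∀ γ η, 0 < ε γ η) (c : ℝ) (v : ℝ →₀ ℝ) : N ε (c • v) = |c| * N ε v := by
  have := (gaugeSeminorm (B_balanced ε hε) (B_convex ε hε) (B_absorbent ε hε)).smul' c v
  exact this

lemma N_add (hε : ∀ γ η, 0 < ε γ η) (v w : ℝ →₀ ℝ) : N ε (v + w) ≤ N ε v + N ε w :=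
  gauge_add_le (B_convex ε hε) (B_absorbent ε hε) v w

lemma mem_of_N_lt (hε : ∀ γ η, 0 < ε γ η) {v : ℝ →₀ ℝ} {r : ℝ} (h : N ε v < r) :
    r⁻¹ • v ∈ B ε := by
  obtain ⟨b, hb, hbr, w, hw, hwv⟩ := exists_lt_of_gauge_lt (B_absorbent ε hε) h
  have hr : 0 < r := hb.trans hbr
  rw [← hwv]
  simp only
  rw [smul_smul]
  apply B_balanced ε hε (r⁻¹ * b)
  · rw [Real.norm_eq_abs, abs_of_pos (by positivity), inv_mul_le_iff₀ hr, mul_one]
    exact hbr.le
  · exact ⟨w, hw, rfl⟩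

lemma N_le_of_mem {v : ℝ →₀ ℝ} {r : ℝ} (hr : 0 < r) (h : r⁻¹ • v ∈ B ε) : N ε v ≤ r := by
  apply gauge_le_of_mem hr.le
  exact ⟨r⁻¹ • v, h, by simp only; rw [smul_smul, mul_inv_cancel₀ hr.ne', one_smul]⟩

lemma sqrt_q_le (hε : ∀ γ η, 0 < ε γ η) (v : ℝ →₀ ℝ) : Real.sqrt (q v) ≤ N ε v := by
  refine le_of_forall_gt_imp_ge_of_dense fun r hr => ?_
  have h0 : 0 < r := (N_nonneg ε v).trans_lt hr
  have h1 := mem_of_N_lt ε hε hr
  have h2 : q (r⁻¹ • v) ≤ 1 := (q_le_Ph ε _ _).trans h1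
  rw [q_smul, inv_pow, inv_mul_le_iff₀ (by positivity), mul_one] at h2
  exact Real.sqrt_le_iff.2 ⟨h0.le, h2⟩

lemma Ph_le_one_of_N_le (hε : ∀ γ η, 0 < ε γ η) {v : ℝ →₀ ℝ} (h : N ε v ≤ 1) {S : Finset ℝ}
    (hS : v.support ⊆ S) : Ph ε S v ≤ 1 := by
  have h1 : Tendsto (fun c : ℝ => Ph ε S (c • v)) (𝓝[<] 1) (𝓝 (Ph ε S v)) := by
    have := (continuous_Ph ε S v).tendsto 1
    simp only [one_smul] at this
    exact this.mono_left nhdsWithin_le_nhds
  refine le_of_tendsto h1 ?_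
  have h2 : ∀ᶠ c : ℝ in 𝓝[<] 1, 0 < c := by
    filter_upwards [Ioo_mem_nhdsLT (zero_lt_one' ℝ)] with c hc using hc.1
  filter_upwards [h2, self_mem_nhdsWithin] with c hc hc1
  have hc1' : c < 1 := hc1
  have h3 : N ε v < c⁻¹ := lt_of_le_of_lt h ((one_lt_inv₀ hc).2 hc1')
  have h4 := mem_of_N_lt ε hε h3
  rw [inv_inv] at h4
  exact (mem_B_iff ε hε (Finsupp.support_smul.trans hS)).1 h4

lemma N_lt_one (hε : ∀ γ η, 0 < ε γ η) {v : ℝ →₀ ℝ} {S : Finset ℝ}
    (hS : v.support ⊆ S) (h : Ph ε S v < 1) : N ε v < 1 := by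
  have h1 : Tendsto (fun c : ℝ => Ph ε S (c • v)) (𝓝[>] 1) (𝓝 (Ph ε S v)) := by
    have := (continuous_Ph ε S v).tendsto 1
    simp only [one_smul] at this
    exact this.mono_left nhdsWithin_le_nhds
  have h2 := h1.eventually (gt_mem_nhds h)
  obtain ⟨c, hc, hc1⟩ := (h2.and self_mem_nhdsWithin).exists
  have hc1' : 1 < c := hc1
  have hc0 : 0 < c := zero_lt_one.trans hc1'
  have h3 : c • v ∈ B ε := (mem_B_iff ε hε (Finsupp.support_smul.trans hS)).2 hc.le
  have h4 : N ε v ≤ c⁻¹ := N_le_of_mem ε (by positivity) (by rw [inv_inv]; exact h3)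
  exact h4.trans_lt ((inv_lt_one₀ hc0).2 hc1')

lemma N_le_max (hε : ∀ γ η, 0 < ε γ η) {v : ℝ →₀ ℝ} {S : Finset ℝ}
    (hS : v.support ⊆ S) : N ε v ≤ max 1 (Ph ε S v) := by
  set r := max 1 (Ph ε S v) with hr
  have h1 : 1 ≤ r := le_max_left _ _
  have h2 : Ph ε S v ≤ r := le_max_right _ _
  have h0 : 0 < r := by linarith
  apply N_le_of_mem ε h0
  rw [mem_B_iff ε hε (Finsupp.support_smul.trans hS)]
  have h3 : r⁻¹ ≤ 1 := inv_le_one_of_one_le₀ h1
  have h4 := Ph_combo ε hε S v 0 (a := r⁻¹) (b := 1 - r⁻¹) (by positivity) (by linarith)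
    (by ring)
  rw [smul_zero, add_zero, Ph_zero ε hε, mul_zero, add_zero] at h4
  have h5 : 0 ≤ r⁻¹ * (1 - r⁻¹) * q (v - 0) := by
    apply mul_nonneg (mul_nonneg (by positivity) (by linarith)) (q_nonneg _)
  have h6 : r⁻¹ * Ph ε S v ≤ 1 := by
    rw [inv_mul_le_iff₀ h0, mul_one]; exact h2
  linarith

/-- differentiability of the soft constraint -/
lemma hasDerivAt_sq_max (t : ℝ) : DifferentiableAt ℝ (fun t : ℝ => (max 0 t) ^ 2) t := by
  rcases lt_trichotomy t 0 with h | h | h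
  · apply DifferentiableAt.congr_of_eventuallyEq (differentiableAt_const (0 : ℝ))
    filter_upwards [gt_mem_nhds h] with x hx
    rw [max_eq_left hx.le]; norm_num
  · subst h
    apply HasDerivAt.differentiableAt (f' := 0)
    rw [hasDerivAt_iff_isLittleO_nhds_zero]
    simp only [zero_add, max_self, smul_zero, sub_zero]
    have h1 : (fun h : ℝ => max 0 h ^ 2 - (0 : ℝ) ^ 2) =O[𝓝 0] fun h : ℝ => h ^ 2 := by
      refine Asymptotics.IsBigO.of_bound 1 (Eventually.of_forall fun x => ?_)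
      rw [one_mul, Real.norm_eq_abs, Real.norm_eq_abs]
      have h2 : (0 : ℝ) ^ 2 = 0 := by norm_num
      rw [h2, sub_zero, abs_of_nonneg (sq_nonneg _), abs_of_nonneg (sq_nonneg _)]
      rcases le_total 0 x with hx | hx
      · rw [max_eq_right hx]
      · rw [max_eq_left hx, h2]; exact sq_nonneg _
    exact h1.trans_isLittleO (Asymptotics.isLittleO_pow_id one_lt_two)
  · apply DifferentiableAt.congr_of_eventuallyEq (f := fun x : ℝ => x ^ 2) (by fun_prop)
    filter_upwards [lt_mem_nhds h] with x hx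
    rw [max_eq_right hx.le]

lemma differentiable_th (e : ℝ) : Differentiable ℝ (th e) := by
  intro r
  unfold th
  simp only [div_pow]
  apply DifferentiableAt.div_const
  exact DifferentiableAt.comp (g := fun t : ℝ => (max 0 t) ^ 2) (f := fun r : ℝ => r - 1 - e) r
    (hasDerivAt_sq_max (r - 1 - e)) (by fun_prop)

lemma q_line (v d : ℝ →₀ ℝ) (S : Finset ℝ) (hv : v.support ⊆ S) (hd : d.support ⊆ S) (s : ℝ) :
    q (v + s • d) = q v + s * (2 * ∑ i ∈ S, v i * d i) + s ^ 2 * q d := by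
  have h3 : (v + s • d).support ⊆ S :=
    Finsupp.support_add.trans (Finset.union_subset hv (Finsupp.support_smul.trans hd))
  rw [q_eq _ _ h3, q_eq _ _ hv, q_eq _ _ hd, Finset.mul_sum, Finset.mul_sum, Finset.mul_sum,
    ← Finset.sum_add_distrib, ← Finset.sum_add_distrib]
  refine Finset.sum_congr rfl fun i _ => ?_
  simp only [Finsupp.add_apply, Finsupp.smul_apply, smul_eq_mul]
  ring

lemma differentiable_line (hε : ∀ γ η, 0 < ε γ η) {v d : ℝ →₀ ℝ} {S : Finset ℝ}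
    (hv : v.support ⊆ S) (hd : d.support ⊆ S) (hq : q v ≤ 1) :
    DifferentiableAt ℝ (fun s : ℝ => Ph ε S (v + s • d)) 0 := by
  unfold Ph
  have hq' : Differentiable ℝ (fun s : ℝ => q (v + s • d)) := by
    simp only [q_line v d S hv hd]
    fun_prop
  refine DifferentiableAt.add (hq' 0) (DifferentiableAt.fun_sum fun P hP => ?_)
  obtain ⟨γ, η⟩ := P
  simp only
  have hlin : ∀ i : ℝ, Differentiable ℝ (fun s : ℝ => (v + s • d) i) := by
    intro i
    simp only [Finsupp.add_apply, Finsupp.smul_apply, smul_eq_mul]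
    fun_prop
  have hcont : Continuous fun s : ℝ => Psi γ η (v + s • d) := by
    unfold Psi
    have h1 := (hlin γ).continuous
    have h2 := (hlin η).continuous
    have h3 := hq'.continuous
    fun_prop
  by_cases hne : v γ ≠ 0 ∧ v η ≠ 0
  · apply (differentiable_th _ _).comp
    unfold Psi
    have h1 : DifferentiableAt ℝ (fun s : ℝ => |(v + s • d) γ|) 0 :=
      ((hlin γ) 0).abs (by simpa using hne.1)
    have h2 : DifferentiableAt ℝ (fun s : ℝ => |(v + s • d) η|) 0 :=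
      ((hlin η) 0).abs (by simpa using hne.2)
    exact (h1.add h2).add ((((hq' 0).sub (((hlin γ) 0).pow 2)).sub (((hlin η) 0).pow 2)).div_const 2)
  · have h1 : Psi γ η v ≤ 1 := by
      by_cases h2 : v γ = 0
      · exact Psi_le_one_left hq h2
      · by_cases h3 : v η = 0
        · exact Psi_le_one_right hq h3
        · exact absurd ⟨h2, h3⟩ hne
    apply DifferentiableAt.congr_of_eventuallyEq (differentiableAt_const (0 : ℝ))
    have h4 : Tendsto (fun s : ℝ => Psi γ η (v + s • d)) (𝓝 0) (𝓝 (Psi γ η v)) := by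
      have := hcont.tendsto 0
      simpa using this
    have h5 : Psi γ η v < 1 + ε γ η := by
      have := hε γ η
      linarith
    filter_upwards [h4.eventually (gt_mem_nhds h5)] with s hs
    exact th_zero hs.le

/-- no direction separates two supporting functionals -/
lemma smooth_aux (hε : ∀ γ η, 0 < ε γ η) {v d : ℝ →₀ ℝ} (hv : N ε v = 1)
    (h0 : ∀ s : ℝ, 1 ≤ N ε (v + s • d)) {a : ℝ} (ha : 0 < a)
    (h1 : ∀ s : ℝ, 1 + s * a ≤ N ε (v + s • d)) : False := by
  classical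
  set S := v.support ∪ d.support with hS
  have hvS : v.support ⊆ S := Finset.subset_union_left
  have hdS : d.support ⊆ S := Finset.subset_union_right
  have hsup : ∀ s : ℝ, (v + s • d).support ⊆ S := fun s =>
    Finsupp.support_add.trans (Finset.union_subset hvS (Finsupp.support_smul.trans hdS))
  have hPh : Ph ε S v ≤ 1 := Ph_le_one_of_N_le ε hε hv.le hvS
  have hq : q v ≤ 1 := (q_le_Ph ε S v).trans hPh
  have hPh1 : Ph ε S v = 1 := by
    apply le_antisymm hPh
    by_contra hcon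
    have := N_lt_one ε hε hvS (not_le.1 hcon)
    rw [hv] at this
    exact lt_irrefl _ this
  obtain ⟨D, hD⟩ : ∃ D, HasDerivAt (fun s : ℝ => Ph ε S (v + s • d)) D 0 :=
    ⟨_, (differentiable_line ε hε hvS hdS hq).hasDerivAt⟩
  have hslope := hasDerivAt_iff_tendsto_slope.1 hD
  have hval : Ph ε S (v + (0 : ℝ) • d) = 1 := by rw [zero_smul, add_zero, hPh1]
  -- right slopes are at least `a`
  have hDa : a ≤ D := by
    have h2 : Tendsto (slope (fun s : ℝ => Ph ε S (v + s • d)) 0) (𝓝[>] 0) (𝓝 D) :=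
      hslope.mono_left (nhdsWithin_mono _ fun x hx => ne_of_gt hx)
    refine ge_of_tendsto h2 ?_
    filter_upwards [self_mem_nhdsWithin] with s hs
    have hs' : 0 < s := hs
    rw [slope_def_field, hval, sub_zero, le_div_iff₀ hs']
    have h3 := h1 s
    have h4 := N_le_max ε hε (hsup s)
    rcases le_max_iff.1 (h3.trans h4) with h5 | h5
    · have := mul_pos hs' ha
      linarith
    · linarith
  -- left slopes are at most zero
  have hD0 : D ≤ 0 := by
    have h2 : Tendsto (slope (fun s : ℝ => Ph ε S (v + s • d)) 0) (𝓝[<] 0) (𝓝 D) :=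
      hslope.mono_left (nhdsWithin_mono _ fun x hx => ne_of_lt hx)
    refine le_of_tendsto h2 ?_
    filter_upwards [self_mem_nhdsWithin] with s hs
    have hs' : s < 0 := hs
    rw [slope_def_field, hval, sub_zero]
    apply div_nonpos_of_nonneg_of_nonpos _ hs'.le
    by_contra hcon
    have h3 : Ph ε S (v + s • d) < 1 := by linarith
    exact absurd (h0 s) (not_le.2 (N_lt_one ε hε (hsup s) h3))
  linarith

end Pool.Agent.H826R3.SmoothRot
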