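import Mathlib

set_option autoImplicit false
set_option linter.unusedSectionVars false
set_option linter.style.haveILetI false

/-!
Abstract construction of a tiling by balls of a normed space with a Hamel basis indexed by the
reals, in countably many steps.
-/

namespace Pool.Agent.H826R3.TilingCore

open Filter Topology Set

variable {X : Type} [NormedAddCommGroup X] [NormedSpace ℝ X]
variable (b : Module.Basis ℝ ℝ X) (E : ℝ ≃ ℕ × X)

/-- level of a coordinate -/
def lev (γ : ℝ) : ℕ := (E γ).1

/-- point of a coordinate -/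
def pt (γ : ℝ) : X := (E γ).2

/-- `x` only uses coordinates of level `< n` -/
def inV (n : ℕ) (x : X) : Prop := ∀ γ, b.repr x γ ≠ 0 → lev E γ < n

open Classical in
/-- radii of the balls, by recursion on the level -/
noncomputable def rad (γ : ℝ) : ℝ :=
  if inV b E (lev E γ) (pt E γ) then
    (1 / 4) * sInf ({1 / 4} ∪ {r : ℝ | ∃ η : ℝ, ∃ _h : lev E η < lev E γ, 0 < rad η ∧
      r = max 0 (‖pt E γ - (pt E η + rad η • b η)‖ - rad η)})
  else 0
termination_by lev E γ
decreasing_by all_goals exact _h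

/-- centres -/
noncomputable def cen (γ : ℝ) : X := pt E γ + rad b E γ • b γ

/-- the set whose infimum gives four times the radius -/
def dset (γ : ℝ) : Set ℝ := {1 / 4} ∪ {r : ℝ | ∃ η : ℝ, ∃ _h : lev E η < lev E γ,
  0 < rad b E η ∧ r = max 0 (‖pt E γ - cen b E η‖ - rad b E η)}

lemma rad_of_inV {γ : ℝ} (h : inV b E (lev E γ) (pt E γ)) :
    rad b E γ = (1 / 4) * sInf (dset b E γ) := by
  rw [rad, if_pos h]
  rfl

lemma rad_of_not_inV {γ : ℝ} (h : ¬ inV b E (lev E γ) (pt E γ)) : rad b E γ = 0 := by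
  rw [rad, if_neg h]

lemma dset_nonneg (γ : ℝ) : ∀ r ∈ dset b E γ, 0 ≤ r := by
  rintro r (h | ⟨η, -, -, h⟩)
  · rw [mem_singleton_iff.1 h]; norm_num
  · rw [h]; exact le_max_left _ _

lemma dset_bdd (γ : ℝ) : BddBelow (dset b E γ) := ⟨0, fun r hr => dset_nonneg b E γ r hr⟩

lemma rad_nonneg (γ : ℝ) : 0 ≤ rad b E γ := by
  by_cases h : inV b E (lev E γ) (pt E γ)
  · rw [rad_of_inV b E h]
    have := Real.sInf_nonneg (dset_nonneg b E γ)
    positivity
  · rw [rad_of_not_inV b E h]

lemma rad_le (γ : ℝ) : rad b E γ ≤ 1 / 8 := by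
  by_cases h : inV b E (lev E γ) (pt E γ)
  · rw [rad_of_inV b E h]
    have := csInf_le (dset_bdd b E γ) (Or.inl rfl : (1 / 4 : ℝ) ∈ dset b E γ)
    linarith
  · rw [rad_of_not_inV b E h]; norm_num

lemma inV_of_rad_pos {γ : ℝ} (h : 0 < rad b E γ) : inV b E (lev E γ) (pt E γ) := by
  by_contra hcon
  rw [rad_of_not_inV b E hcon] at h
  exact lt_irrefl _ h

lemma rad_sep {γ η : ℝ} (hlev : lev E η < lev E γ) (hγ : 0 < rad b E γ) (hη : 0 < rad b E η) :
    rad b E η + 4 * rad b E γ ≤ ‖pt E γ - cen b E η‖ := by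
  have h1 := rad_of_inV b E (inV_of_rad_pos b E hγ)
  have h2 : sInf (dset b E γ) ≤ max 0 (‖pt E γ - cen b E η‖ - rad b E η) :=
    csInf_le (dset_bdd b E γ) (Or.inr ⟨η, hlev, hη, rfl⟩)
  have h3 : 0 < max 0 (‖pt E γ - cen b E η‖ - rad b E η) := by
    have : 0 < sInf (dset b E γ) := by linarith
    linarith
  have h4 : max 0 (‖pt E γ - cen b E η‖ - rad b E η) = ‖pt E γ - cen b E η‖ - rad b E η := by
    rcases max_choice 0 (‖pt E γ - cen b E η‖ - rad b E η) with h | h
    · rw [h] at h3; exact absurd h3 (lt_irrefl _)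
    · exact h
  rw [h4] at h2
  linarith

lemma inV_mono {m n : ℕ} (h : m ≤ n) {x : X} (hx : inV b E m x) : inV b E n x :=
  fun γ hγ => (hx γ hγ).trans_le h

lemma exists_inV (x : X) : ∃ n, inV b E n x := by
  refine ⟨(b.repr x).support.sup (lev E) + 1, fun γ hγ => ?_⟩
  have := Finset.le_sup (f := lev E) (Finsupp.mem_support_iff.2 hγ)
  omega

lemma repr_eq_zero {n : ℕ} {x : X} (hx : inV b E n x) {γ : ℝ} (hγ : n ≤ lev E γ) :
    b.repr x γ = 0 := by
  by_contra h
  have := hx γ h
  omega

/-- covering, level by level -/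
theorem cover (h1 : ∀ γ, ‖b γ‖ = 1)
    (h2 : ∀ s : ℝ, 0 < s → ∃ ε > 0, ∀ (w : X) (ζ η : ℝ) (t : ℝ), ζ ≠ η → s ≤ |b.repr w ζ| →
      b.repr w η = 0 → 0 < t → t ≤ 1 / 8 → t + ε ≤ ‖w - t • b η‖) (n : ℕ) :
    ∀ x : X, inV b E n x → ∃ γ, 0 < rad b E γ ∧ lev E γ ≤ n ∧
      ‖x - cen b E γ‖ ≤ rad b E γ := by
  induction n using Nat.strong_induction_on with
  | _ n ih =>
  intro x hx
  set γ := E.symm (n, x) with hγdef
  have hlev : lev E γ = n := by simp [lev, hγdef]
  have hpt : pt E γ = x := by simp [pt, hγdef]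
  rcases (rad_nonneg b E γ).eq_or_lt with h0 | hpos
  swap
  · refine ⟨γ, hpos, hlev.le, ?_⟩
    have : x - cen b E γ = -(rad b E γ • b γ) := by rw [cen, hpt]; abel
    rw [this, norm_neg, norm_smul, h1, mul_one, Real.norm_eq_abs, abs_of_pos hpos]
  · by_contra hcon
    push Not at hcon
    have hinV : inV b E (lev E γ) (pt E γ) := by rw [hlev, hpt]; exact hx
    have hrad := rad_of_inV b E hinV
    -- find a positive lower bound
    have hlow : ∃ c > 0, ∀ r ∈ dset b E γ, c ≤ r := by
      rcases Nat.eq_zero_or_pos n with hn | hn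
      · refine ⟨1 / 4, by norm_num, ?_⟩
        rintro r (h | ⟨η, hη, -, -⟩)
        · rw [mem_singleton_iff.1 h]
        · exfalso; rw [hlev, hn] at hη; exact Nat.not_lt_zero _ hη
      · -- `x` is not in `V_{n-1}`
        have hnot : ¬ inV b E (n - 1) x := by
          intro hx'
          obtain ⟨γ', hp, hl, hc⟩ := ih (n - 1) (by omega) x hx'
          exact absurd hc (not_le.2 (hcon γ' hp (by omega)))
        unfold inV at hnot
        push Not at hnot
        obtain ⟨ζ, hζ, hζl⟩ := hnot
        obtain ⟨ε, hε, hsep⟩ := h2 |b.repr x ζ| (abs_pos.2 hζ)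
        -- finitely many exceptional balls
        have hfin : ∃ c > 0, ∀ η ∈ (b.repr x).support, 0 < rad b E η → lev E η < n →
            c ≤ ‖x - cen b E η‖ - rad b E η := by
          classical
          let s := (b.repr x).support.filter fun η => 0 < rad b E η ∧ lev E η < n
          rcases s.eq_empty_or_nonempty with hs | hs
          · refine ⟨1, one_pos, fun η hη h3 h4 => ?_⟩
            have : η ∈ s := Finset.mem_filter.2 ⟨hη, h3, h4⟩
            rw [hs] at this
            simp at this
          · obtain ⟨η0, hη0, hmin⟩ := s.exists_min_image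
              (fun η => ‖x - cen b E η‖ - rad b E η) hs
            have h5 := Finset.mem_filter.1 hη0
            refine ⟨‖x - cen b E η0‖ - rad b E η0, ?_, fun η hη h3 h4 => ?_⟩
            · have := hcon η0 h5.2.1 (by omega)
              linarith
            · exact hmin η (Finset.mem_filter.2 ⟨hη, h3, h4⟩)
        obtain ⟨c, hc, hcfin⟩ := hfin
        refine ⟨min (1 / 4) (min ε c), by positivity, ?_⟩
        rintro r (h | ⟨η, hη, hηp, h⟩)
        · rw [mem_singleton_iff.1 h]; exact min_le_left _ _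
        · rw [h]
          refine le_trans ?_ (le_max_right _ _)
          rw [hpt]
          rw [hlev] at hη
          by_cases hηx : b.repr x η = 0
          · refine (min_le_right _ _).trans ((min_le_left _ _).trans ?_)
            have hptη := inV_of_rad_pos b E hηp
            have hζη : ζ ≠ η := by
              rintro rfl
              exact hζ hηx
            have h6 : b.repr (x - pt E η) ζ = b.repr x ζ := by
              rw [map_sub, Finsupp.sub_apply, repr_eq_zero b E hptη (by omega), sub_zero]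
            have h7 : b.repr (x - pt E η) η = 0 := by
              rw [map_sub, Finsupp.sub_apply, hηx, repr_eq_zero b E hptη le_rfl, sub_zero]
            have h8 := hsep (x - pt E η) ζ η (rad b E η) hζη (by rw [h6]) h7 hηp
              (rad_le b E η)
            have h9 : x - cen b E η = x - pt E η - rad b E η • b η := by rw [cen]; abel
            rw [h9]
            linarith
          · refine (min_le_right _ _).trans ((min_le_right _ _).trans ?_)
            exact hcfin η (Finsupp.mem_support_iff.2 hηx) hηp hη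
    obtain ⟨c, hc, hlow⟩ := hlow
    have : c ≤ sInf (dset b E γ) := le_csInf ⟨_, Or.inl rfl⟩ hlow
    linarith

/-- The tiling theorem. -/
theorem tiling (h1 : ∀ γ, ‖b γ‖ = 1)
    (h2 : ∀ s : ℝ, 0 < s → ∃ ε > 0, ∀ (w : X) (ζ η : ℝ) (t : ℝ), ζ ≠ η → s ≤ |b.repr w ζ| →
      b.repr w η = 0 → 0 < t → t ≤ 1 / 8 → t + ε ≤ ‖w - t • b η‖)
    (h3 : ∀ (γ η : ℝ) (t t' : ℝ), γ ≠ η → lev E γ = lev E η →
      b.repr (pt E γ - pt E η) γ = 0 → b.repr (pt E γ - pt E η) η = 0 →
      0 < t → t ≤ 1 / 8 → 0 < t' → t' ≤ 1 / 8 →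
      t + t' < ‖(pt E γ - pt E η) + t • b γ - t' • b η‖) :
    ∃ T : Set (X × ℝ), (∀ p ∈ T, 0 < p.2) ∧
      (⋃ p ∈ T, Metric.closedBall p.1 p.2) = univ ∧
      ∀ p ∈ T, ∀ q ∈ T, p ≠ q →
        Disjoint (Metric.closedBall p.1 p.2) (Metric.closedBall q.1 q.2) := by
  refine ⟨{p | ∃ γ, 0 < rad b E γ ∧ p = (cen b E γ, rad b E γ)}, ?_, ?_, ?_⟩
  · rintro p ⟨γ, hγ, rfl⟩
    exact hγ
  · refine eq_univ_of_forall fun x => ?_
    obtain ⟨n, hn⟩ := exists_inV b E x
    obtain ⟨γ, hγ, -, hx⟩ := cover b E h1 h2 n x hn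
    refine mem_iUnion₂.2 ⟨(cen b E γ, rad b E γ), ⟨γ, hγ, rfl⟩, ?_⟩
    rw [Metric.mem_closedBall, dist_eq_norm]
    exact hx
  · rintro p ⟨γ, hγ, rfl⟩ q ⟨η, hη, rfl⟩ hne
    have hγη : γ ≠ η := by rintro rfl; exact hne rfl
    have hdist : rad b E γ + rad b E η < ‖cen b E γ - cen b E η‖ := by
      -- the case of different levels
      have key : ∀ γ η : ℝ, lev E η < lev E γ → 0 < rad b E γ → 0 < rad b E η →
          rad b E γ + rad b E η < ‖cen b E γ - cen b E η‖ := by
        intro γ η hlt hγ hη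
        have h4 := rad_sep b E hlt hγ hη
        have h5 : cen b E γ - cen b E η = (pt E γ - cen b E η) + rad b E γ • b γ := by
          rw [cen]; abel
        have h6 : ‖pt E γ - cen b E η‖ ≤ ‖cen b E γ - cen b E η‖ + ‖rad b E γ • b γ‖ := by
          rw [h5]
          calc ‖pt E γ - cen b E η‖ = ‖(pt E γ - cen b E η + rad b E γ • b γ) -
                rad b E γ • b γ‖ := by rw [add_sub_cancel_right]
            _ ≤ _ := norm_sub_le _ _
        rw [norm_smul, h1, mul_one, Real.norm_eq_abs, abs_of_pos hγ] at h6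
        linarith
      rcases lt_trichotomy (lev E γ) (lev E η) with h | h | h
      · have := key η γ h hη hγ
        rw [← norm_neg, neg_sub]
        linarith
      · have hVγ := inV_of_rad_pos b E hγ
        have hVη := inV_of_rad_pos b E hη
        have h4 := h3 γ η (rad b E γ) (rad b E η) hγη h
          (by rw [map_sub, Finsupp.sub_apply, repr_eq_zero b E hVγ le_rfl,
                repr_eq_zero b E hVη h.ge, sub_zero])
          (by rw [map_sub, Finsupp.sub_apply, repr_eq_zero b E hVγ h.le,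
                repr_eq_zero b E hVη le_rfl, sub_zero])
          hγ (rad_le b E γ) hη (rad_le b E η)
        have h5 : cen b E γ - cen b E η =
            (pt E γ - pt E η) + rad b E γ • b γ - rad b E η • b η := by
          rw [cen, cen]; abel
        rw [h5]
        exact h4
      · exact key γ η h hγ hη
    simp only
    exact Metric.closedBall_disjoint_closedBall (by rw [dist_eq_norm]; exact hdist)

end Pool.Agent.H826R3.TilingCore
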